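import Pool.Agent.Helper82.HG.Defs

/-!
# MP_10ef18_an (Hector's conjecture for `C^{2+α}` groups), definitions

Paper proof: /team-store/MP_10ef18-HC.md. Everything is on the real line (lifts of circle
diffeomorphisms), as in `Pool.Agent.Helper82.HG`.
-/

set_option autoImplicit false

namespace Pool.Agent.Helper59.HX

open Set Pool.Agent.Helper82.HG

/-- a quadruple of points: the first gap has end points `c, a`, the second gap has end points `b, d`,
the inner end points are `a, b`. -/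
@[ext] structure Qd where
  c : ℝ
  a : ℝ
  b : ℝ
  d : ℝ

noncomputable instance : DecidableEq Qd := Classical.decEq Qd

/-- the four points are in increasing or in decreasing order -/
def Qd.ord (q : Qd) : Prop :=
  (q.c < q.a ∧ q.a < q.b ∧ q.b < q.d) ∨ (q.d < q.b ∧ q.b < q.a ∧ q.a < q.c)

/-- distance of the two gaps -/
def Qd.X (q : Qd) : ℝ := |q.b - q.a|

/-- length of the hull of the two gaps -/
def Qd.Y (q : Qd) : ℝ := |q.d - q.c|

/-- length of the first gap -/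
def Qd.u (q : Qd) : ℝ := |q.a - q.c|

/-- length of the second gap -/
def Qd.w (q : Qd) : ℝ := |q.d - q.b|

/-- the cross ratio of the two gaps -/
noncomputable def cr (q : Qd) : ℝ := q.X * q.Y / (q.u * q.w)

/-- image of a quadruple -/
def qact (g : Equiv.Perm ℝ) (q : Qd) : Qd := ⟨g q.c, g q.a, g q.b, g q.d⟩

/-- the cost of a quadruple -/
noncomputable def cst (α : ℝ) (q : Qd) : ℝ := min |q.b - q.c| |q.d - q.a| * q.Y ^ α

/-- the cross ratio distortion property of `s` -/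
def H2 (K α : ℝ) (s : ℝ → ℝ) : Prop :=
  ∀ c a b d : ℝ, (⟨c, a, b, d⟩ : Qd).ord → |d - c| ≤ 1 →
    |Real.log (cr ⟨s c, s a, s b, s d⟩) - Real.log (cr ⟨c, a, b, d⟩)| ≤ K * cst α ⟨c, a, b, d⟩

/-- the orbit of the gap `v`: a set of ordered pairs, closed under exchanging the two points -/
def OG (S : Set (Equiv.Perm ℝ)) (v : ℝ × ℝ) : Set (ℝ × ℝ) :=
  {u | ∃ g ∈ Gr S, u = act g v ∨ u = act g (v.2, v.1)}

/-- quadruples whose first gap is in the orbit of `v` and whose second gap is in the orbit of `w` -/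
def Pr (S : Set (Equiv.Perm ℝ)) (v w : ℝ × ℝ) : Set Qd :=
  {q | q.ord ∧ (q.c, q.a) ∈ OG S v ∧ (q.b, q.d) ∈ OG S w}

/-- the class of quadruples with `|J₁| ∈ (a/2, a]`, `|J₂| ∈ (b/2, b]` -/
def Cl (a b : ℝ) (q : Qd) : Prop := a / 2 < q.u ∧ q.u ≤ a ∧ b / 2 < q.w ∧ q.w ≤ b

/-- standing hypotheses of the counting part: `v`, `w` are gaps, `χ₁, χ₂, χ` bound the cross ratios
from below on `O(v) × O(v)`, `O(w) × O(w)`, `O(v) × O(w)`. -/
structure Pack (K : ℝ) (S : Set (Equiv.Perm ℝ)) (Λ : Set ℝ) (v w : ℝ × ℝ) (χ₁ χ₂ χ : ℝ) :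
    Prop where
  gens : Gens K S
  lam : Lam S Λ
  gv : Gap Λ v.1 v.2
  gw : Gap Λ w.1 w.2
  one : 1 ≤ χ
  one₁ : 1 ≤ χ₁
  one₂ : 1 ≤ χ₂
  sq : χ ^ 2 ≤ χ₁ * χ₂
  b₁ : ∀ q ∈ Pr S v v, χ₁ ≤ cr q
  b₂ : ∀ q ∈ Pr S w w, χ₂ ≤ cr q
  b : ∀ q ∈ Pr S v w, χ ≤ cr q

end Pool.Agent.Helper59.HX
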