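import Pool.Agent.Helper59.HX.St

/-!
# HX, module ABS
-/

set_option autoImplicit false

namespace Pool.Agent.Helper59.HX

namespace ABS

private def st {X : Type} (R : X → X → Prop) (x₀ : X) : ℕ → X → Prop
  | 0, x => x = x₀
  | n + 1, x => ∃ y, st R x₀ n y ∧ R y x

private theorem st_reach {X : Type} {R : X → X → Prop} {x₀ : X} :
    ∀ (n : ℕ) (x : X), st R x₀ n x → Relation.ReflTransGen R x₀ x
  | 0, x, h => by
    have h' : x = x₀ := h
    rw [h']
  | n + 1, x, h => by
    obtain ⟨y, hy, hR⟩ := h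
    exact (st_reach n y hy).tail hR

private theorem reach_st {X : Type} {R : X → X → Prop} {x₀ x : X}
    (h : Relation.ReflTransGen R x₀ x) : ∃ n, st R x₀ n x := by
  induction h with
  | refl => exact ⟨0, rfl⟩
  | tail _ hR ih =>
    obtain ⟨n, hn⟩ := ih
    exact ⟨n + 1, _, hn, hR⟩

end ABS

theorem tABS : StABS := by
  classical
  intro X R V c η L x₀ hc hstep hsum h0 x hx
  have key : ∀ (n : ℕ) (x : X), ABS.st R x₀ n x → (∀ k < n, ¬ ABS.st R x₀ k x) →
      ∃ F : Finset X, (∀ y ∈ F, ∃ k < n, ABS.st R x₀ k y) ∧ (∀ y ∈ F, V y ≤ L) ∧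
        V x ≤ V x₀ + ∑ y ∈ F, c y := by
    intro n
    induction n with
    | zero =>
      intro x hx _
      have hx' : x = x₀ := hx
      exact ⟨∅, by simp, by simp, by simp [hx']⟩
    | succ n ih =>
      intro x hx hmin
      obtain ⟨y, hy, hR⟩ := hx
      have hymin : ∀ k < n, ¬ ABS.st R x₀ k y := fun k hk h =>
        hmin (k + 1) (Nat.succ_lt_succ hk) ⟨y, h, hR⟩
      obtain ⟨F, hF1, hF2, hF3⟩ := ih y hy hymin
      have hF4 : ∑ z ∈ F, c z ≤ η := hsum F fun z hz => by
        obtain ⟨k, _, hk⟩ := hF1 z hz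
        exact ⟨ABS.st_reach k z hk, hF2 z hz⟩
      have hyL : V y ≤ L := by linarith
      have hyF : y ∉ F := fun h => by
        obtain ⟨k, hk, hk'⟩ := hF1 y h
        exact hymin k hk hk'
      refine ⟨insert y F, ?_, ?_, ?_⟩
      · intro z hz
        rcases Finset.mem_insert.mp hz with rfl | hz
        · exact ⟨n, Nat.lt_succ_self n, hy⟩
        · obtain ⟨k, hk, hk'⟩ := hF1 z hz
          exact ⟨k, Nat.lt_succ_of_lt hk, hk'⟩
      · intro z hz
        rcases Finset.mem_insert.mp hz with rfl | hz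
        · exact hyL
        · exact hF2 z hz
      · rw [Finset.sum_insert hyF]
        have := hstep y x hR hyL
        linarith
  have hex := ABS.reach_st hx
  obtain ⟨F, hF1, hF2, hF3⟩ := key (Nat.find hex) x (Nat.find_spec hex)
    (fun k hk => Nat.find_min hex hk)
  have hF4 : ∑ z ∈ F, c z ≤ η := hsum F fun z hz => by
    obtain ⟨k, _, hk⟩ := hF1 z hz
    exact ⟨ABS.st_reach k z hk, hF2 z hz⟩
  linarith

end Pool.Agent.Helper59.HX
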