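import Pool.Agent.Helper59.HX.St

set_option autoImplicit false

namespace Pool.Agent.Helper59.HX

open Set Pool.Agent.Helper82.HG

/-- Number of gaps of an orbit of comparable length with left end point in an interval. -/
theorem tCGA : StSPG → StCNT → StCGA := by
  intro hSPG hCNT K S Λ v χ₁ hG hL hv hχ hq a x L t ha hL0 ht
  obtain ⟨h1, -⟩ := hSPG K S Λ v χ₁ hG hL hv hχ hq
  have hs0 : 0 < √χ₁ := Real.sqrt_pos.mpr (by linarith)
  have hσ : 0 < a * √χ₁ / 6 := by positivity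
  have hsep : ∀ u ∈ t, ∀ u' ∈ t, u ≠ u' → a * √χ₁ / 6 ≤ |u.1 - u'.1| := by
    intro u hu u' hu' hne
    obtain ⟨a1, a2, a3, a4, -, -⟩ := ht u hu
    obtain ⟨b1, b2, b3, b4, -, -⟩ := ht u' hu'
    exact h1 a ha u a1 u' b1 a2 b2 a3 a4 b3 b4 hne
  have hinj : Set.InjOn (fun u : ℝ × ℝ => u.1) (t : Set (ℝ × ℝ)) := by
    intro u hu u' hu' he
    by_contra hne
    have h2 := hsep u hu u' hu' hne
    have he' : u.1 = u'.1 := he
    rw [he', sub_self, abs_zero] at h2
    linarith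
  have hcard : (t.image (fun u : ℝ × ℝ => u.1)).card = t.card := Finset.card_image_of_injOn hinj
  have h3 := hCNT (t.image (fun u : ℝ × ℝ => u.1)) x L (a * √χ₁ / 6) hσ hL0
    (by
      intro y hy
      obtain ⟨u, hu, rfl⟩ := Finset.mem_image.mp hy
      obtain ⟨-, -, -, -, c5, c6⟩ := ht u hu
      exact ⟨c5, c6⟩)
    (by
      intro y hy z hz hne
      obtain ⟨u, hu, rfl⟩ := Finset.mem_image.mp hy
      obtain ⟨u', hu', rfl⟩ := Finset.mem_image.mp hz
      exact hsep u hu u' hu' (fun h => hne (by rw [h])))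
  rw [hcard] at h3
  have h4 : L / (a * √χ₁ / 6) = 6 * L / (a * √χ₁) := by
    field_simp
  rw [h4] at h3
  exact h3

end Pool.Agent.Helper59.HX
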