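import Pool.Agent.Helper59.HX.St

/-!
# MP_10ef18_an, project HX, module CLC: the cost of a class of quadruples
-/

set_option autoImplicit false

namespace Pool.Agent.Helper59.HX

open Set Pool.Agent.Helper82.HG

namespace CLC

private theorem r1 {s X Y α : ℝ} (hs : 0 < s) (hα0 : 0 < α) (hα1 : α ≤ 1)
    (hY : s / 2 ≤ Y) (hXY : X * Y ≤ 8 * s ^ 2) : X / s * Y ^ α ≤ 16 * s ^ α := by
  have hY0 : 0 < Y := by linarith
  have ht0 : 0 < Y / s := by positivity
  have ht : 1 / 2 ≤ Y / s := by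
    rw [le_div_iff₀ hs]; linarith
  have h1 : (Y / s) ^ α ≤ 2 * (Y / s) := by
    rcases le_total 1 (Y / s) with h | h
    · have := Real.rpow_le_rpow_of_exponent_le h hα1
      rw [Real.rpow_one] at this
      linarith
    · have := Real.rpow_le_one ht0.le h hα0.le
      linarith
  have h2 : Y ^ α = s ^ α * (Y / s) ^ α := by
    rw [← Real.mul_rpow hs.le ht0.le]
    congr 1
    field_simp
  have hsα : 0 < s ^ α := Real.rpow_pos_of_pos hs α
  have h3 : X / s ≤ 8 * (s / Y) := by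
    rw [← mul_div_assoc, div_le_div_iff₀ hs hY0]
    nlinarith
  have h4 : 0 ≤ Y ^ α := (Real.rpow_pos_of_pos hY0 α).le
  calc X / s * Y ^ α ≤ 8 * (s / Y) * Y ^ α := mul_le_mul_of_nonneg_right h3 h4
    _ = 8 * (s / Y) * s ^ α * (Y / s) ^ α := by rw [h2]; ring
    _ ≤ 8 * (s / Y) * s ^ α * (2 * (Y / s)) := by
        apply mul_le_mul_of_nonneg_left h1; positivity
    _ = 16 * s ^ α := by field_simp; ring

private theorem r2 {s m M Y α : ℝ} (hs : 0 < s) (hm : 0 < m) (hmM : m ≤ M) (hα0 : 0 < α)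
    (hα1 : α ≤ 1) (hY0 : 0 ≤ Y) (hY : Y ≤ 2 * s + 2 * M) (hp : m * M ≤ s ^ 2) :
    m / M * Y ^ α ≤ 4 * s ^ α := by
  have hM : 0 < M := by linarith
  have h4 : (4 : ℝ) ^ α ≤ 4 := by
    have := Real.rpow_le_rpow_of_exponent_le (x := 4) (by norm_num) hα1
    rwa [Real.rpow_one] at this
  have hq : m / M ≤ 1 := by rw [div_le_one hM]; exact hmM
  have hq0 : 0 < m / M := by positivity
  rcases le_total M s with h | h
  · have h1 : Y ^ α ≤ (4 * s) ^ α := Real.rpow_le_rpow hY0 (by linarith) hα0.le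
    rw [Real.mul_rpow (by norm_num) hs.le] at h1
    have hsα : 0 < s ^ α := Real.rpow_pos_of_pos hs α
    have h5 : 0 ≤ Y ^ α := Real.rpow_nonneg hY0 α
    calc m / M * Y ^ α ≤ 1 * Y ^ α := mul_le_mul_of_nonneg_right hq h5
      _ = Y ^ α := one_mul _
      _ ≤ 4 ^ α * s ^ α := h1
      _ ≤ 4 * s ^ α := mul_le_mul_of_nonneg_right h4 hsα.le
  · have h1 : Y ^ α ≤ (4 * M) ^ α := Real.rpow_le_rpow hY0 (by linarith) hα0.le
    rw [Real.mul_rpow (by norm_num) hM.le] at h1
    have hMα : 0 < M ^ α := Real.rpow_pos_of_pos hM α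
    have hr0 : 0 < s / M := by positivity
    have hr1 : s / M ≤ 1 := by rw [div_le_one hM]; exact h
    have h6 : m / M ≤ (s / M) ^ α := by
      have h7 : m / M ≤ s / M * (s / M) := by
        rw [div_mul_div_comm, div_le_div_iff₀ hM (by positivity)]
        nlinarith
      have h8 : s / M * (s / M) ≤ s / M := by nlinarith
      have h9 : (s / M) ^ (1 : ℝ) ≤ (s / M) ^ α :=
        Real.rpow_le_rpow_of_exponent_ge hr0 hr1 hα1
      rw [Real.rpow_one] at h9
      linarith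
    have h10 : (s / M) ^ α * M ^ α = s ^ α := by
      rw [← Real.mul_rpow hr0.le hM.le]
      congr 1
      field_simp
    calc m / M * Y ^ α ≤ m / M * (4 ^ α * M ^ α) := mul_le_mul_of_nonneg_left h1 hq0.le
      _ ≤ m / M * (4 * M ^ α) := by
          apply mul_le_mul_of_nonneg_left _ hq0.le
          exact mul_le_mul_of_nonneg_right h4 hMα.le
      _ = 4 * (m / M * M ^ α) := by ring
      _ ≤ 4 * ((s / M) ^ α * M ^ α) := by
          apply mul_le_mul_of_nonneg_left _ (by norm_num)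
          exact mul_le_mul_of_nonneg_right h6 hMα.le
      _ = 4 * s ^ α := by rw [h10]

/-- the counting estimate times `X + m` -/
private theorem r3 {A B a b s X N : ℝ} (hs : 0 < s) (ha : 0 < a) (hb : 0 < b) (haA : a ≤ A)
    (hbB : b ≤ B) (hAB : s ^ 2 ≤ A * B) (hX0 : 0 ≤ X) (hX : X ≤ 2 * s)
    (hN : N ≤ 616 / max A B + 528 * X / (A * B)) :
    N * (X + min a b) ≤ 2200 * (X / s) + 616 * (min a b / max a b) := by
  have hA : 0 < A := by linarith
  have hB : 0 < B := by linarith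
  set mx := max A B with hmx
  set mn := min A B with hmn
  have hmn0 : 0 < mn := lt_min hA hB
  have hmx0 : 0 < mx := lt_of_lt_of_le hA (le_max_left _ _)
  have hprod : mn * mx = A * B := min_mul_max A B
  have hm0 : 0 < min a b := lt_min ha hb
  have hM0 : 0 < max a b := lt_of_lt_of_le ha (le_max_left _ _)
  have hmmn : min a b ≤ mn := min_le_min haA hbB
  have hMmx : max a b ≤ mx := max_le_max haA hbB
  have hmnmx : mn ≤ mx := min_le_max
  have hsmx : s ≤ mx := by
    by_contra hcon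
    push Not at hcon
    nlinarith
  have e1 : X / mx ≤ X / s := div_le_div_of_nonneg_left hX0 hs hsmx
  have e2 : min a b / mx ≤ min a b / max a b := div_le_div_of_nonneg_left hm0.le hM0 hMmx
  have e3 : X * X / (A * B) ≤ 2 * (X / s) := by
    have h1 : X * X / (A * B) ≤ X * X / s ^ 2 :=
      div_le_div_of_nonneg_left (by positivity) (by positivity) hAB
    have h2 : X * X / s ^ 2 = (X / s) * (X / s) := by field_simp
    have h3 : X / s ≤ 2 := by rw [div_le_iff₀ hs]; exact hX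
    have h4 : 0 ≤ X / s := by positivity
    nlinarith
  have e4 : X * min a b / (A * B) ≤ X / s := by
    rw [div_le_div_iff₀ (by positivity) hs, ← hprod]
    have h1 : min a b * s ≤ mn * mx := mul_le_mul hmmn hsmx hs.le hmn0.le
    calc X * min a b * s = X * (min a b * s) := by ring
      _ ≤ X * (mn * mx) := mul_le_mul_of_nonneg_left h1 hX0
  calc N * (X + min a b) ≤ (616 / mx + 528 * X / (A * B)) * (X + min a b) :=
        mul_le_mul_of_nonneg_right hN (by positivity)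
    _ = 616 * (X / mx) + 616 * (min a b / mx) + 528 * (X * X / (A * B)) +
        528 * (X * min a b / (A * B)) := by
        field_simp
        ring
    _ ≤ 616 * (X / s) + 616 * (min a b / max a b) + 528 * (2 * (X / s)) + 528 * (X / s) := by
        linarith
    _ = 2200 * (X / s) + 616 * (min a b / max a b) := by ring

end CLC

open CLC in
theorem tCLC : StBAS → StLAM → StPRB → StCLS → StCLC := by
  intro _ _ hPRB hCLS K S Λ v w χ₁ χ₂ χ hP α a b F hα0 hα1 ha hb hχ hF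
  have hχ1 := hP.one
  have hp : 0 < χ * a * b := by positivity
  obtain ⟨_, _, hB3⟩ := hPRB K S Λ v w hP.gens hP.lam hP.gv hP.gw
  set s := √(χ * a * b) with hsdef
  have hs : 0 < s := Real.sqrt_pos.2 hp
  have hs2 : s ^ 2 = χ * a * b := Real.sq_sqrt hp.le
  rw [Real.rpow_div_two_eq_sqrt α hp.le, ← hsdef]
  have hsα : 0 < s ^ α := Real.rpow_pos_of_pos hs α
  rcases F.eq_empty_or_nonempty with hFe | hFn
  · subst hFe
    simp only [Finset.sum_empty]
    positivity
  obtain ⟨q₁, hq₁, hmax⟩ := Finset.exists_max_image F (fun q => q.X) hFn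
  -- bounds for all members
  have hall : ∀ q ∈ F, 0 < q.X ∧ q.X * q.Y ≤ 4 * s ^ 2 ∧ s ^ 2 / 4 ≤ q.X * q.Y ∧
      q.Y = q.X + q.u + q.w ∧ q.u ≤ a ∧ q.w ≤ b ∧ 0 < q.u ∧ 0 < q.w ∧
      |q.b - q.c| = q.X + q.u ∧ |q.d - q.a| = q.X + q.w := by
    intro q hq
    obtain ⟨hqP, _, _, ⟨hu1, hu2, hw1, hw2⟩, hcr⟩ := hF q hq
    obtain ⟨hX, hu, hw, hY, hbc, hda, _, _, _, _⟩ := hB3 q hqP
    have hcr2 := hP.b q hqP
    have huw : 0 < q.u * q.w := by positivity
    unfold cr at hcr hcr2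
    rw [div_le_iff₀ huw] at hcr
    rw [le_div_iff₀ huw] at hcr2
    have huw2 : q.u * q.w ≤ a * b := mul_le_mul hu2 hw2 hw.le ha.le
    have huw3 : a / 2 * (b / 2) ≤ q.u * q.w := mul_le_mul hu1.le hw1.le (by positivity) hu.le
    refine ⟨hX, ?_, ?_, hY, hu2, hw2, hu, hw, hbc, hda⟩
    · rw [hs2]
      nlinarith
    · rw [hs2]
      nlinarith
  set X := q₁.X with hXdef
  obtain ⟨hX0, hXY, hXY2, hY1, hu1, hw1, hu0, hw0, _, _⟩ := hall q₁ hq₁
  rw [← hXdef] at hX0 hXY hXY2 hY1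
  have hXY' : X ≤ q₁.Y := by rw [hY1]; linarith
  have hX2s : X ≤ 2 * s := by
    have : X ^ 2 ≤ (2 * s) ^ 2 := by nlinarith
    exact (pow_le_pow_iff_left₀ hX0.le (by positivity) two_ne_zero).1 this
  have hs12 : s ≤ 1 / 2 := by
    have : s ^ 2 ≤ (1 / 2) ^ 2 := by rw [hs2]; linarith
    exact (pow_le_pow_iff_left₀ hs.le (by norm_num) two_ne_zero).1 this
  have hX1 : X ≤ 1 := by linarith
  -- counting
  have hcard := hCLS K S Λ v w χ₁ χ₂ χ hP a b X F ha hb hX0.le hX1 (by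
    intro q hq
    obtain ⟨hqP, h0, h1, hcl, _⟩ := hF q hq
    exact ⟨hqP, h0, h1, hcl, hmax q hq⟩)
  -- A, B
  have h1s : 1 ≤ √χ₁ := by rw [Real.one_le_sqrt]; exact hP.one₁
  have h2s : 1 ≤ √χ₂ := by rw [Real.one_le_sqrt]; exact hP.one₂
  have haA : a ≤ a * √χ₁ := by nlinarith
  have hbB : b ≤ b * √χ₂ := by nlinarith
  have hχs : χ ≤ √χ₁ * √χ₂ := by
    rw [← Real.sqrt_mul (by linarith [hP.one₁])]
    exact Real.le_sqrt_of_sq_le hP.sq
  have hAB : s ^ 2 ≤ a * √χ₁ * (b * √χ₂) := by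
    rw [hs2]
    have : 0 < a * b := by positivity
    nlinarith
  have hr3 := r3 hs ha hb haA hbB hAB hX0.le hX2s hcard
  -- Y'
  set Y' := X + a + b with hY'
  have hY'0 : 0 < Y' := by positivity
  have hm0 : 0 < min a b := lt_min ha hb
  have hM0 : 0 < max a b := lt_of_lt_of_le ha (le_max_left _ _)
  have hcst : ∀ q ∈ F, cst α q ≤ (X + min a b) * Y' ^ α := by
    intro q hq
    obtain ⟨hqX, _, _, hqY, hqu, hqw, hqu0, hqw0, hbc, hda⟩ := hall q hq
    have hqXm : q.X ≤ X := hmax q hq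
    have hY0 : 0 ≤ q.Y := by rw [hqY]; positivity
    unfold cst
    rw [hbc, hda]
    apply mul_le_mul
    · rw [min_add_add_left]
      exact add_le_add hqXm (min_le_min hqu hqw)
    · exact Real.rpow_le_rpow hY0 (by rw [hqY, hY']; linarith) hα0.le
    · exact Real.rpow_nonneg hY0 _
    · positivity
  have hsum : ∑ q ∈ F, cst α q ≤ F.card * ((X + min a b) * Y' ^ α) := by
    calc ∑ q ∈ F, cst α q ≤ ∑ _q ∈ F, (X + min a b) * Y' ^ α := Finset.sum_le_sum hcst
      _ = F.card * ((X + min a b) * Y' ^ α) := by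
          rw [Finset.sum_const, nsmul_eq_mul]
  have hYq : q₁.Y ≤ Y' := by rw [hY1, hY']; linarith
  have hYhalf : s / 2 ≤ Y' := by
    have h1 : (s / 2) ^ 2 ≤ q₁.Y ^ 2 := by
      have : q₁.Y * X ≤ q₁.Y * q₁.Y :=
        mul_le_mul_of_nonneg_left hXY' (by linarith)
      nlinarith
    have h2 : s / 2 ≤ q₁.Y :=
      (pow_le_pow_iff_left₀ (by positivity) (by linarith) two_ne_zero).1 h1
    linarith
  obtain ⟨_, _, _, ⟨hcu1, _, hcw1, _⟩, _⟩ := hF q₁ hq₁
  have hY2 : Y' ≤ 2 * q₁.Y := by rw [hY1, hY']; linarith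
  have hXY3 : X * Y' ≤ 8 * s ^ 2 := by
    have : X * Y' ≤ X * (2 * q₁.Y) := mul_le_mul_of_nonneg_left hY2 hX0.le
    linarith
  have hYα : 0 < Y' ^ α := Real.rpow_pos_of_pos hY'0 α
  have hR1 := r1 hs hα0 hα1 hYhalf hXY3
  have hab : min a b * max a b ≤ s ^ 2 := by
    rw [min_mul_max, hs2]
    have : 0 < a * b := by positivity
    nlinarith
  have hYle : Y' ≤ 2 * s + 2 * max a b := by
    rw [hY']
    have h1 := le_max_left a b
    have h2 := le_max_right a b
    linarith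
  have hR2 := r2 hs hm0 min_le_max hα0 hα1 hY'0.le hYle hab
  calc ∑ q ∈ F, cst α q ≤ F.card * ((X + min a b) * Y' ^ α) := hsum
    _ = F.card * (X + min a b) * Y' ^ α := by ring
    _ ≤ (2200 * (X / s) + 616 * (min a b / max a b)) * Y' ^ α :=
        mul_le_mul_of_nonneg_right hr3 hYα.le
    _ = 2200 * (X / s * Y' ^ α) + 616 * (min a b / max a b * Y' ^ α) := by ring
    _ ≤ 2200 * (16 * s ^ α) + 616 * (4 * s ^ α) := by linarith
    _ ≤ 50000 * s ^ α := by linarith

end Pool.Agent.Helper59.HX
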