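import Pool.Agent.Helper59.HX.St

/-!
# MP_10ef18_an (Hector), module CLS: number of quadruples in a class
-/

set_option autoImplicit false

namespace Pool.Agent.Helper59.HX

open Set Pool.Agent.Helper82.HG

namespace CLS

/-- the first gap, ordered -/
private noncomputable def g1 (q : Qd) : ℝ × ℝ := (min q.c q.a, max q.c q.a)

/-- the second gap, ordered -/
private noncomputable def g2 (q : Qd) : ℝ × ℝ := (min q.b q.d, max q.b q.d)

/-- the orientation -/
private noncomputable def ori (q : Qd) : Bool := decide (q.c < q.a)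

private theorem inc_data {q : Qd} (h : q.c < q.a ∧ q.a < q.b ∧ q.b < q.d) :
    g1 q = (q.c, q.a) ∧ g2 q = (q.b, q.d) ∧ ori q = true ∧ q.u = q.a - q.c ∧ q.w = q.d - q.b ∧
      q.X = q.b - q.a := by
  obtain ⟨h1, h2, h3⟩ := h
  refine ⟨?_, ?_, ?_, ?_, ?_, ?_⟩
  · unfold g1; rw [min_eq_left h1.le, max_eq_right h1.le]
  · unfold g2; rw [min_eq_left h3.le, max_eq_right h3.le]
  · unfold ori; exact decide_eq_true h1
  · unfold Qd.u; exact abs_of_pos (by linarith)
  · unfold Qd.w; exact abs_of_pos (by linarith)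
  · unfold Qd.X; exact abs_of_pos (by linarith)

private theorem dec_data {q : Qd} (h : q.d < q.b ∧ q.b < q.a ∧ q.a < q.c) :
    g1 q = (q.a, q.c) ∧ g2 q = (q.d, q.b) ∧ ori q = false ∧ q.u = q.c - q.a ∧ q.w = q.b - q.d ∧
      q.X = q.a - q.b := by
  obtain ⟨h1, h2, h3⟩ := h
  refine ⟨?_, ?_, ?_, ?_, ?_, ?_⟩
  · unfold g1; rw [min_eq_right h3.le, max_eq_left h3.le]
  · unfold g2; rw [min_eq_right h1.le, max_eq_left h1.le]
  · unfold ori; exact decide_eq_false (by linarith)
  · unfold Qd.u; rw [abs_of_neg (by linarith)]; ring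
  · unfold Qd.w; rw [abs_of_neg (by linarith)]; ring
  · unfold Qd.X; rw [abs_of_neg (by linarith)]; ring

private theorem inj {q q' : Qd} (h : q.ord) (h' : q'.ord) (e1 : g1 q = g1 q') (e2 : g2 q = g2 q')
    (e3 : ori q = ori q') : q = q' := by
  rcases h with h | h <;> rcases h' with h' | h'
  · obtain ⟨a1, a2, -, -⟩ := inc_data h
    obtain ⟨b1, b2, -, -⟩ := inc_data h'
    rw [a1, b1, Prod.mk.injEq] at e1
    rw [a2, b2, Prod.mk.injEq] at e2
    exact Qd.ext e1.1 e1.2 e2.1 e2.2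
  · obtain ⟨-, -, a3, -⟩ := inc_data h
    obtain ⟨-, -, b3, -⟩ := dec_data h'
    rw [a3, b3] at e3
    exact absurd e3 (by decide)
  · obtain ⟨-, -, a3, -⟩ := dec_data h
    obtain ⟨-, -, b3, -⟩ := inc_data h'
    rw [a3, b3] at e3
    exact absurd e3 (by decide)
  · obtain ⟨a1, a2, -, -⟩ := dec_data h
    obtain ⟨b1, b2, -, -⟩ := dec_data h'
    rw [a1, b1, Prod.mk.injEq] at e1
    rw [a2, b2, Prod.mk.injEq] at e2
    exact Qd.ext e1.2 e1.1 e2.2 e2.1

/-- double counting -/
private theorem dbl (F : Finset Qd) (p r : Qd → ℝ × ℝ)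
    (hinj : ∀ q ∈ F, ∀ q' ∈ F, ori q = ori q' → p q = p q' → r q = r q' → q = q') (N M : ℝ)
    (hM0 : 0 ≤ M) (hN : ((F.image p).card : ℝ) ≤ N)
    (hM : ∀ (g : ℝ × ℝ) (o : Bool),
      (((F.filter fun q => p q = g ∧ ori q = o).image r).card : ℝ) ≤ M) :
    (F.card : ℝ) ≤ 2 * (N * M) := by
  classical
  have h1 : ∀ g : ℝ × ℝ, ((F.filter fun q => p q = g).card : ℝ) ≤ 2 * M := by
    intro g
    have h2 : (F.filter fun q => p q = g) ⊆
        (F.filter fun q => p q = g ∧ ori q = true) ∪ (F.filter fun q => p q = g ∧ ori q = false) := by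
      intro q hq
      rw [Finset.mem_filter] at hq
      rw [Finset.mem_union, Finset.mem_filter, Finset.mem_filter]
      rcases Bool.eq_false_or_eq_true (ori q) with h | h
      · exact Or.inl ⟨hq.1, hq.2, h⟩
      · exact Or.inr ⟨hq.1, hq.2, h⟩
    have h3 : ∀ o : Bool, ((F.filter fun q => p q = g ∧ ori q = o).card : ℝ) ≤ M := by
      intro o
      rw [← Finset.card_image_of_injOn (f := r)]
      · exact hM g o
      · intro q hq q' hq' e
        rw [Finset.mem_coe, Finset.mem_filter] at hq hq'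
        exact hinj q hq.1 q' hq'.1 (hq.2.2.trans hq'.2.2.symm) (hq.2.1.trans hq'.2.1.symm) e
    have h4 := (Finset.card_le_card h2).trans (Finset.card_union_le _ _)
    have h5 : ((F.filter fun q => p q = g).card : ℝ) ≤
        ((F.filter fun q => p q = g ∧ ori q = true).card : ℝ) +
          ((F.filter fun q => p q = g ∧ ori q = false).card : ℝ) := by exact_mod_cast h4
    have := h3 true
    have := h3 false
    linarith
  rw [Finset.card_eq_sum_card_image p F]
  push_cast
  calc ∑ g ∈ F.image p, ((F.filter fun q => p q = g).card : ℝ)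
      ≤ ∑ g ∈ F.image p, 2 * M := Finset.sum_le_sum fun g _ => h1 g
    _ = ((F.image p).card : ℝ) * (2 * M) := by rw [Finset.sum_const, nsmul_eq_mul]
    _ ≤ N * (2 * M) := mul_le_mul_of_nonneg_right hN (by linarith)
    _ = 2 * (N * M) := by ring

end CLS

open CLS

/-- MODULE CLS. -/
theorem tCLS : StBAS → StLAM → StOGB → StPRB → StSPG → StCGA → StCLS := by
  classical
  intro _ _ hO hP hS hC K S Λ v w χ₁ χ₂ χ pk a b X₀ F ha hb hX0 hX1 hF
  obtain ⟨-, o2, -, -, -, -⟩ := hO K S Λ v pk.gens pk.lam pk.gv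
  obtain ⟨-, o2', -, -, -, -⟩ := hO K S Λ w pk.gens pk.lam pk.gw
  obtain ⟨-, -, hPR⟩ := hP K S Λ v w pk.gens pk.lam pk.gv pk.gw
  obtain ⟨-, sp1⟩ := hS K S Λ v χ₁ pk.gens pk.lam pk.gv pk.one₁ pk.b₁
  obtain ⟨-, sp2⟩ := hS K S Λ w χ₂ pk.gens pk.lam pk.gw pk.one₂ pk.b₂
  have c1 := hC K S Λ v χ₁ pk.gens pk.lam pk.gv pk.one₁ pk.b₁
  have c2 := hC K S Λ w χ₂ pk.gens pk.lam pk.gw pk.one₂ pk.b₂
  have s1 : 1 ≤ √χ₁ := Real.one_le_sqrt.2 pk.one₁
  have s2 : 1 ≤ √χ₂ := Real.one_le_sqrt.2 pk.one₂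
  set A := a * √χ₁ with hA
  set B := b * √χ₂ with hB
  have hA0 : 0 < A := by positivity
  have hB0 : 0 < B := by positivity
  have haA : a ≤ A := le_mul_of_one_le_right ha.le s1
  have hbB : b ≤ B := le_mul_of_one_le_right hb.le s2
  rcases F.eq_empty_or_nonempty with rfl | ⟨q₀, hq₀⟩
  · simp only [Finset.card_empty, Nat.cast_zero]
    have : 0 < max A B := lt_max_of_lt_left hA0
    positivity
  -- the general facts
  have hg1 : ∀ q ∈ F, g1 q ∈ OG S v ∧ (g1 q).1 < (g1 q).2 ∧ a / 2 < (g1 q).2 - (g1 q).1 ∧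
      (g1 q).2 - (g1 q).1 ≤ a := by
    intro q hq
    obtain ⟨hqP, hc0, hc1, ⟨hu1, hu2, hw1, hw2⟩, hX⟩ := hF q hq
    obtain ⟨hord, hv1, hw'⟩ := hqP
    rcases hord with h | h
    · obtain ⟨e1, -, -, eu, -, -⟩ := inc_data h
      rw [e1]
      rw [eu] at hu1 hu2
      exact ⟨hv1, h.1, hu1, hu2⟩
    · obtain ⟨e1, -, -, eu, -, -⟩ := dec_data h
      rw [e1]
      rw [eu] at hu1 hu2
      exact ⟨o2 _ hv1, h.2.2, hu1, hu2⟩
  have hg2 : ∀ q ∈ F, g2 q ∈ OG S w ∧ (g2 q).1 < (g2 q).2 ∧ b / 2 < (g2 q).2 - (g2 q).1 ∧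
      (g2 q).2 - (g2 q).1 ≤ b := by
    intro q hq
    obtain ⟨hqP, hc0, hc1, ⟨hu1, hu2, hw1, hw2⟩, hX⟩ := hF q hq
    obtain ⟨hord, hv1, hw'⟩ := hqP
    rcases hord with h | h
    · obtain ⟨-, e2, -, -, ew, -⟩ := inc_data h
      rw [e2]
      rw [ew] at hw1 hw2
      exact ⟨hw', h.2.2, hw1, hw2⟩
    · obtain ⟨-, e2, -, -, ew, -⟩ := dec_data h
      rw [e2]
      rw [ew] at hw1 hw2
      exact ⟨o2' _ hw', h.1, hw1, hw2⟩
  have hA2 : A ≤ 2 := by
    obtain ⟨h1, h2, h3, -⟩ := hg1 q₀ hq₀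
    have h4 := sp1 _ h1
    rw [abs_of_pos (by linarith)] at h4
    have h5 : a / 2 * √χ₁ ≤ ((g1 q₀).2 - (g1 q₀).1) * √χ₁ :=
      mul_le_mul_of_nonneg_right h3.le (by linarith)
    rw [hA]
    linarith
  have hB2 : B ≤ 2 := by
    obtain ⟨h1, h2, h3, -⟩ := hg2 q₀ hq₀
    have h4 := sp2 _ h1
    rw [abs_of_pos (by linarith)] at h4
    have h5 : b / 2 * √χ₂ ≤ ((g2 q₀).2 - (g2 q₀).1) * √χ₂ :=
      mul_le_mul_of_nonneg_right h3.le (by linarith)
    rw [hB]
    linarith
  have hinj : ∀ q ∈ F, ∀ q' ∈ F, ori q = ori q' → g1 q = g1 q' → g2 q = g2 q' → q = q' :=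
    fun q hq q' hq' e3 e1 e2 => inj (hF q hq).1.1 (hF q' hq').1.1 e1 e2 e3
  have i1 : 1 ≤ 2 / A := by rw [le_div_iff₀ hA0]; linarith
  have i2 : 1 ≤ 2 / B := by rw [le_div_iff₀ hB0]; linarith
  -- positions
  have pos : ∀ q ∈ F, 0 ≤ q.c ∧ q.c < 1 ∧ q.u ≤ 1 ∧ q.w ≤ 1 ∧ q.u ≤ a ∧ q.w ≤ b ∧ q.X ≤ X₀ ∧
      0 < q.X ∧ 0 < q.u ∧ 0 < q.w := by
    intro q hq
    obtain ⟨hqP, hc0, hc1, ⟨hu1, hu2, hw1, hw2⟩, hX⟩ := hF q hq
    obtain ⟨p1, p2, p3, -, -, -, p7, p8, -, -⟩ := hPR q hqP
    exact ⟨hc0, hc1, p7, p8, hu2, hw2, hX, p1, p2, p3⟩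
  -- (i)
  have m1 : (F.card : ℝ) ≤ 2 * ((14 / A) * (7 + 6 * X₀ / B)) := by
    apply dbl F g1 g2 (fun q hq q' hq' e3 e1 e2 => hinj q hq q' hq' e3 e1 e2)
    · positivity
    · have := c1 a (-1) 2 (F.image g1) ha (by norm_num) (by
        intro u hu
        obtain ⟨q, hq, rfl⟩ := Finset.mem_image.1 hu
        obtain ⟨h1, h2, h3, h4⟩ := hg1 q hq
        obtain ⟨p1, p2, p3, p4, p5, p6, p7, p8, p9, p10⟩ := pos q hq
        refine ⟨h1, h2, h3, h4, ?_⟩
        rcases (hF q hq).1.1 with h | h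
        · obtain ⟨e1, -, -, eu, -, -⟩ := inc_data h
          rw [e1]
          constructor <;> simp only <;> linarith
        · obtain ⟨e1, -, -, eu, -, -⟩ := dec_data h
          rw [e1]
          rw [eu] at p3
          constructor <;> simp only <;> linarith)
      refine this.trans ?_
      have e : 6 * (2 : ℝ) / (a * √χ₁) = 6 * (2 / A) := by rw [← hA]; ring
      rw [e]
      have e2 : 14 / A = 7 * (2 / A) := by ring
      rw [e2]
      linarith
    · intro g o
      by_cases hne : (F.filter fun q => g1 q = g ∧ ori q = o) = ∅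
      · rw [hne]
        simp only [Finset.image_empty, Finset.card_empty, Nat.cast_zero]
        positivity
      have key : ∃ x : ℝ, ∀ q ∈ F, g1 q = g → ori q = o → x ≤ (g2 q).1 ∧ (g2 q).1 ≤ x + (X₀ + b) := by
        cases o with
        | true =>
          refine ⟨g.2, ?_⟩
          intro q hq e e'
          obtain ⟨p1, p2, p3, p4, p5, p6, p7, p8, p9, p10⟩ := pos q hq
          rcases (hF q hq).1.1 with h | h
          · obtain ⟨e1, e2, -, eu, ew, eX⟩ := inc_data h
            rw [← e, e1, e2]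
            rw [eX] at p7
            constructor <;> simp only <;> linarith [h.1, h.2.1, h.2.2]
          · obtain ⟨-, -, e3, -⟩ := dec_data h
            rw [e3] at e'
            exact absurd e' (by decide)
        | false =>
          refine ⟨g.1 - X₀ - b, ?_⟩
          intro q hq e e'
          obtain ⟨p1, p2, p3, p4, p5, p6, p7, p8, p9, p10⟩ := pos q hq
          rcases (hF q hq).1.1 with h | h
          · obtain ⟨-, -, e3, -⟩ := inc_data h
            rw [e3] at e'
            exact absurd e' (by decide)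
          · obtain ⟨e1, e2, -, eu, ew, eX⟩ := dec_data h
            rw [← e, e1, e2]
            rw [eX] at p7
            rw [ew] at p6
            constructor <;> simp only <;> linarith [h.1, h.2.1, h.2.2]
      obtain ⟨x, hx⟩ := key
      have := c2 b x (X₀ + b) ((F.filter fun q => g1 q = g ∧ ori q = o).image g2) hb
        (by linarith) (by
        intro u hu
        obtain ⟨q, hq, rfl⟩ := Finset.mem_image.1 hu
        rw [Finset.mem_filter] at hq
        obtain ⟨h1, h2, h3, h4⟩ := hg2 q hq.1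
        exact ⟨h1, h2, h3, h4, hx q hq.1 hq.2.1 hq.2.2⟩)
      refine this.trans ?_
      rw [← hB]
      have e : 6 * (X₀ + b) / B = 6 * X₀ / B + 6 * (b / B) := by ring
      rw [e]
      have : b / B ≤ 1 := (div_le_one hB0).2 hbB
      linarith
  -- (ii)
  have m2 : (F.card : ℝ) ≤ 2 * ((44 / B) * (7 + 6 * X₀ / A)) := by
    apply dbl F g2 g1 (fun q hq q' hq' e3 e2 e1 => hinj q hq q' hq' e3 e1 e2)
    · positivity
    · have := c2 b (-3) 7 (F.image g2) hb (by norm_num) (by
        intro u hu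
        obtain ⟨q, hq, rfl⟩ := Finset.mem_image.1 hu
        obtain ⟨h1, h2, h3, h4⟩ := hg2 q hq
        obtain ⟨p1, p2, p3, p4, p5, p6, p7, p8, p9, p10⟩ := pos q hq
        refine ⟨h1, h2, h3, h4, ?_⟩
        rcases (hF q hq).1.1 with h | h
        · obtain ⟨e1, e2, -, eu, ew, eX⟩ := inc_data h
          rw [e2]
          rw [eu] at p3
          rw [eX] at p7
          constructor <;> simp only <;> linarith [h.1, h.2.1, h.2.2]
        · obtain ⟨e1, e2, -, eu, ew, eX⟩ := dec_data h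
          rw [e2]
          rw [eu] at p3
          rw [ew] at p4
          rw [eX] at p7
          constructor <;> simp only <;> linarith [h.1, h.2.1, h.2.2])
      refine this.trans ?_
      have e : 6 * (7 : ℝ) / (b * √χ₂) = 21 * (2 / B) := by rw [← hB]; ring
      rw [e]
      have e2 : 44 / B = 22 * (2 / B) := by ring
      rw [e2]
      linarith
    · intro g o
      by_cases hne : (F.filter fun q => g2 q = g ∧ ori q = o) = ∅
      · rw [hne]
        simp only [Finset.image_empty, Finset.card_empty, Nat.cast_zero]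
        positivity
      have key : ∃ x : ℝ, ∀ q ∈ F, g2 q = g → ori q = o → x ≤ (g1 q).1 ∧ (g1 q).1 ≤ x + (X₀ + a) := by
        cases o with
        | true =>
          refine ⟨g.1 - X₀ - a, ?_⟩
          intro q hq e e'
          obtain ⟨p1, p2, p3, p4, p5, p6, p7, p8, p9, p10⟩ := pos q hq
          rcases (hF q hq).1.1 with h | h
          · obtain ⟨e1, e2, -, eu, ew, eX⟩ := inc_data h
            rw [← e, e1, e2]
            rw [eX] at p7
            rw [eu] at p5
            constructor <;> simp only <;> linarith [h.1, h.2.1, h.2.2]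
          · obtain ⟨-, -, e3, -⟩ := dec_data h
            rw [e3] at e'
            exact absurd e' (by decide)
        | false =>
          refine ⟨g.2, ?_⟩
          intro q hq e e'
          obtain ⟨p1, p2, p3, p4, p5, p6, p7, p8, p9, p10⟩ := pos q hq
          rcases (hF q hq).1.1 with h | h
          · obtain ⟨-, -, e3, -⟩ := inc_data h
            rw [e3] at e'
            exact absurd e' (by decide)
          · obtain ⟨e1, e2, -, eu, ew, eX⟩ := dec_data h
            rw [← e, e1, e2]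
            rw [eX] at p7
            constructor <;> simp only <;> linarith [h.1, h.2.1, h.2.2]
      obtain ⟨x, hx⟩ := key
      have := c1 a x (X₀ + a) ((F.filter fun q => g2 q = g ∧ ori q = o).image g1) ha
        (by linarith) (by
        intro u hu
        obtain ⟨q, hq, rfl⟩ := Finset.mem_image.1 hu
        rw [Finset.mem_filter] at hq
        obtain ⟨h1, h2, h3, h4⟩ := hg1 q hq.1
        exact ⟨h1, h2, h3, h4, hx q hq.1 hq.2.1 hq.2.2⟩)
      refine this.trans ?_
      rw [← hA]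
      have e : 6 * (X₀ + a) / A = 6 * X₀ / A + 6 * (a / A) := by ring
      rw [e]
      have : a / A ≤ 1 := (div_le_one hA0).2 haA
      linarith
  have e1 : 2 * ((14 / A) * (7 + 6 * X₀ / B)) = 196 / A + 168 * X₀ / (A * B) := by
    field_simp
    ring
  have e2 : 2 * ((44 / B) * (7 + 6 * X₀ / A)) = 616 / B + 528 * X₀ / (A * B) := by
    field_simp
    ring
  rw [e1] at m1
  rw [e2] at m2
  rcases le_total A B with h | h
  · rw [max_eq_right h]
    exact m2
  · rw [max_eq_left h]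
    have h3 : 196 / A ≤ 616 / A := div_le_div_of_nonneg_right (by norm_num) hA0.le
    have h4 : 168 * X₀ / (A * B) ≤ 528 * X₀ / (A * B) :=
      div_le_div_of_nonneg_right (by linarith) (by positivity)
    linarith

end Pool.Agent.Helper59.HX
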