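import Pool.Agent.Helper59.HX.St

set_option autoImplicit false

namespace Pool.Agent.Helper59.HX

theorem tCNT : StCNT := by
  intro s x L σ hσ hL hs hsep
  have hinj : Set.InjOn (fun y : ℝ => ⌊(y - x) / σ⌋₊) (s : Set ℝ) := by
    intro y hy z hz hyz
    by_contra hne
    have h1 := hsep y hy z hz hne
    have hy0 : 0 ≤ (y - x) / σ := div_nonneg (by linarith [(hs y hy).1]) hσ.le
    have hz0 : 0 ≤ (z - x) / σ := div_nonneg (by linarith [(hs z hz).1]) hσ.le
    have hyz' : ⌊(y - x) / σ⌋₊ = ⌊(z - x) / σ⌋₊ := hyz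
    have a1 := Nat.floor_le hy0
    have a2 := Nat.lt_floor_add_one ((y - x) / σ)
    have b1 := Nat.floor_le hz0
    have b2 := Nat.lt_floor_add_one ((z - x) / σ)
    rw [hyz'] at a1 a2
    have h2 : |(y - x) / σ - (z - x) / σ| < 1 := by
      rw [abs_lt]
      constructor <;> linarith
    have h3 : (y - x) / σ - (z - x) / σ = (y - z) / σ := by ring
    rw [h3, abs_div, abs_of_pos hσ, div_lt_one hσ] at h2
    linarith
  have hmaps : ∀ y ∈ s, (fun y : ℝ => ⌊(y - x) / σ⌋₊) y ∈ Finset.range (⌊L / σ⌋₊ + 1) := by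
    intro y hy
    rw [Finset.mem_range]
    refine Nat.lt_succ_of_le (Nat.floor_le_floor ?_)
    exact div_le_div_of_nonneg_right (by linarith [(hs y hy).2]) hσ.le
  have h1 := Finset.card_le_card_of_injOn _ hmaps hinj
  rw [Finset.card_range] at h1
  have h2 : (s.card : ℝ) ≤ (⌊L / σ⌋₊ : ℝ) + 1 := by exact_mod_cast h1
  have h3 : (⌊L / σ⌋₊ : ℝ) ≤ L / σ := Nat.floor_le (by positivity)
  linarith

end Pool.Agent.Helper59.HX
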