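import Pool.Agent.Helper59.HX.St

/-!
# Project HX, module CR1: the cross ratio of two gaps of small orbits is at least one
-/

set_option autoImplicit false

namespace Pool.Agent.Helper59.HX

open Set Pool.Agent.Helper82.HG

namespace CR1

private theorem frac {X u w : ℝ} (hu : 0 < u) (hw : 0 < w) (h : min u w ≤ X) :
    1 ≤ X * (X + u + w) / (u * w) := by
  rw [le_div_iff₀ (mul_pos hu hw), one_mul]
  rcases min_choice u w with h1 | h1
  · rw [h1] at h
    nlinarith
  · rw [h1] at h
    nlinarith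

end CR1

open CR1 in
/-- the cross ratio of two gaps of small orbits is at least one -/
theorem tCR1 (_hB : StBAS) (_hL : StLAM) (hO : StOGB) (_hP : StPRB) (hS : StSEP) : StCR1 := by
  intro K S Λ v w hK hG hΛ hv hw tv tw q hq
  obtain ⟨hord, h1, h2⟩ := hq
  obtain ⟨-, o2, -, o4, -, o6⟩ := hO K S Λ v hG hΛ hv
  obtain ⟨-, p2, -, p4, -, p6⟩ := hO K S Λ w hG hΛ hw
  have hK0 : 0 < K := by linarith
  have key : ∀ x y x' y' : ℝ, x < y → y < x' → x' < y' → Gap Λ x y → Gap Λ x' y' →
      Tot S (x, y) (1 / (1024 * K)) → Tot S (x', y') (1 / (1024 * K)) →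
      min (y - x) (y' - x') ≤ x' - y := by
    intro x y x' y' e1 e2 e3 g1 g2 t1 t2
    have hc : ∀ z : ℝ, 0 < z → 64 * K * (1 / (1024 * K)) * (z + 2 * (4 * z)) ≤ z := by
      intro z hz
      have : 64 * K * (1 / (1024 * K)) = 1 / 16 := by
        field_simp
        norm_num
      rw [this]
      linarith
    have h := hS K S Λ hK0.le hG hΛ x y x' y' (1 / (1024 * K)) (1 / (1024 * K))
      (4 * (y - x)) (4 * (y' - x')) g1 g2 e2 t1 t2 (by linarith) (by linarith)
      (hc _ (by linarith)) (hc _ (by linarith))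
    have h4 : min (4 * (y - x)) (4 * (y' - x')) / 4 = min (y - x) (y' - x') := by
      rw [← mul_min_of_nonneg _ _ (by norm_num : (0 : ℝ) ≤ 4)]
      ring
    rwa [h4] at h
  rcases hord with ⟨e1, e2, e3⟩ | ⟨e1, e2, e3⟩
  · have g1 := (o4 _ h1).1
    have g2 := (p4 _ h2).1
    simp only [min_eq_left e1.le, max_eq_right e1.le] at g1
    simp only [min_eq_left e3.le, max_eq_right e3.le] at g2
    have h := key q.c q.a q.b q.d e1 e2 e3 g1 g2 (o6 _ h1 _ tv) (p6 _ h2 _ tw)
    unfold cr Qd.X Qd.Y Qd.u Qd.w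
    have a1 : |q.b - q.a| = q.b - q.a := abs_of_pos (by linarith)
    have a2 : |q.d - q.c| = (q.b - q.a) + (q.a - q.c) + (q.d - q.b) := by
      rw [abs_of_pos (by linarith)]
      ring
    have a3 : |q.a - q.c| = q.a - q.c := abs_of_pos (by linarith)
    have a4 : |q.d - q.b| = q.d - q.b := abs_of_pos (by linarith)
    rw [a1, a2, a3, a4]
    exact frac (by linarith) (by linarith) h
  · have g1 := (o4 _ h1).1
    have g2 := (p4 _ h2).1
    simp only [min_eq_right e3.le, max_eq_left e3.le] at g1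
    simp only [min_eq_right e1.le, max_eq_left e1.le] at g2
    have h := key q.d q.b q.a q.c e1 e2 e3 g2 g1 (p6 _ (p2 _ h2) _ tw) (o6 _ (o2 _ h1) _ tv)
    unfold cr Qd.X Qd.Y Qd.u Qd.w
    have a1 : |q.b - q.a| = q.a - q.b := by
      rw [abs_of_neg (by linarith)]
      ring
    have a2 : |q.d - q.c| = (q.a - q.b) + (q.c - q.a) + (q.b - q.d) := by
      rw [abs_of_neg (by linarith)]
      ring
    have a3 : |q.a - q.c| = q.c - q.a := by
      rw [abs_of_neg (by linarith)]
      ring
    have a4 : |q.d - q.b| = q.b - q.d := by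
      rw [abs_of_neg (by linarith)]
      ring
    rw [a1, a2, a3, a4]
    exact frac (by linarith) (by linarith) (by rw [min_comm]; exact h)

end Pool.Agent.Helper59.HX
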