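import Pool.Agent.Helper59.HX.St

/-!
# MP_10ef18_an (Hector), module KEY: the theorem
-/

set_option autoImplicit false

namespace Pool.Agent.Helper59.HX

open Set Pool.Agent.Helper82.HG

namespace KEY

private theorem choose_delta {ℓ α B : ℝ} (hℓ : 0 < ℓ) (hα : 0 < α) (hB : 0 < B) :
    ∃ δ : ℝ, 0 < δ ∧ δ ≤ 1 / 8 ∧ 2 * δ < ℓ ∧ (δ ^ 2) ^ (α / 2) ≤ B := by
  have hy : 0 < B ^ (1 / α) := Real.rpow_pos_of_pos hB _
  refine ⟨min (1 / 8) (min (ℓ / 4) (B ^ (1 / α))), ?_, min_le_left _ _, ?_, ?_⟩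
  · exact lt_min (by norm_num) (lt_min (by linarith) hy)
  · have h1 : min (1 / 8) (min (ℓ / 4) (B ^ (1 / α))) ≤ ℓ / 4 :=
      (min_le_right _ _).trans (min_le_left _ _)
    linarith
  · set δ := min (1 / 8) (min (ℓ / 4) (B ^ (1 / α))) with hδ
    have hδ0 : 0 < δ := lt_min (by norm_num) (lt_min (by linarith) hy)
    have h1 : δ ≤ B ^ (1 / α) := (min_le_right _ _).trans (min_le_right _ _)
    have h2 : (δ ^ 2) ^ (α / 2) ≤ ((B ^ (1 / α)) ^ 2) ^ (α / 2) :=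
      Real.rpow_le_rpow (by positivity) (pow_le_pow_left₀ hδ0.le h1 2) (by linarith)
    refine h2.trans (le_of_eq ?_)
    rw [← Real.rpow_natCast (B ^ (1 / α)) 2, ← Real.rpow_mul hB.le, ← Real.rpow_mul hB.le]
    have : 1 / α * ((2 : ℕ) : ℝ) * (α / 2) = 1 := by
      push_cast
      field_simp
    rw [this, Real.rpow_one]

end KEY

theorem tKEY : StBAS → StLAM → StPRB → StPTH → StTOT → StMIN → StTYP → StKEY := by
  intro _ _ hPRB hPTH hTOT hMIN hTYP K K' α S Λ hK hK' hα hα1 hG hL hH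
  by_contra hfin
  obtain ⟨ℓ, hℓ, hmin⟩ := hMIN K S Λ hG hL
  set C : ℝ := ((1 - (2 : ℝ) ^ (-α / 2))⁻¹) ^ 2 with hC
  have hC0 : 0 ≤ C := by positivity
  have hlog2 : 0 < Real.log 2 := Real.log_pos (by norm_num)
  obtain ⟨δ, hδ, hδ8, hδℓ, hδB⟩ := KEY.choose_delta (B := Real.log 2 / (K' * 50000 * C + 1)) hℓ hα
    (by positivity)
  obtain ⟨v, w, χ₁, χ₂, χ, M₁, M₂, hP, hM₁, hM₂, hv, hw, hM₁δ, hM₂δ, hχM, q₀, hq₀, hcr₀⟩ :=
    hTYP K S Λ hK hG hL hfin δ hδ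
  obtain ⟨hact, -, hpr⟩ := hPRB K S Λ v w hG hL hP.gv hP.gw
  have hχ0 : 0 < χ := lt_of_lt_of_le one_pos hP.one
  have hcrpos : ∀ q ∈ Pr S v w, 0 < cr q := by
    intro q hq
    obtain ⟨a1, a2, a3, a4, -⟩ := hpr q hq
    unfold cr
    rw [a4]
    positivity
  -- consequences of the bound on the cross ratio
  have hest : ∀ q ∈ Pr S v w, Real.log (cr q) ≤ Real.log (4 * χ) →
      cr q ≤ 4 * χ ∧ q.u ≤ M₁ ∧ q.w ≤ M₂ ∧ q.X ≤ 2 * δ ∧ q.Y ≤ 1 := by
    intro q hq hlog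
    have h1 : cr q ≤ 4 * χ := (Real.log_le_log_iff (hcrpos q hq) (by positivity)).1 hlog
    obtain ⟨a1, a2, a3, a4, -⟩ := hpr q hq
    have h2 : q.u ≤ M₁ := hv _ hq.2.1
    have h3 : q.w ≤ M₂ := hw _ hq.2.2
    have h4 : q.X * q.Y = cr q * (q.u * q.w) := by
      unfold cr
      rw [div_mul_cancel₀]
      positivity
    have h5 : q.u * q.w ≤ M₁ * M₂ := mul_le_mul h2 h3 a3.le hM₁.le
    have h6 : cr q * (q.u * q.w) ≤ 4 * χ * (M₁ * M₂) :=
      mul_le_mul h1 h5 (by positivity) (by positivity)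
    have h7 : q.X * q.X ≤ q.X * q.Y := mul_le_mul_of_nonneg_left (by linarith) a1.le
    have h8 : q.X ≤ 2 * δ := by
      have : q.X ^ 2 ≤ (2 * δ) ^ 2 := by nlinarith
      exact (sq_le_sq₀ a1.le (by positivity)).1 this
    exact ⟨h1, h2, h3, h8, by linarith⟩
  have hall := hPTH K K' α S hG hK' hH q₀ (Real.log 2) (Real.log (4 * χ)) hq₀.1
    (fun g hg hlog => (hest _ (hact q₀ hq₀ g hg) hlog).2.2.2.2)
    (by
      intro F hF
      have hF' : ∀ q ∈ F, q ∈ Pr S v w ∧ 0 ≤ q.c ∧ q.c < 1 ∧ q.u ≤ M₁ ∧ q.w ≤ M₂ ∧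
          cr q ≤ 4 * χ := by
        intro q hq
        obtain ⟨⟨g, hg, hqe⟩, c1, c2, c3⟩ := hF q hq
        have hqP : q ∈ Pr S v w := by rw [hqe]; exact hact q₀ hq₀ g hg
        obtain ⟨d1, d2, d3, -⟩ := hest q hqP c3
        exact ⟨hqP, c1, c2, d2, d3, d1⟩
      have h1 := hTOT K S Λ v w χ₁ χ₂ χ hP α M₁ M₂ F hα hα1 hM₁ hM₂ (by nlinarith) hF'
      have h2 : (χ * M₁ * M₂) ^ (α / 2) ≤ (δ ^ 2) ^ (α / 2) :=
        Real.rpow_le_rpow (by positivity) hχM (by linarith)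
      have h3 : (χ * M₁ * M₂) ^ (α / 2) ≤ Real.log 2 / (K' * 50000 * C + 1) := h2.trans hδB
      rw [← Finset.mul_sum]
      have h4 : K' * ∑ q ∈ F, cst α q ≤ K' * (50000 * (Real.log 2 / (K' * 50000 * C + 1)) * C) := by
        refine mul_le_mul_of_nonneg_left (h1.trans ?_) hK'
        gcongr
      refine h4.trans ?_
      have h5 : K' * (50000 * (Real.log 2 / (K' * 50000 * C + 1)) * C) =
          (K' * 50000 * C) / (K' * 50000 * C + 1) * Real.log 2 := by ring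
      rw [h5]
      have h6 : (K' * 50000 * C) / (K' * 50000 * C + 1) ≤ 1 := by
        rw [div_le_one (by positivity)]
        linarith
      nlinarith)
    (by
      have h1 : Real.log (cr q₀) ≤ Real.log (2 * χ) := Real.log_le_log (hcrpos q₀ hq₀) hcr₀
      have h2 : Real.log (4 * χ) = Real.log (2 * χ) + Real.log 2 := by
        rw [← Real.log_mul (by positivity) (by norm_num)]
        congr 1
        ring
      linarith)
  obtain ⟨g, hg, hgX⟩ := hmin v w hP.gv hP.gw q₀ hq₀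
  have := (hest _ (hact q₀ hq₀ g hg) (hall g hg)).2.2.2.1
  linarith

end Pool.Agent.Helper59.HX
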