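import Pool.Agent.Helper59.HX.St

/-!
# MP_10ef18_an, module LP2
-/

set_option autoImplicit false

namespace Pool.Agent.Helper59.HX

open Set Pool.Agent.Helper82.HG

namespace LP2

/-- a continuous function of period one is bounded -/
private theorem bdd_of_periodic {h : ℝ → ℝ} (hc : Continuous h) (hp : Function.Periodic h 1) :
    ∃ B : ℝ, ∀ x, |h x| ≤ B := by
  obtain ⟨B, hB⟩ := (isCompact_Icc (a := (0 : ℝ)) (b := 1)).exists_bound_of_continuousOn
    hc.continuousOn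
  refine ⟨B, fun x => ?_⟩
  obtain ⟨y, hy, hxy⟩ := hp.exists_mem_Ico₀ one_pos x
  rw [hxy]
  exact hB y ⟨hy.1, hy.2.le⟩

/-- Lipschitz from a bound of the derivative -/
private theorem lip_of_deriv {f : ℝ → ℝ} (hf : Differentiable ℝ f) {B : ℝ}
    (hB : ∀ x, |deriv f x| ≤ B) (x y : ℝ) : |f x - f y| ≤ B * |x - y| := by
  have := Convex.norm_image_sub_le_of_norm_deriv_le (f := f) (s := univ) (x := y) (y := x)
    (fun z _ => hf z) (fun z _ => hB z) convex_univ (mem_univ _) (mem_univ _)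
  simpa [Real.norm_eq_abs] using this

/-- `H2` is monotone in the constant -/
private theorem H2_mono {K K' α : ℝ} {s : ℝ → ℝ} (h : H2 K α s) (hK : K ≤ K') : H2 K' α s := by
  intro c a b d hq hY
  refine (h c a b d hq hY).trans (mul_le_mul_of_nonneg_right hK ?_)
  unfold cst
  exact mul_nonneg (le_min (abs_nonneg _) (abs_nonneg _)) (Real.rpow_nonneg (abs_nonneg _) _)

/-- the function `F'' / F'` is Hölder -/
private theorem psi_est {g g' : ℝ → ℝ} {B D C α : ℝ} (hB0 : 0 ≤ B) (hD0 : 0 ≤ D)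
    (h0 : ∀ x, g x ≠ 0) (hB : ∀ x, |(g x)⁻¹| ≤ B) (hD : ∀ x, |g' x| ≤ D)
    (hL : ∀ x y, |g x - g y| ≤ D * |x - y|) (hα : 0 < α)
    (hH : ∀ x y, |g' x - g' y| ≤ C * |x - y| ^ α) (x y : ℝ) :
    |g' x / g x - g' y / g y| ≤ (B * |C| + B ^ 2 * D ^ 2 + 2 * (B * D)) * |x - y| ^ (min α 1) := by
  have hα' : 0 < min α 1 := lt_min hα one_pos
  have hq : ∀ z, |g' z / g z| ≤ B * D := by
    intro z
    rw [div_eq_mul_inv, abs_mul, mul_comm B D]
    exact mul_le_mul (hD z) (hB z) (abs_nonneg _) hD0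
  rcases le_total |x - y| 1 with h1 | h1
  · have e : g' x / g x - g' y / g y = (g' x - g' y) * (g x)⁻¹ +
        g' y * ((g y - g x) * ((g x)⁻¹ * (g y)⁻¹)) := by
      field_simp [h0 x, h0 y]
      ring
    have hp1 : |x - y| ^ α ≤ |x - y| ^ (min α 1) := by
      rcases (abs_nonneg (x - y)).eq_or_lt with h2 | h2
      · rw [← h2, Real.zero_rpow hα.ne', Real.zero_rpow hα'.ne']
      · exact Real.rpow_le_rpow_of_exponent_ge h2 h1 (min_le_left _ _)
    have hp2 : |x - y| ≤ |x - y| ^ (min α 1) := by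
      rcases (abs_nonneg (x - y)).eq_or_lt with h2 | h2
      · rw [← h2, Real.zero_rpow hα'.ne']
      · calc |x - y| = |x - y| ^ (1 : ℝ) := (Real.rpow_one _).symm
          _ ≤ _ := Real.rpow_le_rpow_of_exponent_ge h2 h1 (min_le_right _ _)
    have t1 : |(g' x - g' y) * (g x)⁻¹| ≤ B * |C| * |x - y| ^ (min α 1) := by
      rw [abs_mul]
      calc |g' x - g' y| * |(g x)⁻¹| ≤ (|C| * |x - y| ^ (min α 1)) * B := by
            refine mul_le_mul ?_ (hB x) (abs_nonneg _)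
              (mul_nonneg (abs_nonneg _) (Real.rpow_nonneg (abs_nonneg _) _))
            refine (hH x y).trans ?_
            exact mul_le_mul (le_abs_self C) hp1 (Real.rpow_nonneg (abs_nonneg _) _)
              (abs_nonneg _)
        _ = _ := by ring
    have t2 : |g' y * ((g y - g x) * ((g x)⁻¹ * (g y)⁻¹))| ≤
        B ^ 2 * D ^ 2 * |x - y| ^ (min α 1) := by
      rw [abs_mul, abs_mul, abs_mul]
      have u1 : |g y - g x| ≤ D * |x - y| ^ (min α 1) := by
        rw [abs_sub_comm]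
        exact (hL x y).trans (mul_le_mul_of_nonneg_left hp2 hD0)
      calc |g' y| * (|g y - g x| * (|(g x)⁻¹| * |(g y)⁻¹|))
          ≤ D * ((D * |x - y| ^ (min α 1)) * (B * B)) := by
            refine mul_le_mul (hD y) ?_ (by positivity) hD0
            refine mul_le_mul u1 (mul_le_mul (hB x) (hB y) (abs_nonneg _) hB0) (by positivity) ?_
            exact mul_nonneg hD0 (Real.rpow_nonneg (abs_nonneg _) _)
        _ = _ := by ring
    rw [e]
    refine (abs_add_le _ _).trans ?_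
    have t3 : 0 ≤ 2 * (B * D) * |x - y| ^ (min α 1) :=
      mul_nonneg (by positivity) (Real.rpow_nonneg (abs_nonneg _) _)
    nlinarith
  · have h2 : 1 ≤ |x - y| ^ (min α 1) := Real.one_le_rpow h1 hα'.le
    have h3 : |g' x / g x - g' y / g y| ≤ 2 * (B * D) := by
      refine (abs_sub _ _).trans ?_
      linarith [hq x, hq y]
    have h4 : 0 ≤ B * |C| + B ^ 2 * D ^ 2 + 2 * (B * D) := by positivity
    calc |g' x / g x - g' y / g y| ≤ 2 * (B * D) := h3
      _ ≤ B * |C| + B ^ 2 * D ^ 2 + 2 * (B * D) := by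
          have : 0 ≤ B * |C| := by positivity
          have : 0 ≤ B ^ 2 * D ^ 2 := by positivity
          linarith
      _ = (B * |C| + B ^ 2 * D ^ 2 + 2 * (B * D)) * 1 := (mul_one _).symm
      _ ≤ _ := mul_le_mul_of_nonneg_left h2 h4

private theorem one_map (hXB : StXB) (F : Equiv.Perm ℝ) (α C : ℝ) (hα : 0 < α)
    (h2 : ContDiff ℝ 2 (⇑F))
    (h0 : ∀ x, deriv (⇑F) x ≠ 0) (hd : ∃ d : ℝ, (d = 1 ∨ d = -1) ∧ ∀ x : ℝ, F (x + 1) = F x + d)
    (hH : ∀ x y, |deriv (deriv (⇑F)) x - deriv (deriv (⇑F)) y| ≤ C * |x - y| ^ α) :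
    ∃ B : ℝ, 0 ≤ B ∧ (∀ x y, |Real.log (|deriv (⇑F) x|) - Real.log (|deriv (⇑F) y|)| ≤ B * |x - y|) ∧
      (∀ x, |(deriv (⇑F) x)⁻¹| ≤ B) ∧ H2 B (min α 1) (⇑F) := by
  obtain ⟨d, -, hd⟩ := hd
  have hdiff : Differentiable ℝ (⇑F) := h2.differentiable (by norm_num)
  have h1 : ContDiff ℝ 1 (deriv (⇑F)) := by
    have : ContDiff ℝ (1 + 1) (⇑F) := by
      rw [one_add_one_eq_two]
      exact h2
    exact (contDiff_succ_iff_deriv.mp this).2.2
  have hgdiff : Differentiable ℝ (deriv (⇑F)) := h1.differentiable (by norm_num)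
  have hgc : Continuous (deriv (⇑F)) := hgdiff.continuous
  have hg'c : Continuous (deriv (deriv (⇑F))) := h1.continuous_deriv (by norm_num)
  have hper : Function.Periodic (deriv (⇑F)) 1 := by
    intro x
    have e : (fun x => F (x + 1)) = fun x => F x + d := funext hd
    have e1 : deriv (fun x => F (x + 1)) x = deriv (fun x => F x + d) x := by rw [e]
    rw [deriv_comp_add_const, deriv_add_const] at e1
    exact e1
  have hper' : Function.Periodic (deriv (deriv (⇑F))) 1 := by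
    intro x
    have e : (fun x => deriv (⇑F) (x + 1)) = deriv (⇑F) := funext hper
    have e1 : deriv (fun x => deriv (⇑F) (x + 1)) x = deriv (deriv (⇑F)) x := by rw [e]
    rw [deriv_comp_add_const] at e1
    exact e1
  obtain ⟨B1, hB1⟩ := bdd_of_periodic (h := fun x => (deriv (⇑F) x)⁻¹) (hgc.inv₀ h0)
    (fun x => by show (deriv (⇑F) (x + 1))⁻¹ = _; rw [hper x])
  obtain ⟨B2, hB2⟩ := bdd_of_periodic (h := fun x => deriv (deriv (⇑F)) x / deriv (⇑F) x)
    (hg'c.div hgc h0)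
    (fun x => by
      show deriv (deriv (⇑F)) (x + 1) / deriv (⇑F) (x + 1) = _
      rw [hper x, hper' x])
  obtain ⟨B3, hB3⟩ := bdd_of_periodic (h := deriv (deriv (⇑F))) hg'c hper'
  have hB1' : 0 ≤ B1 := (abs_nonneg _).trans (hB1 0)
  have hB2' : 0 ≤ B2 := (abs_nonneg _).trans (hB2 0)
  have hB3' : 0 ≤ B3 := (abs_nonneg _).trans (hB3 0)
  have hL : Differentiable ℝ (fun x => Real.log (deriv (⇑F) x)) := fun x =>
    (hgdiff x).log (h0 x)
  have hL' : ∀ x, deriv (fun x => Real.log (deriv (⇑F) x)) x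
      = deriv (deriv (⇑F)) x / deriv (⇑F) x := by
    intro x
    exact ((hgdiff x).hasDerivAt.log (h0 x)).deriv
  -- the Hölder constant
  obtain ⟨M, hM⟩ : ∃ M : ℝ, M = B2 + (B1 * |C| + B1 ^ 2 * B3 ^ 2 + 2 * (B1 * B3)) := ⟨_, rfl⟩
  have hM0 : 0 ≤ B1 * |C| + B1 ^ 2 * B3 ^ 2 + 2 * (B1 * B3) := by positivity
  obtain ⟨C', hC'0, hC'⟩ := hXB M (min α 1) (by linarith) (lt_min hα one_pos) (min_le_right _ _)
  have hH2 : H2 C' (min α 1) (⇑F) := by
    refine hC' (⇑F) (deriv (⇑F)) (fun x => deriv (deriv (⇑F)) x / deriv (⇑F) x)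
      (fun x => (hdiff x).hasDerivAt) ?_ ?_ ?_ ?_
    · by_contra hcon
      rw [not_or] at hcon
      obtain ⟨h3, h4⟩ := hcon
      push Not at h3 h4
      obtain ⟨x, hx⟩ := h3
      obtain ⟨y, hy⟩ := h4
      obtain ⟨z, hz⟩ := mem_range_of_exists_le_of_exists_ge hgc ⟨x, hx⟩ ⟨y, hy⟩
      exact h0 z hz
    · intro x
      have h3 := (hgdiff x).hasDerivAt.log (h0 x)
      simpa only [Real.log_abs] using h3
    · intro x
      exact (hB2 x).trans (by linarith)
    · intro x y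
      have h3 := psi_est hB1' hB3' h0 hB1 hB3
        (fun x y => lip_of_deriv hgdiff (B := B3) hB3 x y) hα hH x y
      refine h3.trans (mul_le_mul_of_nonneg_right (by linarith)
        (Real.rpow_nonneg (abs_nonneg _) _))
  refine ⟨B1 + B2 + C', by positivity, fun x y => ?_, fun x => (hB1 x).trans (by linarith),
    H2_mono hH2 (by linarith)⟩
  have h3 := lip_of_deriv hL (B := B2) (fun x => by rw [hL' x]; exact hB2 x) x y
  rw [Real.log_abs, Real.log_abs]
  refine h3.trans ?_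
  apply mul_le_mul_of_nonneg_right _ (abs_nonneg _)
  linarith

private theorem ap_inv (F : Equiv.Perm ℝ) (x : ℝ) : F (F⁻¹ x) = x := F.apply_symm_apply x

private theorem nice_map (hXB : StXB) (hXRI : StXRI) (F : Equiv.Perm ℝ) (α C : ℝ) (hα : 0 < α)
    (h2 : ContDiff ℝ 2 (⇑F))
    (h0 : ∀ x, deriv (⇑F) x ≠ 0) (hd : ∃ d : ℝ, (d = 1 ∨ d = -1) ∧ ∀ x : ℝ, F (x + 1) = F x + d)
    (hH : ∀ x y, |deriv (deriv (⇑F)) x - deriv (deriv (⇑F)) y| ≤ C * |x - y| ^ α) :
    ∃ K : ℝ, 0 ≤ K ∧ ∀ K' : ℝ, K ≤ K' → Nice K' F ∧ Nice K' F⁻¹ ∧ H2 K' (min α 1) (⇑F) ∧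
      H2 K' (min α 1) (⇑F⁻¹) := by
  obtain ⟨B, hB0, hB, hBi, hBH⟩ := one_map hXB F α C hα h2 h0 hd hH
  have hdiff : Differentiable ℝ (⇑F) := h2.differentiable (by norm_num)
  have hstr : ∀ x, HasStrictDerivAt (⇑F) (deriv (⇑F) x) x := fun x =>
    h2.contDiffAt.hasStrictDerivAt (by norm_num)
  have hopen : IsOpenMap (⇑F) := isOpenMap_of_hasStrictDerivAt hstr h0
  have hcont : Continuous (⇑F⁻¹) := F.continuous_symm_iff.mpr hopen
  have hinv : ∀ x, HasDerivAt (⇑F⁻¹) (deriv (⇑F) (F⁻¹ x))⁻¹ x := by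
    intro x
    apply HasDerivAt.of_local_left_inverse hcont.continuousAt (hdiff _).hasDerivAt (h0 _)
    filter_upwards with y
    exact F.apply_symm_apply y
  have hinvd : ∀ x, deriv (⇑F⁻¹) x = (deriv (⇑F) (F⁻¹ x))⁻¹ := fun x => (hinv x).deriv
  have hLi := lip_of_deriv (f := ⇑F⁻¹) (fun x => (hinv x).differentiableAt) (B := B)
    (fun x => by rw [hinvd x]; exact hBi _)
  have hnB : Nice B F := ⟨hdiff, h0, hB, hd⟩
  have hI := hXRI B B (min α 1) F hB0 hB0 (lt_min hα one_pos) (min_le_right _ _) hnB hBH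
  have hE : 0 ≤ B * Real.exp (2 * B) := mul_nonneg hB0 (Real.exp_pos _).le
  refine ⟨B + B * B + B * Real.exp (2 * B), by positivity, fun K' hK' => ⟨⟨hdiff, h0, ?_, hd⟩,
    ⟨fun x => (hinv x).differentiableAt, ?_, ?_, ?_⟩, H2_mono hBH (by nlinarith),
      H2_mono hI (by nlinarith)⟩⟩
  · intro x y
    refine (hB x y).trans (mul_le_mul_of_nonneg_right ?_ (abs_nonneg _))
    nlinarith
  · intro x
    rw [hinvd x]
    exact inv_ne_zero (h0 _)
  · intro x y
    rw [hinvd x, hinvd y, abs_inv, abs_inv, Real.log_inv, Real.log_inv]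
    have h1 : ∀ a b : ℝ, |-a - -b| = |a - b| := by
      intro a b
      rw [← abs_neg]
      congr 1
      ring
    rw [h1]
    refine (hB _ _).trans ?_
    calc B * |F⁻¹ x - F⁻¹ y| ≤ B * (B * |x - y|) := mul_le_mul_of_nonneg_left (hLi x y) hB0
      _ = (B * B) * |x - y| := by ring
      _ ≤ K' * |x - y| := mul_le_mul_of_nonneg_right (by linarith) (abs_nonneg _)
  · obtain ⟨d, hd1, hd⟩ := hd
    refine ⟨d, hd1, fun x => ?_⟩
    rcases hd1 with rfl | rfl
    · apply F.injective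
      rw [hd, ap_inv, ap_inv]
    · have h3 := hd (F⁻¹ x - 1)
      rw [sub_add_cancel, ap_inv] at h3
      apply F.injective
      rw [ap_inv, ← sub_eq_add_neg]
      linarith

end LP2

theorem tLP2 : StXB → StXRI → StLP2 := by
  intro hXB hXRI n F α C hα h2 h0 hd hH
  choose K hK0 hK using fun i =>
    LP2.nice_map hXB hXRI (F i) α C hα (h2 i) (h0 i) (hd i) (hH i)
  have hle : ∀ i, K i ≤ 1 + ∑ i, K i := by
    intro i
    have := Finset.single_le_sum (f := K) (fun i _ => hK0 i) (Finset.mem_univ i)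
    linarith
  refine ⟨1 + ∑ i, K i, {s | ∃ i, s = F i ∨ s = (F i)⁻¹}, ?_, ⟨?_, ?_⟩, ?_, ?_⟩
  · have := Finset.sum_nonneg (s := Finset.univ) (f := K) (fun i _ => hK0 i)
    linarith
  · rintro s ⟨i, rfl | rfl⟩
    · exact (hK i _ (hle i)).1
    · exact (hK i _ (hle i)).2.1
  · rintro s ⟨i, rfl | rfl⟩
    · exact ⟨i, Or.inr rfl⟩
    · exact ⟨i, Or.inl (inv_inv _)⟩
  · rintro s ⟨i, rfl | rfl⟩
    · exact (hK i _ (hle i)).2.2.1
    · exact (hK i _ (hle i)).2.2.2
  · apply le_antisymm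
    · unfold Gr
      rw [Subgroup.closure_le]
      rintro s (rfl | ⟨i, rfl | rfl⟩)
      · exact Subgroup.subset_closure (Or.inl rfl)
      · exact Subgroup.subset_closure (Or.inr ⟨i, rfl⟩)
      · exact Subgroup.inv_mem _ (Subgroup.subset_closure (Or.inr ⟨i, rfl⟩))
    · rw [Subgroup.closure_le]
      rintro s (rfl | ⟨i, rfl⟩)
      · exact Subgroup.subset_closure (Or.inl rfl)
      · exact Subgroup.subset_closure (Or.inr ⟨i, Or.inl rfl⟩)

end Pool.Agent.Helper59.HX
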