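import Pool.Agent.Helper59.HX.St

/-!
# MP_10ef18_an (Hector), module MIN: some translate of every quadruple is macroscopic
-/

set_option autoImplicit false

namespace Pool.Agent.Helper59.HX

open Set Pool.Agent.Helper82.HG

namespace MIN

/-- to the right of a right end point of a gap there are points of `Λ` -/
private theorem right_pt {Λ : Set ℝ}
    (hc : ∀ x ∈ Λ, ∀ ε > 0, ∃ y ∈ Λ, y ≠ x ∧ |y - x| < ε) {x p r : ℝ} (hg : Gap Λ x p)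
    (hr : p < r) : ∃ y ∈ Λ, p < y ∧ y < r := by
  obtain ⟨hxp, hx, hp, he⟩ := hg
  obtain ⟨y, hy, hne, hlt⟩ := hc p hp (min (p - x) (r - p)) (lt_min (by linarith) (by linarith))
  have h1 := lt_of_lt_of_le hlt (min_le_left _ _)
  have h2 := lt_of_lt_of_le hlt (min_le_right _ _)
  rw [abs_lt] at h1 h2
  refine ⟨y, hy, ?_, by linarith⟩
  rcases lt_or_gt_of_ne hne with h | h
  · exfalso
    have : y ∈ Ioo x p ∩ Λ := ⟨⟨by linarith, h⟩, hy⟩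
    rw [he] at this
    exact this
  · exact h

private theorem main_step {K : ℝ} {S : Set (Equiv.Perm ℝ)} {Λ : Set ℝ}
    (hB : StBAS) (hL : StLAM) (hG : Gens K S) (hΛ : Lam S Λ) {x₀ y₀ : ℝ} (h0 : Gap Λ x₀ y₀)
    {z p r : ℝ} (hz : Gap Λ z p) (hr : r ∈ Λ) (hpr : p < r) :
    ∃ g ∈ Gr S, y₀ - x₀ ≤ |g r - g p| := by
  obtain ⟨hinv, -, hc, hd, -, -, hgap, -⟩ := hL K S Λ hG hΛ
  obtain ⟨y, hy, hpy, hyr⟩ := right_pt hc hz hpr
  obtain ⟨g, hg, hgx⟩ := hd x₀ h0.2.1 (Ioo p r) isOpen_Ioo ⟨y, ⟨hpy, hyr⟩, hy⟩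
  obtain ⟨-, -, -, he⟩ := hgap x₀ y₀ h0 g hg
  have hp : p ∈ Λ := hz.2.2.1
  have h1 : g y₀ ≤ r := by
    by_contra hcon
    push Not at hcon
    have : r ∈ Ioo (min (g x₀) (g y₀)) (max (g x₀) (g y₀)) ∩ Λ :=
      ⟨⟨lt_of_le_of_lt (min_le_left _ _) hgx.2, lt_of_lt_of_le hcon (le_max_right _ _)⟩, hr⟩
    rw [he] at this
    exact this
  have h2 : p ≤ g y₀ := by
    by_contra hcon
    push Not at hcon
    have : p ∈ Ioo (min (g x₀) (g y₀)) (max (g x₀) (g y₀)) ∩ Λ :=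
      ⟨⟨lt_of_le_of_lt (min_le_right _ _) hcon, lt_of_lt_of_le hgx.1 (le_max_left _ _)⟩, hp⟩
    rw [he] at this
    exact this
  refine ⟨g⁻¹, inv_mem hg, ?_⟩
  have ex : g⁻¹ (g x₀) = x₀ := by simp
  have ey : g⁻¹ (g y₀) = y₀ := by simp
  obtain ⟨-, -, hm, -⟩ := hB K S hG g⁻¹ (inv_mem hg)
  rcases hm with hm | hm
  · have a1 := hm.monotone h1
    have a4 := hm.monotone hgx.1.le
    rw [ey] at a1
    rw [ex] at a4
    have := le_abs_self (g⁻¹ r - g⁻¹ p)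
    linarith
  · have a2 := hm.antitone h2
    have a3 := hm.antitone hgx.2.le
    rw [ey] at a2
    rw [ex] at a3
    have := neg_abs_le (g⁻¹ r - g⁻¹ p)
    linarith

end MIN

theorem tMIN : StBAS → StLAM → StPRB → StMIN := by
  intro hB hL hP K S Λ hG hΛ
  have hL' := hL K S Λ hG hΛ
  obtain ⟨-, -, -, -, he, -, -, -⟩ := hL'
  obtain ⟨z, hz⟩ := (Set.ne_univ_iff_exists_notMem Λ).1 hΛ.neuniv
  obtain ⟨x₀, y₀, h0, -, -⟩ := he z hz
  refine ⟨y₀ - x₀, by linarith [h0.1], ?_⟩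
  intro v w hv hw q hq
  obtain ⟨-, -, h3⟩ := hP K S Λ v w hG hΛ hv hw
  obtain ⟨-, -, -, -, -, -, -, -, g1, g2⟩ := h3 q hq
  rcases hq.1 with ⟨o1, o2, o3⟩ | ⟨o1, o2, o3⟩
  · rw [min_eq_left o1.le, max_eq_right o1.le] at g1
    rw [min_eq_left o3.le, max_eq_right o3.le] at g2
    obtain ⟨g, hg, h⟩ := MIN.main_step hB hL hG hΛ h0 g1 g2.2.1 o2
    exact ⟨g, hg, h⟩
  · rw [min_eq_right o3.le, max_eq_left o3.le] at g1
    rw [min_eq_right o1.le, max_eq_left o1.le] at g2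
    obtain ⟨g, hg, h⟩ := MIN.main_step hB hL hG hΛ h0 g2 g1.2.1 o2
    refine ⟨g, hg, ?_⟩
    rw [abs_sub_comm] at h
    exact h

end Pool.Agent.Helper59.HX
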