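import Pool.Agent.Helper59.HX.St

/-!
# MP_10ef18_an (Hector), module OGB: basic properties of the orbit of a gap
-/

set_option autoImplicit false

namespace Pool.Agent.Helper59.HX

open Set Pool.Agent.Helper82.HG

namespace OGB

private theorem T_apply' (x : ℝ) : T x = x + 1 := rfl

private theorem T_zpow' (m : ℤ) : ∀ x : ℝ, (T ^ m) x = x + m := by
  have hnat : ∀ (n : ℕ) (x : ℝ), (T ^ n) x = x + n := by
    intro n
    induction n with
    | zero => intro x; simp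
    | succ n ih =>
      intro x
      rw [pow_succ', Equiv.Perm.mul_apply, ih, T_apply']
      push_cast
      ring
  intro x
  cases m with
  | ofNat n => simpa using hnat n x
  | negSucc n =>
    rw [zpow_negSucc]
    rw [Equiv.Perm.inv_eq_iff_eq]
    rw [hnat]
    push_cast
    ring

private theorem T_mem {S : Set (Equiv.Perm ℝ)} (m : ℤ) : T ^ m ∈ Gr S :=
  zpow_mem (Subgroup.subset_closure (Set.mem_insert _ _)) m

private theorem act_mul (g h : Equiv.Perm ℝ) (v : ℝ × ℝ) : act (g * h) v = act g (act h v) := rfl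

private theorem OG_act {S : Set (Equiv.Perm ℝ)} {v u : ℝ × ℝ} (hu : u ∈ OG S v)
    {g : Equiv.Perm ℝ} (hg : g ∈ Gr S) : act g u ∈ OG S v := by
  obtain ⟨h, hh, h1⟩ := hu
  refine ⟨g * h, mul_mem hg hh, ?_⟩
  rcases h1 with rfl | rfl
  · exact Or.inl rfl
  · exact Or.inr rfl

private theorem OG_swap {S : Set (Equiv.Perm ℝ)} {v u : ℝ × ℝ} (hu : u ∈ OG S v) :
    (u.2, u.1) ∈ OG S v := by
  obtain ⟨h, hh, h1⟩ := hu
  refine ⟨h, hh, ?_⟩
  rcases h1 with rfl | rfl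
  · exact Or.inr rfl
  · exact Or.inl rfl

private theorem tot_of_orb {S : Set (Equiv.Perm ℝ)} {v w : ℝ × ℝ} {Θ : ℝ} (h : Tot S v Θ)
    (hw : w ∈ Orb S v) : Tot S w Θ := by
  intro s h1 h2
  apply h s _ h2
  intro u hu
  obtain ⟨g, hg, rfl⟩ := h1 u hu
  obtain ⟨k, hk, rfl⟩ := hw
  exact ⟨g * k, mul_mem hg hk, rfl⟩

private theorem tot_swap {S : Set (Equiv.Perm ℝ)} {v : ℝ × ℝ} {Θ : ℝ} (h : Tot S v Θ) :
    Tot S (v.2, v.1) Θ := by
  classical
  intro s h1 h2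
  have h3 : ∑ u ∈ s, len u = ∑ u ∈ s.image Prod.swap, len u := by
    rw [Finset.sum_image (fun x _ y _ hxy => Prod.swap_injective hxy)]
    apply Finset.sum_congr rfl
    intro u _
    unfold len
    rw [abs_sub_comm]
    rfl
  rw [h3]
  apply h
  · intro u hu
    obtain ⟨w, hw, rfl⟩ := Finset.mem_image.1 hu
    obtain ⟨g, hg, rfl⟩ := h1 w hw
    exact ⟨g, hg, rfl⟩
  · intro u hu w hw he
    obtain ⟨u', hu', rfl⟩ := Finset.mem_image.1 hu
    obtain ⟨w', hw', rfl⟩ := Finset.mem_image.1 hw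
    obtain ⟨m, h4, h5⟩ := he
    rw [h2 u' hu' w' hw' ⟨m, h5, h4⟩]

private theorem OG_gap {K : ℝ} {S : Set (Equiv.Perm ℝ)} {Λ : Set ℝ} (hL : StLAM) (hG : Gens K S)
    (hΛ : Lam S Λ) {v u : ℝ × ℝ} (hv : Gap Λ v.1 v.2) (hu : u ∈ OG S v) :
    Gap Λ (min u.1 u.2) (max u.1 u.2) := by
  obtain ⟨-, -, -, -, -, -, l7, -⟩ := hL K S Λ hG hΛ
  obtain ⟨g, hg, rfl | rfl⟩ := hu
  · exact l7 _ _ hv g hg
  · have := l7 _ _ hv g hg
    change Gap Λ (min (g v.2) (g v.1)) (max (g v.2) (g v.1))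
    rw [min_comm, max_comm]
    exact this

end OGB

open OGB

/-- MODULE OGB. -/
theorem tOGB : StBAS → StLAM → StOGB := by
  intro _ hL K S Λ v hG hΛ hv
  obtain ⟨-, -, -, -, -, l6, -, -⟩ := hL K S Λ hG hΛ
  refine ⟨⟨1, one_mem _, Or.inl rfl⟩, fun u hu => OG_swap hu, fun u hu g hg => OG_act hu hg, ?_,
    ?_, ?_⟩
  · intro u hu
    have h1 := OG_gap hL hG hΛ hv hu
    have h2 := l6 _ _ h1
    have h3 : max u.1 u.2 - min u.1 u.2 = |u.2 - u.1| := by
      rw [max_sub_min_eq_abs]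
    refine ⟨h1, by rw [← h3]; exact h2, ?_⟩
    intro h
    have h4 := h1.1
    rw [h, min_self, max_self] at h4
    exact lt_irrefl _ h4
  · intro u hu m
    have := OG_act hu (T_mem (S := S) m)
    rwa [act, T_zpow', T_zpow'] at this
  · intro u hu Θ hT
    obtain ⟨g, hg, rfl | rfl⟩ := hu
    · exact tot_of_orb hT ⟨g, hg, rfl⟩
    · exact tot_of_orb (tot_swap hT) ⟨g, hg, rfl⟩

end Pool.Agent.Helper59.HX
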