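import Pool.Agent.Helper59.HX.St

/-!
# MP_10ef18_an, module PRB: basic properties of quadruples
-/

set_option autoImplicit false

namespace Pool.Agent.Helper59.HX

open Set Pool.Agent.Helper82.HG

namespace PRB

private theorem ord_qact {g : Equiv.Perm ℝ} (hg : StrictMono g ∨ StrictAnti g) {q : Qd}
    (hq : q.ord) : (qact g q).ord := by
  rcases hg with hg | hg
  · rcases hq with ⟨h1, h2, h3⟩ | ⟨h1, h2, h3⟩
    · exact Or.inl ⟨hg h1, hg h2, hg h3⟩
    · exact Or.inr ⟨hg h1, hg h2, hg h3⟩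
  · rcases hq with ⟨h1, h2, h3⟩ | ⟨h1, h2, h3⟩
    · exact Or.inr ⟨hg h3, hg h2, hg h1⟩
    · exact Or.inl ⟨hg h3, hg h2, hg h1⟩

private theorem ord_fac {q : Qd} (hq : q.ord) : 0 < q.X ∧ 0 < q.u ∧ 0 < q.w ∧
    q.Y = q.X + q.u + q.w ∧ |q.b - q.c| = q.X + q.u ∧ |q.d - q.a| = q.X + q.w := by
  unfold Qd.X Qd.u Qd.w Qd.Y
  rcases hq with ⟨h1, h2, h3⟩ | ⟨h1, h2, h3⟩
  · rw [abs_of_pos (by linarith : 0 < q.b - q.a), abs_of_pos (by linarith : 0 < q.a - q.c),
      abs_of_pos (by linarith : 0 < q.d - q.b), abs_of_pos (by linarith : 0 < q.d - q.c),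
      abs_of_pos (by linarith : 0 < q.b - q.c), abs_of_pos (by linarith : 0 < q.d - q.a)]
    refine ⟨by linarith, by linarith, by linarith, by ring, by ring, by ring⟩
  · rw [abs_of_neg (by linarith : q.b - q.a < 0), abs_of_neg (by linarith : q.a - q.c < 0),
      abs_of_neg (by linarith : q.d - q.b < 0), abs_of_neg (by linarith : q.d - q.c < 0),
      abs_of_neg (by linarith : q.b - q.c < 0), abs_of_neg (by linarith : q.d - q.a < 0)]
    refine ⟨by linarith, by linarith, by linarith, by ring, by ring, by ring⟩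

end PRB

theorem tPRB : StBAS → StLAM → StOGB → StPRB := by
  intro hBAS hLAM hOGB K S Λ v w hG hL hv hw
  obtain ⟨-, -, hactv, hgapv, -, -⟩ := hOGB K S Λ v hG hL hv
  obtain ⟨-, -, hactw, hgapw, -, -⟩ := hOGB K S Λ w hG hL hw
  refine ⟨?_, ?_, ?_⟩
  · intro q hq g hg
    obtain ⟨h1, h2, h3⟩ := hq
    exact ⟨PRB.ord_qact (hBAS K S hG g hg).2.2.1 h1, hactv _ h2 g hg, hactw _ h3 g hg⟩
  · intro u hu u' hu' h1 h2 hne hle
    have g1 := (hgapv u hu).1
    have g2 := (hgapw u' hu').1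
    rw [min_eq_left h1.le, max_eq_right h1.le] at g1
    rw [min_eq_left h2.le, max_eq_right h2.le] at g2
    have hsep : u.2 < u'.1 := by
      rcases (hLAM K S Λ hG hL).2.2.2.2.2.2.2 u.1 u.2 u'.1 u'.2 g1 g2 hne with h | h
      · exact h
      · linarith
    exact ⟨hsep, Or.inl ⟨h1, hsep, h2⟩, hu, hu'⟩
  · intro q hq
    obtain ⟨h1, h2, h3⟩ := hq
    obtain ⟨e1, e2, e3, e4, e5, e6⟩ := PRB.ord_fac h1
    exact ⟨e1, e2, e3, e4, e5, e6, (hgapv _ h2).2.1, (hgapw _ h3).2.1, (hgapv _ h2).1,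
      (hgapw _ h3).1⟩

end Pool.Agent.Helper59.HX
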