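import Pool.Agent.Helper59.HX.St

/-!
# MP_10ef18_an (Hector), module PTH: control of the cross ratio along all words
-/

set_option autoImplicit false

namespace Pool.Agent.Helper59.HX

open Set Pool.Agent.Helper82.HG

namespace PTH

private theorem T_mem (S : Set (Equiv.Perm ℝ)) : T ∈ Gr S :=
  Subgroup.subset_closure (Or.inl rfl)

private theorem T_zpow (k : ℤ) (x : ℝ) : (T ^ k : Equiv.Perm ℝ) x = x + k := by
  induction k using Int.induction_on generalizing x with
  | zero => simp
  | succ i ih =>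
    rw [zpow_add_one, Equiv.Perm.mul_apply, ih]
    show x + 1 + _ = _
    push_cast
    ring
  | pred i ih =>
    rw [zpow_sub_one, Equiv.Perm.mul_apply, ih]
    show x + -1 + _ = _
    push_cast
    ring

/-- translation of a quadruple -/
private noncomputable def trq (m : ℤ) (q : Qd) : Qd := ⟨q.c + m, q.a + m, q.b + m, q.d + m⟩

/-- normalised quadruple -/
private noncomputable def nrm (q : Qd) : Qd := trq (-⌊q.c⌋) q

private theorem trq_eq (m : ℤ) (q : Qd) : trq m q = qact (T ^ m) q := by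
  unfold trq qact
  rw [T_zpow, T_zpow, T_zpow, T_zpow]

private theorem qact_mul (g h : Equiv.Perm ℝ) (q : Qd) : qact (g * h) q = qact g (qact h q) := rfl

private theorem cr_trq (m : ℤ) (q : Qd) : cr (trq m q) = cr q := by
  unfold cr Qd.X Qd.Y Qd.u Qd.w trq
  simp only [add_sub_add_right_eq_sub]

private theorem cr_nrm (q : Qd) : cr (nrm q) = cr q := cr_trq _ _

private theorem nrm_nonneg (q : Qd) : 0 ≤ (nrm q).c := by
  have := Int.floor_le q.c
  unfold nrm trq
  push_cast
  linarith

private theorem nrm_lt (q : Qd) : (nrm q).c < 1 := by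
  have := Int.lt_floor_add_one q.c
  unfold nrm trq
  push_cast
  linarith

private theorem nrm_trq (m : ℤ) (q : Qd) : nrm (trq m q) = nrm q := by
  have h : ⌊(trq m q).c⌋ = ⌊q.c⌋ + m := by
    unfold trq
    exact Int.floor_add_intCast q.c m
  unfold nrm
  rw [h]
  unfold trq
  ext <;> simp only <;> push_cast <;> ring

private theorem shift (s : ℝ → ℝ) (d : ℝ) (h : ∀ x, s (x + 1) = s x + d) (m : ℤ) :
    ∀ x, s (x + m) = s x + m * d := by
  induction m using Int.induction_on with
  | zero => intro x; simp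
  | succ i ih =>
    intro x
    have := h (x + (i : ℤ))
    rw [ih] at this
    push_cast at this ⊢
    rw [← add_assoc, this]
    ring
  | pred i ih =>
    intro x
    have h1 := h (x + ((-(i : ℤ) - 1 : ℤ) : ℝ))
    have h2 := ih x
    have e : x + ((-(i : ℤ) - 1 : ℤ) : ℝ) + 1 = x + ((-(i : ℤ) : ℤ) : ℝ) := by
      push_cast
      ring
    rw [e, h2] at h1
    push_cast at h1 ⊢
    linarith

private theorem nrm_step {K : ℝ} {S : Set (Equiv.Perm ℝ)} (hG : Gens K S) {s : Equiv.Perm ℝ}
    (hs : s ∈ S) (m : ℤ) (q : Qd) : nrm (qact s (trq m q)) = nrm (qact s q) := by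
  obtain ⟨d, hd, h⟩ := (hG.nice s hs).deg
  obtain ⟨e, he⟩ : ∃ e : ℤ, (m : ℝ) * d = e := by
    rcases hd with rfl | rfl
    · exact ⟨m, by ring⟩
    · exact ⟨-m, by push_cast; ring⟩
  have h1 : qact s (trq m q) = trq e (qact s q) := by
    unfold qact trq
    simp only [shift _ _ h m, he]
  rw [h1, nrm_trq]

private theorem ord_qact {g : Equiv.Perm ℝ} (hg : StrictMono g ∨ StrictAnti g) {q : Qd}
    (hq : q.ord) : (qact g q).ord := by
  unfold Qd.ord qact
  rcases hg with hg | hg
  · rcases hq with ⟨h1, h2, h3⟩ | ⟨h1, h2, h3⟩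
    · exact Or.inl ⟨hg h1, hg h2, hg h3⟩
    · exact Or.inr ⟨hg h1, hg h2, hg h3⟩
  · rcases hq with ⟨h1, h2, h3⟩ | ⟨h1, h2, h3⟩
    · exact Or.inr ⟨hg h3, hg h2, hg h1⟩
    · exact Or.inl ⟨hg h3, hg h2, hg h1⟩

private theorem cst_nonneg (α : ℝ) (q : Qd) : 0 ≤ cst α q := by
  unfold cst
  exact mul_nonneg (le_min (abs_nonneg _) (abs_nonneg _)) (Real.rpow_nonneg (abs_nonneg _) _)

end PTH

open PTH

/-- MODULE PTH. -/
theorem tPTH : StBAS → StABS → StPTH := by
  intro hB hA K K' α S hG hK' hS q₀ η L hq₀ hY hF hL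
  set R : Qd → Qd → Prop :=
    fun q q' => (∃ g ∈ Gr S, q = qact g q₀) ∧ ∃ s ∈ S, q' = nrm (qact s q) with hR
  have hreach : ∀ x, Relation.ReflTransGen R (nrm q₀) x →
      (∃ g ∈ Gr S, x = qact g q₀) ∧ 0 ≤ x.c ∧ x.c < 1 := by
    intro x hx
    induction hx with
    | refl =>
      refine ⟨⟨T ^ (-⌊q₀.c⌋), zpow_mem (T_mem S) _, ?_⟩, nrm_nonneg _, nrm_lt _⟩
      unfold nrm
      rw [trq_eq]
    | tail _ h _ =>
      obtain ⟨⟨g, hg, rfl⟩, s, hs, rfl⟩ := h
      refine ⟨⟨T ^ (-⌊(qact s (qact g q₀)).c⌋) * (s * g), mul_mem (zpow_mem (T_mem S) _)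
        (mul_mem (Subgroup.subset_closure (Or.inr hs)) hg), ?_⟩, nrm_nonneg _, nrm_lt _⟩
      unfold nrm
      rw [trq_eq, qact_mul, qact_mul]
  have key := hA Qd R (fun q => Real.log (cr q)) (fun q => K' * cst α q) η L (nrm q₀)
    (fun x => mul_nonneg hK' (cst_nonneg α x))
    (by
      rintro x y ⟨⟨g, hg, rfl⟩, s, hs, rfl⟩ hV
      have h1 := hY g hg hV
      have h2 := ord_qact (hB K S hG g hg).2.2.1 hq₀
      have h3 := hS s hs _ _ _ _ h2 h1
      have h4 := (abs_le.1 h3).2
      rw [cr_nrm]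
      change Real.log (cr (qact s (qact g q₀))) - Real.log (cr (qact g q₀)) ≤
        K' * cst α (qact g q₀) at h4
      linarith)
    (by
      intro F hFx
      apply hF
      intro q hq
      obtain ⟨h1, h2⟩ := hFx q hq
      obtain ⟨h3, h4, h5⟩ := hreach q h1
      exact ⟨h3, h4, h5, h2⟩)
    (by
      simp only [cr_nrm]
      exact hL)
  have hall : ∀ g ∈ Gr S, Relation.ReflTransGen R (nrm q₀) (nrm (qact g q₀)) := by
    intro g hg
    have hT1 : ∀ (m : ℤ) (h : Equiv.Perm ℝ), nrm (qact (T ^ m * h) q₀) = nrm (qact h q₀) := by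
      intro m h
      rw [qact_mul, ← trq_eq, nrm_trq]
    have hs1 : ∀ s ∈ S, ∀ h ∈ Gr S, Relation.ReflTransGen R (nrm q₀) (nrm (qact h q₀)) →
        Relation.ReflTransGen R (nrm q₀) (nrm (qact (s * h) q₀)) := by
      intro s hs h hh ih
      refine ih.tail ⟨(hreach _ ih).1, s, hs, ?_⟩
      rw [qact_mul]
      unfold nrm
      exact (nrm_step hG hs _ _).symm
    unfold Gr at hg
    induction hg using Subgroup.closure_induction_left with
    | one => exact Relation.ReflTransGen.refl
    | mul_left s hs h hh ih =>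
      rcases hs with rfl | hs
      · have := hT1 1 h
        rw [zpow_one] at this
        rw [this]
        exact ih
      · exact hs1 s hs h hh ih
    | inv_mul_cancel s hs h hh ih =>
      rcases hs with rfl | hs
      · have := hT1 (-1) h
        rw [zpow_neg_one] at this
        rw [this]
        exact ih
      · exact hs1 _ (hG.inv s hs) h hh ih
  intro g hg
  have := key _ (hall g hg)
  simp only [cr_nrm] at this
  exact this

end Pool.Agent.Helper59.HX
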