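import Pool.Agent.Helper59.HX.St

/-!
# MP_10ef18_an, module SEL: infinitely many orbits of gaps give two nearly maximal gaps close to
each other.
-/

set_option autoImplicit false

namespace Pool.Agent.Helper59.HX

open Set Pool.Agent.Helper82.HG

namespace SEL

/-- related intervals -/
private def Rel (S : Set (Equiv.Perm ℝ)) (p q : ℝ × ℝ) : Prop :=
  ∃ g ∈ Gr S, ⇑g '' Ioo p.1 p.2 = Ioo q.1 q.2

private theorem Rel.refl (S : Set (Equiv.Perm ℝ)) (p : ℝ × ℝ) : Rel S p p :=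
  ⟨1, one_mem _, by simp⟩

private theorem Rel.symm {S : Set (Equiv.Perm ℝ)} {p q : ℝ × ℝ} (h : Rel S p q) : Rel S q p := by
  obtain ⟨g, hg, he⟩ := h
  refine ⟨g⁻¹, inv_mem hg, ?_⟩
  rw [← he, ← Set.image_comp]
  have : (⇑g⁻¹ ∘ ⇑g) = id := by
    funext x
    simp
  rw [this, Set.image_id]

private theorem Rel.trans {S : Set (Equiv.Perm ℝ)} {p q r : ℝ × ℝ} (h : Rel S p q)
    (h' : Rel S q r) : Rel S p r := by
  obtain ⟨g, hg, he⟩ := h
  obtain ⟨g', hg', he'⟩ := h'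
  refine ⟨g' * g, mul_mem hg' hg, ?_⟩
  rw [← he', ← he, ← Set.image_comp]
  rfl

private theorem T_mem (S : Set (Equiv.Perm ℝ)) : T ∈ Gr S :=
  Subgroup.subset_closure (mem_insert _ _)

private theorem eqv_eq {u w : ℝ × ℝ} (hu : 0 ≤ u.1 ∧ u.1 < 1) (hw : 0 ≤ w.1 ∧ w.1 < 1)
    (h : Eqv u w) : u = w := by
  obtain ⟨m, h1, h2⟩ := h
  have hm1 : (m : ℝ) < 1 := by linarith [hu.1, hw.2]
  have hm2 : (-1 : ℝ) < m := by linarith [hu.2, hw.1]
  have hm3 : m < 1 := by exact_mod_cast hm1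
  have hm4 : -1 < m := by exact_mod_cast hm2
  have hm : m = 0 := by omega
  subst hm
  simp only [Int.cast_zero, add_zero] at h1 h2
  exact Prod.ext h1.symm h2.symm

private theorem image_mono (g : Equiv.Perm ℝ) (hg : StrictMono g) (a b : ℝ) :
    ⇑g '' Ioo a b = Ioo (g a) (g b) := by
  ext y
  constructor
  · rintro ⟨x, ⟨h1, h2⟩, rfl⟩
    exact ⟨hg h1, hg h2⟩
  · rintro ⟨h1, h2⟩
    refine ⟨g.symm y, ⟨?_, ?_⟩, by simp⟩
    · apply hg.lt_iff_lt.1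
      simpa using h1
    · apply hg.lt_iff_lt.1
      simpa using h2

private theorem image_anti (g : Equiv.Perm ℝ) (hg : StrictAnti g) (a b : ℝ) :
    ⇑g '' Ioo a b = Ioo (g b) (g a) := by
  ext y
  constructor
  · rintro ⟨x, ⟨h1, h2⟩, rfl⟩
    exact ⟨hg h2, hg h1⟩
  · rintro ⟨h1, h2⟩
    refine ⟨g.symm y, ⟨?_, ?_⟩, by simp⟩
    · apply hg.lt_iff_gt.1
      simpa using h2
    · apply hg.lt_iff_gt.1
      simpa using h1

private theorem Ioo_inj {a b c d : ℝ} (hab : a < b) (hcd : c < d) (h : Ioo a b = Ioo c d) :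
    a = c ∧ b = d := by
  have h1 : sInf (Ioo a b) = sInf (Ioo c d) := by rw [h]
  have h2 : sSup (Ioo a b) = sSup (Ioo c d) := by rw [h]
  rw [csInf_Ioo hab, csInf_Ioo hcd] at h1
  rw [csSup_Ioo hab, csSup_Ioo hcd] at h2
  exact ⟨h1, h2⟩

/-- from the image of intervals to the orbit of pairs -/
private theorem rel_OG {K : ℝ} {S : Set (Equiv.Perm ℝ)} (hBAS : StBAS) (hG : Gens K S)
    {p q : ℝ × ℝ} (hp : p.1 < p.2) (hq : q.1 < q.2) (h : Rel S p q) : q ∈ OG S p := by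
  obtain ⟨g, hg, he⟩ := h
  refine ⟨g, hg, ?_⟩
  rcases (hBAS K S hG g hg).2.2.1 with hm | ha
  · rw [image_mono g hm] at he
    obtain ⟨h1, h2⟩ := Ioo_inj (hm hp) hq he
    left
    exact Prod.ext h1.symm h2.symm
  · rw [image_anti g ha] at he
    obtain ⟨h1, h2⟩ := Ioo_inj (ha hp) hq he
    right
    exact Prod.ext h1.symm h2.symm

/-- from the orbit of pairs to the image of intervals -/
private theorem OG_rel {K : ℝ} {S : Set (Equiv.Perm ℝ)} (hBAS : StBAS) (hG : Gens K S)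
    {p q : ℝ × ℝ} (hp : p.1 < p.2) (hq : q.1 < q.2) (h : q ∈ OG S p) : Rel S p q := by
  obtain ⟨g, hg, he⟩ := h
  refine ⟨g, hg, ?_⟩
  rcases he with he | he
  · have e1 : q.1 = g p.1 := by rw [he]; rfl
    have e2 : q.2 = g p.2 := by rw [he]; rfl
    rw [e1, e2] at hq ⊢
    rcases (hBAS K S hG g hg).2.2.1 with hm | ha
    · exact image_mono g hm _ _
    · exact absurd (ha hp) (by linarith)
  · have e1 : q.1 = g p.2 := by rw [he]; rfl
    have e2 : q.2 = g p.1 := by rw [he]; rfl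
    rw [e1, e2] at hq ⊢
    rcases (hBAS K S hG g hg).2.2.1 with hm | ha
    · exact absurd (hm hp) (by linarith)
    · exact image_anti g ha _ _

/-- choice of a nearly longest gap of an orbit -/
private theorem nearly {K : ℝ} {S : Set (Equiv.Perm ℝ)} {Λ : Set ℝ} (hOGB : StOGB)
    (hG : Gens K S) (hL : Lam S Λ) {v : ℝ × ℝ} (hv : Gap Λ v.1 v.2) :
    ∃ u ∈ OG S v, Gap Λ u.1 u.2 ∧ 0 ≤ u.1 ∧ u.1 < 1 ∧
      (∀ w ∈ OG S u, |w.2 - w.1| ≤ 2 * (u.2 - u.1)) := by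
  obtain ⟨o1, o2, o3, o4, o5, _⟩ := hOGB K S Λ v hG hL hv
  set A : Set ℝ := {x | ∃ u ∈ OG S v, x = |u.2 - u.1|} with hA
  have hAb : BddAbove A := by
    refine ⟨1, ?_⟩
    rintro x ⟨u, hu, rfl⟩
    exact (o4 u hu).2.1
  have hvA : |v.2 - v.1| ∈ A := ⟨v, o1, rfl⟩
  have hv0 : 0 < |v.2 - v.1| := abs_pos.2 (by have := hv.1; intro h; linarith)
  have hs0 : 0 < sSup A := lt_of_lt_of_le hv0 (le_csSup hAb hvA)
  obtain ⟨x, ⟨u, hu, rfl⟩, hux⟩ := exists_lt_of_lt_csSup ⟨_, hvA⟩ (half_lt_self hs0)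
  -- orient it
  obtain ⟨u', hu', hlt, hlen⟩ : ∃ u' ∈ OG S v, u'.1 < u'.2 ∧ u'.2 - u'.1 = |u.2 - u.1| := by
    rcases lt_or_gt_of_ne (o4 u hu).2.2 with h | h
    · exact ⟨u, hu, h, (abs_of_pos (by linarith)).symm⟩
    · refine ⟨(u.2, u.1), o2 u hu, h, ?_⟩
      simp only
      rw [abs_of_neg (by linarith)]
      ring
  have hgap : Gap Λ u'.1 u'.2 := by
    have := (o4 u' hu').1
    rwa [min_eq_left hlt.le, max_eq_right hlt.le] at this
  -- translate it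
  set m : ℤ := -⌊u'.1⌋ with hm
  have hw : (u'.1 + m, u'.2 + m) ∈ OG S v := o5 u' hu' m
  have hwlt : u'.1 + m < u'.2 + m := by linarith
  refine ⟨(u'.1 + m, u'.2 + m), hw, ?_, ?_, ?_, ?_⟩
  · have := (o4 _ hw).1
    simpa only [min_eq_left hwlt.le, max_eq_right hwlt.le] using this
  · simp only [hm]
    push_cast
    linarith [Int.floor_le u'.1]
  · simp only [hm]
    push_cast
    linarith [Int.lt_floor_add_one u'.1]
  · rintro w hw'
    have hwv : w ∈ OG S v := by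
      obtain ⟨g, hg, he | he⟩ := hw'
      · rw [he]
        exact o3 _ hw g hg
      · rw [he]
        exact o3 _ (o2 _ hw) g hg
    have h1 : |w.2 - w.1| ≤ sSup A := le_csSup hAb ⟨w, hwv, rfl⟩
    have h2 : u'.2 + (m : ℝ) - (u'.1 + m) = |u.2 - u.1| := by rw [← hlen]; ring
    simp only [h2]
    linarith

private theorem Tot_mono {S : Set (Equiv.Perm ℝ)} {v : ℝ × ℝ} {Θ Θ' : ℝ} (h : Tot S v Θ)
    (hle : Θ ≤ Θ') : Tot S v Θ' := fun s h1 h2 => (h s h1 h2).trans hle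

end SEL

open SEL

theorem tSEL : StBAS → StLAM → StSUM → StREP → StOGB → StSEL := by
  intro hBAS hLAM hSUM hREP hOGB K S Λ hG hL hnf δ hδ Θ₀ hΘ₀
  obtain ⟨la, _, _, _, _, _, _, lh⟩ := hLAM K S Λ hG hL
  have hper : ∀ x, x ∈ Λ ↔ x + 1 ∈ Λ := fun x => (la T (SEL.T_mem S) x).symm
  have hcon : ∀ s : Finset (ℝ × ℝ), ∃ a b : ℝ, Gap Λ a b ∧ ∀ p ∈ s, ¬ SEL.Rel S p (a, b) := by
    intro s
    by_contra hc
    push Not at hc
    exact hnf ⟨s, fun a b hab => by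
      obtain ⟨p, hp, g, hg, he⟩ := hc a b hab
      exact ⟨p, hp, g, hg, he⟩⟩
  -- many inequivalent gaps
  have hmany : ∀ N : ℕ, ∃ V : Finset (ℝ × ℝ), V.card = N ∧ (∀ v ∈ V, Gap Λ v.1 v.2) ∧
      ∀ v ∈ V, ∀ w ∈ V, v ≠ w → ¬ SEL.Rel S v w := by
    intro N
    induction N with
    | zero => exact ⟨∅, rfl, by simp, by simp⟩
    | succ N ih =>
      obtain ⟨V, h1, h2, h3⟩ := ih
      obtain ⟨a, b, hab, hno'⟩ := hcon V
      have hnot : (a, b) ∉ V := fun h => hno' _ h (SEL.Rel.refl S _)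
      refine ⟨insert (a, b) V, ?_, ?_, ?_⟩
      · rw [Finset.card_insert_of_notMem hnot, h1]
      · intro v hv
        rcases Finset.mem_insert.1 hv with rfl | hv
        · exact hab
        · exact h2 v hv
      · intro v hv w hw hvw
        rcases Finset.mem_insert.1 hv with rfl | hv <;> rcases Finset.mem_insert.1 hw with rfl | hw
        · exact absurd rfl hvw
        · exact fun h => hno' w hw h.symm
        · exact hno' v hv
        · exact h3 v hv w hw hvw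
  obtain ⟨N, hN⟩ := exists_nat_gt (4 / Θ₀ + 2 / δ + (2 / δ + 1))
  obtain ⟨V, hVc, hVg, hVr⟩ := hmany N
  have hrep : ∀ v : ℝ × ℝ, ∃ (Θ : ℝ) (t : Finset (ℝ × ℝ)), v ∈ V → 0 < Θ ∧
      (∀ w ∈ t, Gap Λ w.1 w.2 ∧ 0 ≤ w.1 ∧ w.1 < 1 ∧ SEL.Rel S v w ∧ Tot S w Θ ∧ w.2 - w.1 ≤ Θ) ∧
      Θ / 4 ≤ ∑ w ∈ t, (w.2 - w.1) := by
    intro v
    by_cases hv : v ∈ V
    · obtain ⟨Θ, t, h1, h2, h3⟩ := hREP K S Λ hG hL v.1 v.2 (hVg v hv)
      exact ⟨Θ, t, fun _ => ⟨h1, h2, h3⟩⟩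
    · exact ⟨0, ∅, fun h => absurd h hv⟩
  choose Θ t hΘt using hrep
  have hΘ : ∀ v ∈ V, 0 < Θ v := fun v hv => (hΘt v hv).1
  have ht : ∀ v ∈ V, ∀ w ∈ t v, Gap Λ w.1 w.2 ∧ 0 ≤ w.1 ∧ w.1 < 1 ∧ SEL.Rel S v w ∧
      Tot S w (Θ v) ∧ w.2 - w.1 ≤ Θ v := fun v hv => (hΘt v hv).2.1
  have hsum : ∀ v ∈ V, Θ v / 4 ≤ ∑ w ∈ t v, (w.2 - w.1) := fun v hv => (hΘt v hv).2.2
  have huniq : ∀ v ∈ V, ∀ v' ∈ V, ∀ w, w ∈ t v → w ∈ t v' → v = v' := by
    intro v hv v' hv' w hw hw'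
    by_contra hne
    exact hVr v hv v' hv' hne ((ht v hv w hw).2.2.2.1.trans (ht v' hv' w hw').2.2.2.1.symm)
  have hdisj : Set.PairwiseDisjoint (↑V : Set (ℝ × ℝ)) t := by
    intro v hv v' hv' hne
    rw [Function.onFun, Finset.disjoint_left]
    intro w hw hw'
    exact hne (huniq v hv v' hv' w hw hw')
  have heqv : ∀ u ∈ V.biUnion t, ∀ w ∈ V.biUnion t, Eqv u w → u = w := by
    intro u hu w hw h
    rw [Finset.mem_biUnion] at hu hw
    obtain ⟨v, hv, huv⟩ := hu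
    obtain ⟨v', hv', hwv⟩ := hw
    have h1 := ht v hv u huv
    have h2 := ht v' hv' w hwv
    exact SEL.eqv_eq ⟨h1.2.1, h1.2.2.1⟩ ⟨h2.2.1, h2.2.2.1⟩ h
  have hgap : ∀ u ∈ V.biUnion t, Gap Λ u.1 u.2 := by
    intro u hu
    rw [Finset.mem_biUnion] at hu
    obtain ⟨v, hv, huv⟩ := hu
    exact (ht v hv u huv).1
  have htot : ∑ v ∈ V, Θ v ≤ 4 := by
    have h1 := hSUM Λ hper (V.biUnion t) hgap heqv
    rw [Finset.sum_biUnion hdisj] at h1
    have h2 : ∑ v ∈ V, Θ v / 4 ≤ ∑ v ∈ V, ∑ w ∈ t v, (w.2 - w.1) := Finset.sum_le_sum hsum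
    rw [← Finset.sum_div] at h2
    linarith
  have hTotv : ∀ v ∈ V, Tot S v (Θ v) := by
    intro v hv
    have hne : (t v).Nonempty := by
      rw [Finset.nonempty_iff_ne_empty]
      intro h
      have h1 := hsum v hv
      have h2 := hΘ v hv
      rw [h, Finset.sum_empty] at h1
      linarith
    obtain ⟨w, hw⟩ := hne
    have h1 := ht v hv w hw
    obtain ⟨_, _, _, _, _, o6⟩ := hOGB K S Λ w hG hL h1.1
    exact o6 v (SEL.rel_OG hBAS hG h1.1.1 (hVg v hv).1 h1.2.2.2.1.symm) _ h1.2.2.2.2.1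
  -- nearly longest gaps
  have hnear : ∀ v : ℝ × ℝ, ∃ u : ℝ × ℝ, v ∈ V → u ∈ OG S v ∧ Gap Λ u.1 u.2 ∧ 0 ≤ u.1 ∧ u.1 < 1 ∧
      (∀ w ∈ OG S u, |w.2 - w.1| ≤ 2 * (u.2 - u.1)) := by
    intro v
    by_cases hv : v ∈ V
    · obtain ⟨u, h1, h2⟩ := SEL.nearly hOGB hG hL (hVg v hv)
      exact ⟨u, fun _ => ⟨h1, h2⟩⟩
    · exact ⟨0, fun h => absurd h hv⟩
  choose U hU using hnear
  have hUrel : ∀ v ∈ V, SEL.Rel S v (U v) := fun v hv =>
    SEL.OG_rel hBAS hG (hVg v hv).1 (hU v hv).2.1.1 (hU v hv).1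
  have hUinj : Set.InjOn U ↑V := by
    intro v hv v' hv' he
    by_contra hne
    refine hVr v hv v' hv' hne ?_
    have h1 := hUrel v hv
    rw [he] at h1
    exact h1.trans (hUrel v' hv').symm
  have hUTot : ∀ v ∈ V, Tot S (U v) (Θ v) := by
    intro v hv
    obtain ⟨_, _, _, _, _, o6⟩ := hOGB K S Λ v hG hL (hVg v hv)
    exact o6 _ (hU v hv).1 _ (hTotv v hv)
  -- the parts
  set V₁ := V.filter fun v => Θ₀ < Θ v with hV₁
  set V₂ := V.filter fun v => δ / 2 < (U v).2 - (U v).1 with hV₂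
  set W := V.filter fun v => ¬ (Θ₀ < Θ v) ∧ ¬ (δ / 2 < (U v).2 - (U v).1) with hW
  have hcover : V ⊆ V₁ ∪ V₂ ∪ W := by
    intro v hv
    simp only [hV₁, hV₂, hW, Finset.mem_union, Finset.mem_filter]
    tauto
  have hcard : (N : ℝ) ≤ V₁.card + V₂.card + W.card := by
    have h1 := Finset.card_le_card hcover
    have h2 := Finset.card_union_le (V₁ ∪ V₂) W
    have h3 := Finset.card_union_le V₁ V₂
    rw [hVc] at h1
    exact_mod_cast (by omega : N ≤ V₁.card + V₂.card + W.card)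
  have hc1 : (V₁.card : ℝ) ≤ 4 / Θ₀ := by
    have h1 : ∑ v ∈ V₁, Θ₀ ≤ ∑ v ∈ V₁, Θ v :=
      Finset.sum_le_sum fun v hv => (Finset.mem_filter.1 hv).2.le
    have h2 : ∑ v ∈ V₁, Θ v ≤ ∑ v ∈ V, Θ v :=
      Finset.sum_le_sum_of_subset_of_nonneg (Finset.filter_subset _ _) fun v hv _ => (hΘ v hv).le
    rw [Finset.sum_const, nsmul_eq_mul] at h1
    rw [le_div_iff₀ hΘ₀]
    linarith
  have hc2 : (V₂.card : ℝ) ≤ 2 / δ := by
    have h0 : ∀ v ∈ V₂, v ∈ V := fun v hv => (Finset.mem_filter.1 hv).1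
    have hinj2 : Set.InjOn U ↑V₂ := fun v hv v' hv' he => hUinj (h0 v hv) (h0 v' hv') he
    have h1 := hSUM Λ hper (V₂.image U) (by
        intro u hu
        obtain ⟨v, hv, rfl⟩ := Finset.mem_image.1 hu
        exact (hU v (h0 v hv)).2.1) (by
        intro u hu w hw he
        obtain ⟨v, hv, rfl⟩ := Finset.mem_image.1 hu
        obtain ⟨v', hv', rfl⟩ := Finset.mem_image.1 hw
        have a1 := hU v (h0 v hv)
        have a2 := hU v' (h0 v' hv')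
        exact SEL.eqv_eq ⟨a1.2.2.1, a1.2.2.2.1⟩ ⟨a2.2.2.1, a2.2.2.2.1⟩ he)
    rw [Finset.sum_image hinj2] at h1
    have h2 : ∑ v ∈ V₂, δ / 2 ≤ ∑ v ∈ V₂, ((U v).2 - (U v).1) :=
      Finset.sum_le_sum fun v hv => (Finset.mem_filter.1 hv).2.le
    rw [Finset.sum_const, nsmul_eq_mul] at h2
    rw [le_div_iff₀ hδ]
    linarith
  have hc3 : 2 / δ + 1 < (W.card : ℝ) := by linarith
  -- pigeonhole
  have hfl : ∀ v ∈ W, ⌊(U v).1 * (2 / δ)⌋₊ ∈ Finset.range (⌊2 / δ⌋₊ + 1) := by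
    intro v hv
    have hvV : v ∈ V := (Finset.mem_filter.1 hv).1
    have a1 := hU v hvV
    rw [Finset.mem_range, Nat.lt_succ_iff]
    apply Nat.floor_le_floor
    have : 0 < 2 / δ := by positivity
    nlinarith [a1.2.2.2.1]
  have hlt : (Finset.range (⌊2 / δ⌋₊ + 1)).card < W.card := by
    rw [Finset.card_range]
    have h1 : (⌊2 / δ⌋₊ : ℝ) ≤ 2 / δ := Nat.floor_le (by positivity)
    have h2 : ((⌊2 / δ⌋₊ + 1 : ℕ) : ℝ) < (W.card : ℝ) := by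
      push_cast
      linarith
    exact_mod_cast h2
  obtain ⟨v, hv, v', hv', hne, hfe⟩ := Finset.exists_ne_map_eq_of_card_lt_of_maps_to hlt hfl
  have hclose : ∀ v ∈ W, ∀ v' ∈ W, ⌊(U v).1 * (2 / δ)⌋₊ = ⌊(U v').1 * (2 / δ)⌋₊ →
      (U v').1 - (U v).1 ≤ δ / 2 := by
    intro v hv v' hv' he
    have hvV : v ∈ V := (Finset.mem_filter.1 hv).1
    have hvV' : v' ∈ V := (Finset.mem_filter.1 hv').1
    have a1 := hU v hvV
    have a2 := hU v' hvV'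
    have hp : 0 < 2 / δ := by positivity
    have b1 : (⌊(U v).1 * (2 / δ)⌋₊ : ℝ) ≤ (U v).1 * (2 / δ) :=
      Nat.floor_le (mul_nonneg a1.2.2.1 hp.le)
    have b2 : (U v').1 * (2 / δ) < ⌊(U v').1 * (2 / δ)⌋₊ + 1 := Nat.lt_floor_add_one _
    rw [← he] at b2
    have b3 : ((U v').1 - (U v).1) * (2 / δ) ≤ 1 := by
      rw [sub_mul]
      linarith
    rw [mul_div_assoc', div_le_one hδ] at b3
    linarith
  have main : ∀ v ∈ W, ∀ v' ∈ W, (U v).2 < (U v').1 →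
      ⌊(U v).1 * (2 / δ)⌋₊ = ⌊(U v').1 * (2 / δ)⌋₊ →
      ∃ v w : ℝ × ℝ, Gap Λ v.1 v.2 ∧ Gap Λ w.1 w.2 ∧ v.2 < w.1 ∧
      w.2 - v.1 ≤ δ ∧ Tot S v Θ₀ ∧ Tot S w Θ₀ ∧
      (∀ u ∈ OG S v, |u.2 - u.1| ≤ 2 * (v.2 - v.1)) ∧
      (∀ u ∈ OG S w, |u.2 - u.1| ≤ 2 * (w.2 - w.1)) := by
    intro v hv v' hv' hlt' he
    have hv0 := Finset.mem_filter.1 hv
    have hv0' := Finset.mem_filter.1 hv'
    have a1 := hU v hv0.1
    have a2 := hU v' hv0'.1
    have b1 := hclose v hv v' hv' he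
    have b2 : (U v').2 - (U v').1 ≤ δ / 2 := not_lt.1 hv0'.2.2
    exact ⟨U v, U v', a1.2.1, a2.2.1, hlt', by linarith,
      SEL.Tot_mono (hUTot v hv0.1) (not_lt.1 hv0.2.1),
      SEL.Tot_mono (hUTot v' hv0'.1) (not_lt.1 hv0'.2.1), a1.2.2.2.2, a2.2.2.2.2⟩
  have hvV := (Finset.mem_filter.1 hv).1
  have hvV' := (Finset.mem_filter.1 hv').1
  have hUne : U v ≠ U v' := fun h => hne (hUinj hvV hvV' h)
  rcases lh _ _ _ _ (hU v hvV).2.1 (hU v' hvV').2.1 (by simpa using hUne) with h | h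
  · exact main v hv v' hv' h hfe
  · exact main v' hv' v hv h hfe.symm

end Pool.Agent.Helper59.HX
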