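import Pool.Agent.Helper59.HX.St

/-!
# MP_10ef18_an (Hector), module SPG: separation of gaps of comparable length in one orbit
-/

set_option autoImplicit false

namespace Pool.Agent.Helper59.HX

open Set Pool.Agent.Helper82.HG

namespace SPG

private theorem key {S : Set (Equiv.Perm ℝ)} {v : ℝ × ℝ} {χ₁ : ℝ} (hχ : 1 ≤ χ₁)
    (hb : ∀ q ∈ Pr S v v, χ₁ ≤ cr q) {p1 p2 r1 r2 : ℝ}
    (h12 : p1 < p2) (h23 : p2 < r1) (h34 : r1 < r2)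
    (hq : (⟨p1, p2, r1, r2⟩ : Qd) ∈ Pr S v v) :
    χ₁ * ((p2 - p1) * (r2 - r1)) ≤ (r1 - p2) * (r2 - p1) := by
  have h := hb _ hq
  have e1 : (⟨p1, p2, r1, r2⟩ : Qd).X = r1 - p2 := abs_of_pos (by show 0 < r1 - p2; linarith)
  have e2 : (⟨p1, p2, r1, r2⟩ : Qd).Y = r2 - p1 := abs_of_pos (by show 0 < r2 - p1; linarith)
  have e3 : (⟨p1, p2, r1, r2⟩ : Qd).u = p2 - p1 := abs_of_pos (by show 0 < p2 - p1; linarith)
  have e4 : (⟨p1, p2, r1, r2⟩ : Qd).w = r2 - r1 := abs_of_pos (by show 0 < r2 - r1; linarith)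
  unfold cr at h
  rw [e1, e2, e3, e4, le_div_iff₀ (mul_pos (by linarith) (by linarith))] at h
  exact h

private theorem one {S : Set (Equiv.Perm ℝ)} {v : ℝ × ℝ} {χ₁ : ℝ} (hχ : 1 ≤ χ₁)
    (hb : ∀ q ∈ Pr S v v, χ₁ ≤ cr q)
    (hP : ∀ u ∈ OG S v, ∀ u' ∈ OG S v, u.1 < u.2 → u'.1 < u'.2 → u ≠ u' → u.1 ≤ u'.1 →
      u.2 < u'.1 ∧ (⟨u.1, u.2, u'.1, u'.2⟩ : Qd) ∈ Pr S v v)
    {a : ℝ} (ha : 0 < a) {u u' : ℝ × ℝ} (hu : u ∈ OG S v) (hu' : u' ∈ OG S v)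
    (h1 : u.1 < u.2) (h2 : u'.1 < u'.2) (h3 : a / 2 < u.2 - u.1) (h5 : a / 2 < u'.2 - u'.1)
    (h6 : u'.2 - u'.1 ≤ a) (hne : u ≠ u') (hle : u.1 ≤ u'.1) :
    a * √χ₁ / 6 ≤ u'.1 - u.1 := by
  obtain ⟨g1, g2⟩ := hP u hu u' hu' h1 h2 hne hle
  have k := key hχ hb h1 g1 h2 g2
  have hs : √χ₁ ^ 2 = χ₁ := Real.sq_sqrt (by linarith)
  have hs0 : 0 ≤ √χ₁ := Real.sqrt_nonneg _
  have hY : 0 < u'.2 - u.1 := by linarith
  have k2 : (√χ₁ * (a / 2)) ^ 2 ≤ (u'.2 - u.1) ^ 2 := by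
    have m1 : (a / 2) * (a / 2) ≤ (u.2 - u.1) * (u'.2 - u'.1) :=
      mul_le_mul h3.le h5.le (by positivity) (by linarith)
    have m2 : χ₁ * ((a / 2) * (a / 2)) ≤ χ₁ * ((u.2 - u.1) * (u'.2 - u'.1)) :=
      mul_le_mul_of_nonneg_left m1 (by linarith)
    have m3 : (u'.1 - u.2) * (u'.2 - u.1) ≤ (u'.2 - u.1) * (u'.2 - u.1) :=
      mul_le_mul_of_nonneg_right (by linarith) hY.le
    calc (√χ₁ * (a / 2)) ^ 2 = χ₁ * ((a / 2) * (a / 2)) := by rw [mul_pow, hs]; ring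
      _ ≤ _ := m2.trans (k.trans m3)
      _ = _ := by ring
  have k3 : √χ₁ * (a / 2) ≤ u'.2 - u.1 := (sq_le_sq₀ (by positivity) hY.le).1 k2
  nlinarith

end SPG

theorem tSPG : StBAS → StLAM → StOGB → StPRB → StSPG := by
  intro _ _ hO hPr K S Λ v χ₁ hG hL hgap hχ hb
  obtain ⟨-, hsw, -, hgp, htr, -⟩ := hO K S Λ v hG hL hgap
  obtain ⟨-, hP, -⟩ := hPr K S Λ v v hG hL hgap hgap
  have two : ∀ u ∈ OG S v, u.1 < u.2 → (u.2 - u.1) * √χ₁ ≤ 1 := by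
    intro u hu h1
    have hu1 := htr u hu 1
    have hne : u ≠ (u.1 + ((1 : ℤ) : ℝ), u.2 + ((1 : ℤ) : ℝ)) := by
      intro h
      have := congrArg Prod.fst h
      simp at this
    obtain ⟨g1, g2⟩ := hP u hu _ hu1 h1 (by simpa using h1) hne (by simp)
    have k := SPG.key hχ hb h1 g1 (by simpa using h1) g2
    simp only [Int.cast_one] at k g1
    have hs : √χ₁ ^ 2 = χ₁ := Real.sq_sqrt (by linarith)
    have hs0 : 0 ≤ √χ₁ := Real.sqrt_nonneg _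
    have k2 : ((u.2 - u.1) * √χ₁) ^ 2 ≤ 1 := by
      rw [mul_pow, hs]
      nlinarith [sq_nonneg (u.2 - u.1)]
    exact (abs_le_one_iff_mul_self_le_one.2 (by nlinarith) : |(u.2 - u.1) * √χ₁| ≤ 1) |> abs_le.1 |>.2
  refine ⟨?_, ?_⟩
  · intro a ha u hu u' hu' h1 h2 h3 h4 h5 h6 hne
    rcases le_total u.1 u'.1 with hle | hle
    · have := SPG.one hχ hb hP ha hu hu' h1 h2 h3 h5 h6 hne hle
      rw [abs_sub_comm]
      exact this.trans (le_abs_self _)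
    · have := SPG.one hχ hb hP ha hu' hu h2 h1 h5 h3 h4 hne.symm hle
      exact this.trans (le_abs_self _)
  · intro u hu
    obtain ⟨-, -, hne⟩ := hgp u hu
    rcases lt_or_gt_of_ne hne with h | h
    · rw [abs_of_pos (sub_pos.2 h)]
      exact two u hu h
    · have := two (u.2, u.1) (hsw u hu) h
      rw [abs_sub_comm, abs_of_pos (sub_pos.2 h)]
      exact this

end Pool.Agent.Helper59.HX
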