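import Pool.Agent.Helper59.HX.St

/-!
# MP_10ef18_an, module XB: the cross ratio distortion estimate
-/

set_option autoImplicit false

namespace Pool.Agent.Helper59.HX

open Set Pool.Agent.Helper82.HG

namespace XB

/-- `log` of a cross ratio of four distinct numbers -/
private theorem log_cr {c a b d : ℝ} (h1 : a ≠ b) (h2 : d ≠ c) (h3 : a ≠ c) (h4 : d ≠ b) :
    Real.log (cr ⟨c, a, b, d⟩) =
      Real.log |b - a| + Real.log |d - c| - (Real.log |a - c| + Real.log |d - b|) := by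
  have e1 : |b - a| ≠ 0 := abs_ne_zero.mpr (sub_ne_zero.mpr h1.symm)
  have e2 : |d - c| ≠ 0 := abs_ne_zero.mpr (sub_ne_zero.mpr h2)
  have e3 : |a - c| ≠ 0 := abs_ne_zero.mpr (sub_ne_zero.mpr h3)
  have e4 : |d - b| ≠ 0 := abs_ne_zero.mpr (sub_ne_zero.mpr h4)
  simp only [cr, Qd.X, Qd.Y, Qd.u, Qd.w]
  rw [Real.log_div (mul_ne_zero e1 e2) (mul_ne_zero e3 e4), Real.log_mul e1 e2,
    Real.log_mul e3 e4]

/-- conclusion of StXF for a single `C` -/
private def PXF (K α C : ℝ) : Prop :=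
  ∀ (f f' ψ : ℝ → ℝ),
    (∀ x, HasDerivAt f (f' x) x) → (∀ x, 0 < f' x) →
    (∀ x, HasDerivAt (fun t => Real.log (f' t)) (ψ x) x) → (∀ x, |ψ x| ≤ K) →
    (∀ x y, |ψ x - ψ y| ≤ K * |x - y| ^ α) →
    ∀ x y : ℝ, x ≠ y → |y - x| ≤ 1 →
      |Real.log ((f y - f x) / (y - x)) - Real.log (f' x) - ψ x / 2 * (y - x)| ≤
        C * |y - x| ^ (1 + α) ∧
      ∃ D : ℝ, HasDerivAt (fun t => Real.log ((f y - f t) / (y - t))) D x ∧
        |D - ψ x / 2| ≤ C * |y - x| ^ α

private theorem core (K α C : ℝ) (hK : 0 ≤ K) (hα : 0 < α) (hC : 0 ≤ C) (hX : PXF K α C)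
    (f f' ψ : ℝ → ℝ) (hf : ∀ x, HasDerivAt f (f' x) x) (hf' : ∀ x, 0 < f' x)
    (hl : ∀ x, HasDerivAt (fun t => Real.log (f' t)) (ψ x) x) (hψ : ∀ x, |ψ x| ≤ K)
    (hH : ∀ x y, |ψ x - ψ y| ≤ K * |x - y| ^ α)
    (c a b d : ℝ) (hca : c < a) (hab : a < b) (hbd : b < d) (hdc : d - c ≤ 1) :
    |Real.log (cr ⟨f c, f a, f b, f d⟩) - Real.log (cr ⟨c, a, b, d⟩)| ≤
      (K / 2 + 3 * C) * ((b - c) * (d - c) ^ α) := by
  have hmono : StrictMono f := strictMono_of_hasDerivAt_pos hf hf'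
  have m1 := hmono hca
  have m2 := hmono hab
  have m3 := hmono hbd
  set F : ℝ → ℝ → ℝ := fun x y => Real.log ((f y - f x) / (y - x)) with hF
  have Fe : ∀ x y : ℝ, x < y → F x y = Real.log |f y - f x| - Real.log |y - x| := by
    intro x y hxy
    have h1 : f y - f x ≠ 0 := (sub_pos.mpr (hmono hxy)).ne'
    have h2 : y - x ≠ 0 := (sub_pos.mpr hxy).ne'
    simp only [hF]
    rw [Real.log_div h1 h2, Real.log_abs, Real.log_abs]
  have Fs : ∀ x y : ℝ, F x y = F y x := by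
    intro x y
    simp only [hF]
    congr 1
    rw [← neg_sub (f x) (f y), ← neg_sub x y, neg_div_neg_eq]
  have hB : Real.log (cr ⟨f c, f a, f b, f d⟩) - Real.log (cr ⟨c, a, b, d⟩) =
      (F a b - F a c) - (F b d - F c d) := by
    rw [log_cr m2.ne (m1.trans (m2.trans m3)).ne' m1.ne' m3.ne',
      log_cr hab.ne (hca.trans (hab.trans hbd)).ne' hca.ne' hbd.ne', Fs a c, Fe a b hab,
      Fe c a hca, Fe b d hbd, Fe c d (hca.trans (hab.trans hbd))]
    ring
  rw [hB]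
  have hbc : 0 < b - c := by linarith
  have hdc0 : 0 < d - c := by linarith
  -- part one
  have p1 := (hX f f' ψ hf hf' hl hψ hH a b hab.ne (by rw [abs_of_pos (by linarith)]; linarith)).1
  have p2 := (hX f f' ψ hf hf' hl hψ hH a c hca.ne' (by
    rw [abs_sub_comm, abs_of_pos (by linarith)]; linarith)).1
  have q1 : |b - a| ^ (1 + α) ≤ (b - c) * (d - c) ^ α := by
    rw [abs_of_pos (by linarith : (0 : ℝ) < b - a), Real.rpow_add (by linarith), Real.rpow_one]
    exact mul_le_mul (by linarith) (Real.rpow_le_rpow (by linarith) (by linarith) hα.le)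
      (Real.rpow_nonneg (by linarith) _) hbc.le
  have q2 : |c - a| ^ (1 + α) ≤ (b - c) * (d - c) ^ α := by
    rw [abs_sub_comm, abs_of_pos (by linarith : (0 : ℝ) < a - c), Real.rpow_add (by linarith),
      Real.rpow_one]
    exact mul_le_mul (by linarith) (Real.rpow_le_rpow (by linarith) (by linarith) hα.le)
      (Real.rpow_nonneg (by linarith) _) hbc.le
  -- part two
  have hder : ∀ x ∈ Icc c b, ∃ D : ℝ, HasDerivAt (fun t => F t d) D x ∧
      |D - ψ x / 2| ≤ C * |d - x| ^ α := by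
    intro x hx
    exact (hX f f' ψ hf hf' hl hψ hH x d (by linarith [hx.2]) (by
      rw [abs_of_pos (by linarith [hx.2])]; linarith [hx.1])).2
  choose! D hD1 hD2 using hder
  obtain ⟨ξ, hξ, hξe⟩ := exists_hasDerivAt_eq_slope (fun t => F t d) D (hca.trans hab)
    (fun x hx => (hD1 x hx).continuousAt.continuousWithinAt)
    (fun x hx => hD1 x ⟨hx.1.le, hx.2.le⟩)
  have hξ' : F b d - F c d = D ξ * (b - c) := by
    have : (b - c) ≠ 0 := hbc.ne'
    rw [hξe]
    field_simp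
  have r1 := hD2 ξ ⟨hξ.1.le, hξ.2.le⟩
  have r2 : |d - ξ| ^ α ≤ (d - c) ^ α :=
    Real.rpow_le_rpow (abs_nonneg _) (by
      rw [abs_of_pos (by linarith [hξ.2])]; linarith [hξ.1]) hα.le
  have r3 := hH a ξ
  have r4 : |a - ξ| ^ α ≤ (d - c) ^ α :=
    Real.rpow_le_rpow (abs_nonneg _) (by
      rw [abs_le]; constructor <;> linarith [hξ.1, hξ.2]) hα.le
  have s1 : |ψ a / 2 - D ξ| ≤ (K / 2 + C) * (d - c) ^ α := by
    have t1 : ψ a / 2 - D ξ = (ψ a - ψ ξ) / 2 - (D ξ - ψ ξ / 2) := by ring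
    rw [t1]
    refine (abs_sub _ _).trans ?_
    rw [abs_div, abs_two]
    have u1 : |ψ a - ψ ξ| ≤ K * (d - c) ^ α := r3.trans (mul_le_mul_of_nonneg_left r4 hK)
    have u2 : |D ξ - ψ ξ / 2| ≤ C * (d - c) ^ α := r1.trans (mul_le_mul_of_nonneg_left r2 hC)
    nlinarith
  have t0 : (F a b - F a c) - (F b d - F c d) =
      (F a b - Real.log (f' a) - ψ a / 2 * (b - a)) -
        (F a c - Real.log (f' a) - ψ a / 2 * (c - a)) + (b - c) * (ψ a / 2 - D ξ) := by
    rw [hξ']; ring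
  rw [t0]
  refine (abs_add_le _ _).trans ?_
  refine (add_le_add (abs_sub _ _) le_rfl).trans ?_
  rw [abs_mul, abs_of_pos hbc]
  have v1 : |F a b - Real.log (f' a) - ψ a / 2 * (b - a)| ≤ C * ((b - c) * (d - c) ^ α) :=
    p1.trans (mul_le_mul_of_nonneg_left q1 hC)
  have v2 : |F a c - Real.log (f' a) - ψ a / 2 * (c - a)| ≤ C * ((b - c) * (d - c) ^ α) :=
    p2.trans (mul_le_mul_of_nonneg_left q2 hC)
  have v3 : (b - c) * |ψ a / 2 - D ξ| ≤ (b - c) * ((K / 2 + C) * (d - c) ^ α) :=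
    mul_le_mul_of_nonneg_left s1 hbc.le
  calc _ ≤ C * ((b - c) * (d - c) ^ α) + C * ((b - c) * (d - c) ^ α) +
        (b - c) * ((K / 2 + C) * (d - c) ^ α) := add_le_add (add_le_add v1 v2) v3
    _ = _ := by ring

/-- the increasing case, with the minimum -/
private theorem inc (K α C : ℝ) (hK : 0 ≤ K) (hα : 0 < α) (hC : 0 ≤ C) (hX : PXF K α C)
    (f f' ψ : ℝ → ℝ) (hf : ∀ x, HasDerivAt f (f' x) x) (hf' : ∀ x, 0 < f' x)
    (hl : ∀ x, HasDerivAt (fun t => Real.log (f' t)) (ψ x) x) (hψ : ∀ x, |ψ x| ≤ K)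
    (hH : ∀ x y, |ψ x - ψ y| ≤ K * |x - y| ^ α)
    (c a b d : ℝ) (hca : c < a) (hab : a < b) (hbd : b < d) (hdc : d - c ≤ 1) :
    |Real.log (cr ⟨f c, f a, f b, f d⟩) - Real.log (cr ⟨c, a, b, d⟩)| ≤
      (K / 2 + 3 * C) * cst α ⟨c, a, b, d⟩ := by
  have h1 := core K α C hK hα hC hX f f' ψ hf hf' hl hψ hH c a b d hca hab hbd hdc
  have h2 := core K α C hK hα hC hX (fun x => -f (-x)) (fun x => f' (-x)) (fun x => -ψ (-x))
    (fun x => by
      have h := ((hf (-x)).scomp x (hasDerivAt_neg x)).neg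
      have e : -((-1 : ℝ) • f' (-x)) = f' (-x) := by simp
      rw [e] at h
      exact h)
    (fun x => hf' _)
    (fun x => by
      have h := (hl (-x)).scomp x (hasDerivAt_neg x)
      have e : ((-1 : ℝ) • ψ (-x)) = -ψ (-x) := by simp
      rw [e] at h
      exact h)
    (fun x => by rw [abs_neg]; exact hψ _)
    (fun x y => by
      have := hH (-y) (-x)
      rw [show -ψ (-x) - -ψ (-y) = ψ (-y) - ψ (-x) by ring]
      rwa [show -y - -x = x - y by ring] at this)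
    (-d) (-b) (-a) (-c) (by linarith) (by linarith) (by linarith) (by linarith)
  have e1 : cr ⟨-f (- -d), -f (- -b), -f (- -a), -f (- -c)⟩ = cr ⟨f c, f a, f b, f d⟩ := by
    simp only [cr, Qd.X, Qd.Y, Qd.u, Qd.w, neg_neg]
    rw [show -f a - -f b = f b - f a by ring, show -f c - -f d = f d - f c by ring,
      show -f b - -f d = f d - f b by ring, show -f c - -f a = f a - f c by ring,
      mul_comm |f d - f b|]
  have e2 : cr ⟨-d, -b, -a, -c⟩ = cr ⟨c, a, b, d⟩ := by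
    simp only [cr, Qd.X, Qd.Y, Qd.u, Qd.w]
    rw [show -a - -b = b - a by ring, show -c - -d = d - c by ring,
      show -b - -d = d - b by ring, show -c - -a = a - c by ring, mul_comm |d - b|]
  rw [e1, e2] at h2
  have hP : 0 ≤ K / 2 + 3 * C := by linarith
  simp only [cst, Qd.Y]
  rw [abs_of_pos (by linarith : (0 : ℝ) < b - c), abs_of_pos (by linarith : (0 : ℝ) < d - a),
    abs_of_pos (by linarith : (0 : ℝ) < d - c)]
  rcases min_choice (b - c) (d - a) with hm | hm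
  · rw [hm]; exact h1
  · rw [hm]
    rw [show -a - -d = d - a by ring, show -c - -d = d - c by ring] at h2
    exact h2

private theorem cr_swap (c a b d : ℝ) : cr ⟨d, b, a, c⟩ = cr ⟨c, a, b, d⟩ := by
  simp only [cr, Qd.X, Qd.Y, Qd.u, Qd.w]
  rw [abs_sub_comm a b, abs_sub_comm c d, abs_sub_comm b d, abs_sub_comm c a, mul_comm |d - b|]

private theorem cst_swap (α c a b d : ℝ) : cst α ⟨d, b, a, c⟩ = cst α ⟨c, a, b, d⟩ := by
  simp only [cst, Qd.Y]
  rw [abs_sub_comm a d, abs_sub_comm c d, abs_sub_comm c b, min_comm]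

private theorem pos (K α C : ℝ) (hK : 0 ≤ K) (hα : 0 < α) (hC : 0 ≤ C) (hX : PXF K α C)
    (f f' ψ : ℝ → ℝ) (hf : ∀ x, HasDerivAt f (f' x) x) (hf' : ∀ x, 0 < f' x)
    (hl : ∀ x, HasDerivAt (fun t => Real.log (f' t)) (ψ x) x) (hψ : ∀ x, |ψ x| ≤ K)
    (hH : ∀ x y, |ψ x - ψ y| ≤ K * |x - y| ^ α) : H2 (K / 2 + 3 * C) α f := by
  intro c a b d ho hdc
  rcases ho with ⟨h1, h2, h3⟩ | ⟨h1, h2, h3⟩
  · simp only at h1 h2 h3
    exact inc K α C hK hα hC hX f f' ψ hf hf' hl hψ hH c a b d h1 h2 h3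
      ((le_abs_self _).trans hdc)
  · simp only at h1 h2 h3
    have := inc K α C hK hα hC hX f f' ψ hf hf' hl hψ hH d b a c h1 h2 h3
      ((le_abs_self _).trans (by rw [abs_sub_comm]; exact hdc))
    rw [cr_swap (f c) (f a) (f b) (f d), cr_swap c a b d, cst_swap α c a b d] at this
    exact this

end XB

theorem tXB : StXF → StXB := by
  intro hXF K α hK hα hα1
  obtain ⟨C, hC, hX⟩ := hXF K α hK hα hα1
  refine ⟨K / 2 + 3 * C, by linarith, ?_⟩
  intro f f' ψ hf hf' hl hψ hH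
  rcases hf' with hf' | hf'
  · refine XB.pos K α C hK hα hC hX f f' ψ hf hf' (fun x => ?_) hψ hH
    have := hl x
    simpa only [Real.log_abs] using this
  · have h := XB.pos K α C hK hα hC hX (fun x => -f x) (fun x => -f' x) ψ
      (fun x => (hf x).neg) (fun x => by have := hf' x; linarith) (fun x => by
        have := hl x
        simpa only [Real.log_abs, Real.log_neg_eq_log] using this) hψ hH
    intro c a b d ho hdc
    have h3 := h c a b d ho hdc
    have e1 : cr ⟨-f c, -f a, -f b, -f d⟩ = cr ⟨f c, f a, f b, f d⟩ := by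
      simp only [cr, Qd.X, Qd.Y, Qd.u, Qd.w]
      rw [show -f b - -f a = -(f b - f a) by ring, show -f d - -f c = -(f d - f c) by ring,
        show -f a - -f c = -(f a - f c) by ring, show -f d - -f b = -(f d - f b) by ring,
        abs_neg, abs_neg, abs_neg, abs_neg]
    rwa [e1] at h3

end Pool.Agent.Helper59.HX
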