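import Pool.Agent.Helper59.HX.St

/-!
# MP_10ef18_an, project HX, module XF: estimates for `log ((f y - f x)/(y - x))`
-/

set_option autoImplicit false

namespace Pool.Agent.Helper59.HX

open Set

namespace XF

/-- mean value inequality on a segment -/
private theorem mvi {g g' : ℝ → ℝ} {C x t : ℝ} (hg : ∀ s, HasDerivAt g (g' s) s)
    (hb : ∀ s ∈ uIcc x t, |g' s| ≤ C) : |g t - g x| ≤ C * |t - x| := by
  have h := Convex.norm_image_sub_le_of_norm_hasDerivWithin_le (f := g) (f' := g') (C := C)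
    (s := uIcc x t) (x := x) (y := t) (fun s _ => (hg s).hasDerivWithinAt)
    (fun s hs => by rw [Real.norm_eq_abs]; exact hb s hs) (convex_uIcc x t) left_mem_uIcc
    right_mem_uIcc
  simpa [Real.norm_eq_abs] using h

private theorem abs_of_uIcc {x t s : ℝ} (hs : s ∈ uIcc x t) : |s - x| ≤ |t - x| := by
  rcases le_total x t with h | h
  · rw [uIcc_of_le h] at hs
    rw [abs_of_nonneg (by linarith [hs.1]), abs_of_nonneg (by linarith)]
    linarith [hs.2]
  · rw [uIcc_of_ge h] at hs
    rw [abs_of_nonpos (by linarith [hs.2]), abs_of_nonpos (by linarith)]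
    linarith [hs.1]

private theorem expb (z : ℝ) : |Real.exp z - 1 - z| ≤ z ^ 2 * Real.exp |z| := by
  have h1 := Real.add_one_le_exp z
  have h2 := Real.add_one_le_exp (-z)
  have h3 : 0 < Real.exp z := Real.exp_pos z
  have h4 : Real.exp (-z) * Real.exp z = 1 := by rw [← Real.exp_add]; simp
  have h5 : Real.exp z - 1 ≤ z * Real.exp z := by nlinarith
  rw [abs_of_nonneg (by linarith)]
  rcases le_total 0 z with hz | hz
  · rw [abs_of_nonneg hz]
    nlinarith
  · rw [abs_of_nonpos hz]
    have h6 : 1 ≤ Real.exp (-z) := Real.one_le_exp (by linarith)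
    nlinarith [sq_nonneg z]

private theorem slope {f f' : ℝ → ℝ} (hf : ∀ x, HasDerivAt f (f' x) x) {x y : ℝ} (hxy : x ≠ y) :
    ∃ ξ ∈ uIcc x y, f' ξ = (f y - f x) / (y - x) := by
  rcases lt_or_gt_of_ne hxy with h | h
  · obtain ⟨ξ, hξ, he⟩ := exists_hasDerivAt_eq_slope f f' h
      (fun s _ => (hf s).continuousAt.continuousWithinAt) (fun s _ => hf s)
    exact ⟨ξ, by rw [uIcc_of_le h.le]; exact Ioo_subset_Icc_self hξ, he⟩
  · obtain ⟨ξ, hξ, he⟩ := exists_hasDerivAt_eq_slope f f' h
      (fun s _ => (hf s).continuousAt.continuousWithinAt) (fun s _ => hf s)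
    refine ⟨ξ, by rw [uIcc_of_ge h.le]; exact Ioo_subset_Icc_self hξ, ?_⟩
    rw [he, ← neg_sub (f y) (f x), ← neg_sub y x, neg_div_neg_eq]

end XF

open XF in
theorem tXF : StXF := by
  intro K α hK hα hα1
  set E : ℝ := K ^ 2 * Real.exp K with hE
  have hE0 : 0 ≤ E := by positivity
  refine ⟨K + 3 * E, by positivity, ?_⟩
  intro f f' ψ hf hpos hh hψ hHol x y hxy hyx
  set h : ℝ → ℝ := fun t => Real.log (f' t) with hhdef
  set r : ℝ := |y - x| with hr
  have hr0 : 0 < r := abs_pos.2 (sub_ne_zero.2 hxy.symm)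
  have hra : r ≤ r ^ α := by
    have := Real.rpow_le_rpow_of_exponent_ge hr0 hyx hα1
    rwa [Real.rpow_one] at this
  have hr1a : r ^ (1 + α) = r * r ^ α := by
    rw [Real.rpow_add hr0, Real.rpow_one]
  have hrα0 : 0 < r ^ α := Real.rpow_pos_of_pos hr0 α
  have hrr : r * r ≤ r * r ^ α := mul_le_mul_of_nonneg_left hra hr0.le
  -- the estimates for `h`
  have hK1 : ∀ t ∈ uIcc x y, |h t - h x| ≤ K * r := by
    intro t ht
    refine (mvi hh (fun s _ => hψ s)).trans ?_
    exact mul_le_mul_of_nonneg_left (abs_of_uIcc ht) hK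
  have hK2 : ∀ t ∈ uIcc x y, |h t - h x - ψ x * (t - x)| ≤ K * (r * r ^ α) := by
    intro t ht
    have h1 : ∀ s, HasDerivAt (fun s => h s - ψ x * s) (ψ s - ψ x) s := by
      intro s
      have h2 : HasDerivAt (fun s => h s - ψ x * s) (ψ s - ψ x * 1) s :=
        (hh s).sub ((hasDerivAt_id s).const_mul (ψ x))
      rwa [mul_one] at h2
    have h3 := mvi (C := K * r ^ α) (x := x) (t := t) h1 (fun s hs => by
      refine (hHol s x).trans (mul_le_mul_of_nonneg_left ?_ hK)
      exact Real.rpow_le_rpow (abs_nonneg _)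
        ((abs_of_uIcc hs).trans (abs_of_uIcc ht)) hα.le)
    have h4 : h t - ψ x * t - (h x - ψ x * x) = h t - h x - ψ x * (t - x) := by ring
    rw [h4] at h3
    refine h3.trans ?_
    have h5 := abs_of_uIcc ht
    calc K * r ^ α * |t - x| ≤ K * r ^ α * r :=
          mul_le_mul_of_nonneg_left h5 (by positivity)
      _ = K * (r * r ^ α) := by ring
  -- a bound for the second order remainder of the exponential
  have hexp : ∀ z : ℝ, |z| ≤ K * r → |Real.exp z - 1 - z| ≤ E * (r * r) := by
    intro z hz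
    refine (expb z).trans ?_
    have h1 : |z| ≤ K := hz.trans (by nlinarith)
    have h2 : z ^ 2 ≤ (K * r) ^ 2 := by
      rw [← sq_abs z]
      exact pow_le_pow_left₀ (abs_nonneg z) hz 2
    calc z ^ 2 * Real.exp |z| ≤ (K * r) ^ 2 * Real.exp K :=
          mul_le_mul h2 (Real.exp_le_exp.2 h1) (Real.exp_pos _).le (by positivity)
      _ = E * (r * r) := by rw [hE]; ring
  -- the estimate for `Φ'`
  have hΦ' : ∀ t ∈ uIcc x y, |f' t / f' x - 1 - ψ x * (t - x)| ≤ (K + E) * (r * r ^ α) := by
    intro t ht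
    have h1 : f' t / f' x = Real.exp (h t - h x) := by
      rw [Real.exp_sub, Real.exp_log (hpos t), Real.exp_log (hpos x)]
    have h2 := hexp (h t - h x) (hK1 t ht)
    have h3 := hK2 t ht
    have h4 : f' t / f' x - 1 - ψ x * (t - x) =
        (Real.exp (h t - h x) - 1 - (h t - h x)) + (h t - h x - ψ x * (t - x)) := by
      rw [h1]; ring
    rw [h4]
    refine (abs_add_le _ _).trans ?_
    have h5 : E * (r * r) ≤ E * (r * r ^ α) := mul_le_mul_of_nonneg_left hrr hE0
    linarith
  -- integrate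
  have hΦ : |(f y - f x) / f' x - (y - x) - ψ x * (y - x) ^ 2 / 2| ≤
      (K + E) * (r * r ^ α) * r := by
    have h1 : ∀ s, HasDerivAt (fun s => f s / f' x - s - ψ x * (s - x) ^ 2 / 2)
        (f' s / f' x - 1 - ψ x * (s - x)) s := by
      intro s
      have h2 := (hf s).div_const (f' x)
      have h3 : HasDerivAt (fun s : ℝ => ψ x * (s - x) ^ 2 / 2) (ψ x * (s - x)) s := by
        have h4 := ((((hasDerivAt_id s).sub_const x).pow 2).const_mul (ψ x)).div_const 2
        refine h4.congr_deriv ?_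
        simp
        ring
      exact (h2.sub (hasDerivAt_id s)).sub h3
    have h5 := mvi (C := (K + E) * (r * r ^ α)) (x := x) (t := y) h1 hΦ'
    have h6 : f y / f' x - y - ψ x * (y - x) ^ 2 / 2 - (f x / f' x - x - ψ x * (x - x) ^ 2 / 2) =
        (f y - f x) / f' x - (y - x) - ψ x * (y - x) ^ 2 / 2 := by ring
    rw [h6] at h5
    exact h5
  obtain ⟨ξ, hξ, hslope⟩ := slope hf hxy
  have hyx0 : y - x ≠ 0 := sub_ne_zero.2 hxy.symm
  have hfx : f' x ≠ 0 := (hpos x).ne'
  have hR0 : 0 < (f y - f x) / (y - x) := by rw [← hslope]; exact hpos ξ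
  set z : ℝ := Real.log ((f y - f x) / (y - x)) - Real.log (f' x) with hz
  have hzK : |z| ≤ K * r := by
    have : z = h ξ - h x := by rw [hz, ← hslope]
    rw [this]
    exact hK1 ξ hξ
  have hez : Real.exp z = (f y - f x) / (y - x) / f' x := by
    rw [hz, Real.exp_sub, Real.exp_log hR0, Real.exp_log (hpos x)]
  have hR : |Real.exp z - 1 - ψ x / 2 * (y - x)| ≤ (K + E) * (r * r ^ α) := by
    have h1 : (Real.exp z - 1 - ψ x / 2 * (y - x)) * (y - x) =
        (f y - f x) / f' x - (y - x) - ψ x * (y - x) ^ 2 / 2 := by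
      rw [hez]
      field_simp
    have h2 : |Real.exp z - 1 - ψ x / 2 * (y - x)| * r ≤ (K + E) * (r * r ^ α) * r := by
      rw [hr, ← abs_mul, h1]
      exact hΦ
    exact le_of_mul_le_mul_right h2 hr0
  have hz1 : |z - ψ x / 2 * (y - x)| ≤ (K + 2 * E) * (r * r ^ α) := by
    have h1 : z - ψ x / 2 * (y - x) =
        (Real.exp z - 1 - ψ x / 2 * (y - x)) - (Real.exp z - 1 - z) := by ring
    rw [h1]
    refine (abs_sub _ _).trans ?_
    have h2 := hexp z hzK
    have h5 : E * (r * r) ≤ E * (r * r ^ α) := mul_le_mul_of_nonneg_left hrr hE0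
    linarith
  constructor
  · rw [hr1a]
    refine hz1.trans ?_
    have : 0 ≤ E * (r * r ^ α) := by positivity
    nlinarith
  · have hfyx : f y - f x ≠ 0 := by
      intro h0
      rw [h0, zero_div] at hR0
      exact lt_irrefl _ hR0
    refine ⟨(1 - Real.exp (-z)) / (y - x), ?_, ?_⟩
    · have h1 : HasDerivAt (fun t => f y - f t) (-(f' x)) x := by
        simpa using (hf x).const_sub (f y)
      have h2 : HasDerivAt (fun t : ℝ => y - t) (-1) x := by
        simpa using (hasDerivAt_id x).const_sub y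
      have h3 : HasDerivAt (fun t => Real.log ((f y - f t) / (y - t)))
          ((-(f' x) * (y - x) - (f y - f x) * (-1)) / (y - x) ^ 2 / ((f y - f x) / (y - x))) x :=
        (h1.div h2 hyx0).log hR0.ne'
      refine h3.congr_deriv ?_
      rw [Real.exp_neg, hez]
      field_simp
      ring
    · have h1 : (1 - Real.exp (-z)) / (y - x) - ψ x / 2 =
          ((z - ψ x / 2 * (y - x)) - (Real.exp (-z) - 1 - (-z))) / (y - x) := by
        field_simp
        ring
      rw [h1, abs_div, ← hr, div_le_iff₀ hr0]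
      refine (abs_sub _ _).trans ?_
      have h2 := hexp (-z) (by rwa [abs_neg])
      have h5 : E * (r * r) ≤ E * (r * r ^ α) := mul_le_mul_of_nonneg_left hrr hE0
      nlinarith

end Pool.Agent.Helper59.HX
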