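import Pool.Agent.Helper59.HX.St

/-!
# Project HX, module XRI: cross ratio distortion of the inverse
-/

set_option autoImplicit false

namespace Pool.Agent.Helper59.HX

open Set Pool.Agent.Helper82.HG

namespace XRI

/-- lower bound of the derivative -/
private theorem low {K : ℝ} {s : Equiv.Perm ℝ} (hK : 0 ≤ K) (hs : Nice K s) (x : ℝ) :
    Real.exp (-K) ≤ |deriv s x| := by
  obtain ⟨d, hd, hdeg⟩ := hs.deg
  obtain ⟨ξ, hξ, h1⟩ := exists_deriv_eq_slope (⇑s) (show x < x + 1 by linarith)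
    hs.diff.continuous.continuousOn (hs.diff.differentiableOn)
  have h2 : deriv s ξ = d := by
    rw [h1, hdeg x]
    ring
  have h3 : Real.log (|deriv s ξ|) = 0 := by
    rw [h2]
    rcases hd with rfl | rfl
    · simp
    · simp
  have h4 := hs.lip x ξ
  rw [h3, sub_zero] at h4
  have h5 : |x - ξ| ≤ 1 := by
    rw [abs_le]
    constructor
    · linarith [hξ.2]
    · linarith [hξ.1]
  have h6 : |Real.log (|deriv s x|)| ≤ K := h4.trans (mul_le_of_le_one_right hK h5)
  have h7 : 0 < |deriv s x| := abs_pos.2 (hs.ne x)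
  rw [← Real.exp_log h7]
  exact Real.exp_le_exp.2 (by linarith [(abs_le.1 h6).1])

/-- the map expands distances by at least `exp (-K)` -/
private theorem expand {K : ℝ} {s : Equiv.Perm ℝ} (hK : 0 ≤ K) (hs : Nice K s) (x y : ℝ) :
    Real.exp (-K) * |x - y| ≤ |s x - s y| := by
  have key : ∀ x y : ℝ, y < x → Real.exp (-K) * |x - y| ≤ |s x - s y| := by
    intro x y hxy
    obtain ⟨ξ, -, h1⟩ := exists_deriv_eq_slope (⇑s) hxy
      hs.diff.continuous.continuousOn (hs.diff.differentiableOn)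
    have hne : x - y ≠ 0 := (sub_pos.2 hxy).ne'
    have h2 : s x - s y = deriv s ξ * (x - y) := by
      rw [h1]
      field_simp
    rw [h2, abs_mul]
    exact mul_le_mul_of_nonneg_right (low hK hs ξ) (abs_nonneg _)
  rcases lt_trichotomy x y with h | h | h
  · rw [abs_sub_comm x y, abs_sub_comm (s x) (s y)]
    exact key y x h
  · subst h
    simp
  · exact key x y h

private theorem mono {K : ℝ} {s : Equiv.Perm ℝ} (hs : Nice K s) :
    StrictMono s ∨ StrictAnti s :=
  hs.diff.continuous.strictMono_of_inj s.injective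

private theorem far {K : ℝ} {s : Equiv.Perm ℝ} (hs : Nice K s) (x y : ℝ) (h : y + 1 < x) :
    1 < |s x - s y| := by
  obtain ⟨d, hd, hdeg⟩ := hs.deg
  have h1 := hdeg y
  rcases mono hs with hm | hm
  · have h2 := hm h
    have h3 := hm (show y < y + 1 by linarith)
    have hd1 : d = 1 := by
      rcases hd with rfl | rfl
      · rfl
      · linarith
    rw [lt_abs]
    left
    linarith
  · have h2 := hm h
    have h3 := hm (show y < y + 1 by linarith)
    have hd1 : d = -1 := by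
      rcases hd with rfl | rfl
      · linarith
      · rfl
    rw [lt_abs]
    right
    linarith

private theorem near {K : ℝ} {s : Equiv.Perm ℝ} (hs : Nice K s) (x y : ℝ)
    (h : |s x - s y| ≤ 1) : |x - y| ≤ 1 := by
  rw [abs_le]
  constructor
  · by_contra hc
    have h1 := far hs y x (by linarith)
    rw [abs_sub_comm] at h1
    linarith
  · by_contra hc
    have h1 := far hs x y (by linarith)
    linarith

end XRI

open XRI in
/-- cross ratio distortion of the inverse -/
theorem tXRI (_h : StBAS) : StXRI := by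
  intro K C α s hK hC hα hα1 hs hH
  intro c a b d hord hdc
  have e : ∀ x, s (s⁻¹ x) = x := fun x => s.apply_symm_apply x
  have hcon : ∀ x y, |s⁻¹ x - s⁻¹ y| ≤ Real.exp K * |x - y| := by
    intro x y
    have h1 := expand hK hs (s⁻¹ x) (s⁻¹ y)
    rw [e, e] at h1
    have h2 : |s⁻¹ x - s⁻¹ y| = Real.exp K * (Real.exp (-K) * |s⁻¹ x - s⁻¹ y|) := by
      rw [← mul_assoc, ← Real.exp_add]
      simp
    rw [h2]
    exact mul_le_mul_of_nonneg_left h1 (Real.exp_pos K).le
  have hord' : (⟨s⁻¹ c, s⁻¹ a, s⁻¹ b, s⁻¹ d⟩ : Qd).ord := by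
    rcases mono hs with hm | hm
    · have hi : ∀ x y, x < y → s⁻¹ x < s⁻¹ y := by
        intro x y hxy
        rw [← hm.lt_iff_lt, e, e]
        exact hxy
      rcases hord with ⟨h1, h2, h3⟩ | ⟨h1, h2, h3⟩
      · exact Or.inl ⟨hi _ _ h1, hi _ _ h2, hi _ _ h3⟩
      · exact Or.inr ⟨hi _ _ h1, hi _ _ h2, hi _ _ h3⟩
    · have hi : ∀ x y, x < y → s⁻¹ y < s⁻¹ x := by
        intro x y hxy
        rw [← hm.lt_iff_gt, e, e]
        exact hxy
      rcases hord with ⟨h1, h2, h3⟩ | ⟨h1, h2, h3⟩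
      · exact Or.inr ⟨hi _ _ h3, hi _ _ h2, hi _ _ h1⟩
      · exact Or.inl ⟨hi _ _ h3, hi _ _ h2, hi _ _ h1⟩
  have hdc' : |s⁻¹ d - s⁻¹ c| ≤ 1 := by
    apply near hs
    rw [e, e]
    exact hdc
  have h := hH (s⁻¹ c) (s⁻¹ a) (s⁻¹ b) (s⁻¹ d) hord' hdc'
  rw [e, e, e, e, abs_sub_comm] at h
  refine h.trans ?_
  rw [mul_assoc]
  refine mul_le_mul_of_nonneg_left ?_ hC
  unfold cst Qd.Y
  have hY : |s⁻¹ d - s⁻¹ c| ^ α ≤ Real.exp K * |d - c| ^ α := by
    calc |s⁻¹ d - s⁻¹ c| ^ α ≤ (Real.exp K * |d - c|) ^ α :=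
          Real.rpow_le_rpow (abs_nonneg _) (hcon d c) hα.le
      _ = Real.exp K ^ α * |d - c| ^ α := Real.mul_rpow (Real.exp_pos K).le (abs_nonneg _)
      _ ≤ Real.exp K * |d - c| ^ α := by
          refine mul_le_mul_of_nonneg_right ?_ (Real.rpow_nonneg (abs_nonneg _) _)
          calc Real.exp K ^ α ≤ Real.exp K ^ (1 : ℝ) :=
                Real.rpow_le_rpow_of_exponent_le (Real.one_le_exp hK) hα1
            _ = Real.exp K := Real.rpow_one _
  have hmin : min |s⁻¹ b - s⁻¹ c| |s⁻¹ d - s⁻¹ a| ≤ Real.exp K * min |b - c| |d - a| := by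
    rw [mul_min_of_nonneg _ _ (Real.exp_pos K).le]
    exact min_le_min (hcon b c) (hcon d a)
  calc min |s⁻¹ b - s⁻¹ c| |s⁻¹ d - s⁻¹ a| * |s⁻¹ d - s⁻¹ c| ^ α
      ≤ (Real.exp K * min |b - c| |d - a|) * (Real.exp K * |d - c| ^ α) := by
        refine mul_le_mul hmin hY (Real.rpow_nonneg (abs_nonneg _) _) ?_
        exact mul_nonneg (Real.exp_pos K).le (le_min (abs_nonneg _) (abs_nonneg _))
    _ = Real.exp (2 * K) * (min |b - c| |d - a| * |d - c| ^ α) := by
        have : Real.exp (2 * K) = Real.exp K * Real.exp K := by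
          rw [← Real.exp_add]
          congr 1
          ring
        rw [this]
        ring

end Pool.Agent.Helper59.HX
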