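import Pool.Agent.Helper59.HX.Defs
import Pool.Agent.Helper82.HG.St2

/-!
# MP_10ef18_an (Hector's conjecture for `C^{2+α}` groups), statements of the modules

Each `StXX : Prop` is proved in the module `Pool/Agent/Helper59/HX/M_XX.lean` as
`theorem tXX : StXX`, or `theorem tXX : StYY → StXX` when the docstring says so (helper82's proved
statements `StBAS`, `StLAM`, `StSUM`, `StSEP`, `StREP` of `Pool.Agent.Helper82.HG` may also be taken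
as hypotheses, or used through the modules `Pool.Agent.Helper82.HG.M_BAS` etc.).
-/

set_option autoImplicit false

namespace Pool.Agent.Helper59.HX

open Set Pool.Agent.Helper82.HG

/-! ## Group I: orbits of gaps and of quadruples -/

/-- MODULE OGB (`theorem tOGB : StBAS → StLAM → StOGB`). Basic properties of the orbit of a gap.
PROOF. Unfold; `act g (act h v) = act (g * h) v`; StLAM (g) for the gap property, (f) for the length,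
`T ^ m ∈ Gr S` and `(T ^ m) x = x + m`. -/
def StOGB : Prop :=
  ∀ (K : ℝ) (S : Set (Equiv.Perm ℝ)) (Λ : Set ℝ) (v : ℝ × ℝ), Gens K S → Lam S Λ → Gap Λ v.1 v.2 →
    v ∈ OG S v ∧ (∀ u ∈ OG S v, (u.2, u.1) ∈ OG S v) ∧
    (∀ u ∈ OG S v, ∀ g ∈ Gr S, act g u ∈ OG S v) ∧
    (∀ u ∈ OG S v, Gap Λ (min u.1 u.2) (max u.1 u.2) ∧ |u.2 - u.1| ≤ 1 ∧ u.1 ≠ u.2) ∧
    (∀ u ∈ OG S v, ∀ m : ℤ, (u.1 + m, u.2 + m) ∈ OG S v) ∧
    (∀ u ∈ OG S v, ∀ Θ, Tot S v Θ → Tot S u Θ)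

/-- MODULE PRB (`theorem tPRB : StBAS → StLAM → StOGB → StPRB`). Basic properties of quadruples.
PROOF. (1) `g` is strictly monotone or antitone (StBAS), so it preserves `ord`; StOGB. (2) the two gaps
are different, so StLAM (h) gives `u.2 < u'.1` or `u'.2 < u.1`, the second is excluded by
`u.1 ≤ u'.1 < u'.2`. (3) StOGB and the inequalities in `ord`. -/
def StPRB : Prop :=
  ∀ (K : ℝ) (S : Set (Equiv.Perm ℝ)) (Λ : Set ℝ) (v w : ℝ × ℝ), Gens K S → Lam S Λ →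
    Gap Λ v.1 v.2 → Gap Λ w.1 w.2 →
    (∀ q ∈ Pr S v w, ∀ g ∈ Gr S, qact g q ∈ Pr S v w) ∧
    (∀ u ∈ OG S v, ∀ u' ∈ OG S w, u.1 < u.2 → u'.1 < u'.2 → u ≠ u' → u.1 ≤ u'.1 →
      u.2 < u'.1 ∧ (⟨u.1, u.2, u'.1, u'.2⟩ : Qd) ∈ Pr S v w) ∧
    (∀ q ∈ Pr S v w, 0 < q.X ∧ 0 < q.u ∧ 0 < q.w ∧ q.Y = q.X + q.u + q.w ∧
      |q.b - q.c| = q.X + q.u ∧ |q.d - q.a| = q.X + q.w ∧ q.u ≤ 1 ∧ q.w ≤ 1 ∧
      Gap Λ (min q.c q.a) (max q.c q.a) ∧ Gap Λ (min q.b q.d) (max q.b q.d))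

/-! ## Group X: the cross ratio distortion estimate -/

/-- MODULE XF (`theorem tXF : StXF`). Estimates for `F(x,y) = log ((f y - f x)/(y - x))`.
Here `h = log f'`, `ψ = h'`, `|ψ| ≤ K`, `ψ` is `α`-Hölder.
PROOF. Let `|t - x| ≤ 1`. Mean value theorem: `|h t - h x| ≤ K|t-x|` and
`|h t - h x - ψ x (t-x)| ≤ K|t-x|^(1+α)`. With `|e^z - 1 - z| ≤ z² e^|z|` (`Real.abs_exp_sub_one_sub_id_le`
needs `|z| ≤ 1`, so prove the general one, e.g. by Taylor/monotonicity, or use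
`Real.exp_bound'`-free: `|e^z - 1 - z| ≤ z^2 * exp |z|`) one gets
`|f' t/f' x - 1 - ψ x (t-x)| ≤ C₁ |t-x|^(1+α)`, `C₁ = K + K² e^K` (`|t-x|² ≤ |t-x|^(1+α)`). The function
`Φ t = f t/f' x - t - ψ x (t-x)²/2` has `|Φ'| ≤ C₁|y-x|^(1+α)` between `x` and `y`, so
`(f y - f x)/(f' x (y-x)) = 1 + ψ x (y-x)/2 + E`, `|E| ≤ C₁|y-x|^(1+α)`. By the mean value theorem
`z := F(x,y) - h x = h ξ - h x`, `|z| ≤ K|y-x|`, and `e^z = 1 + ψ x (y-x)/2 + E`, so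
`|z - ψ x (y-x)/2| ≤ |E| + z² e^K ≤ C₂|y-x|^(1+α)`. Derivative in `x`:
`D = 1/(y-x) - f' x/(f y - f x) = (1 - e^(-z))/(y-x)`, and `|1 - e^(-z) - z| ≤ z² e^K`, so
`|D - ψ x/2| ≤ C₃|y-x|^α`. -/
def StXF : Prop :=
  ∀ (K α : ℝ), 0 ≤ K → 0 < α → α ≤ 1 → ∃ C : ℝ, 0 ≤ C ∧ ∀ (f f' ψ : ℝ → ℝ),
    (∀ x, HasDerivAt f (f' x) x) → (∀ x, 0 < f' x) →
    (∀ x, HasDerivAt (fun t => Real.log (f' t)) (ψ x) x) → (∀ x, |ψ x| ≤ K) →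
    (∀ x y, |ψ x - ψ y| ≤ K * |x - y| ^ α) →
    ∀ x y : ℝ, x ≠ y → |y - x| ≤ 1 →
      |Real.log ((f y - f x) / (y - x)) - Real.log (f' x) - ψ x / 2 * (y - x)| ≤
        C * |y - x| ^ (1 + α) ∧
      ∃ D : ℝ, HasDerivAt (fun t => Real.log ((f y - f t) / (y - t))) D x ∧
        |D - ψ x / 2| ≤ C * |y - x| ^ α

/-- MODULE XB (`theorem tXB : StXF → StXB`). The cross ratio distortion estimate.
PROOF. (1) Case `f' > 0`, `c < a < b < d`, `d - c ≤ 1`. With `F(x,y) = log((f y - f x)/(y-x))`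
(symmetric in `x`, `y`) the logarithmic distortion is
`B = F(a,b) + F(c,d) - F(c,a) - F(b,d) = (F(a,b) - F(a,c)) - (F(b,d) - F(c,d))`. StXF (first part at
`x = a`) : `|F(a,b) - F(a,c) - ψ a (b-c)/2| ≤ 2 C (b-c)^(1+α)`. Mean value theorem for
`t ↦ F(t,d)` on `[c,b]` (second part): `F(b,d) - F(c,d) = (b-c) D`, `|D - ψ ξ/2| ≤ C (d-c)^α`. So
`|B| ≤ (b-c)(K/2 + 3C)(d-c)^α`. (2) The bound with `(d-a)` instead of `(b-c)`: apply (1) to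
`x ↦ -f(-x)` and `(-d,-b,-a,-c)` (its `ψ` is `-ψ(-x)`). Together: the min. (3) Decreasing order
`c > a > b > d`: the cross ratio and the cost are invariant under `(c,a,b,d) ↦ (d,b,a,c)`. (4) `f' < 0`: replace `f` by
`-f` (absolute values do not change). -/
def StXB : Prop :=
  ∀ (K α : ℝ), 0 ≤ K → 0 < α → α ≤ 1 → ∃ C : ℝ, 0 ≤ C ∧ ∀ (f f' ψ : ℝ → ℝ),
    (∀ x, HasDerivAt f (f' x) x) → ((∀ x, 0 < f' x) ∨ (∀ x, f' x < 0)) →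
    (∀ x, HasDerivAt (fun t => Real.log |f' t|) (ψ x) x) → (∀ x, |ψ x| ≤ K) →
    (∀ x y, |ψ x - ψ y| ≤ K * |x - y| ^ α) → H2 C α f

/-- MODULE XRI (`theorem tXRI : StBAS → StXRI`). The estimate for the inverse.
PROOF. `|s'| = 1` somewhere in `[x, x+1]` (mean value theorem, `|s(x+1) - s x| = 1`), so
`e^(-K) ≤ |s'| ≤ e^K` and `|s⁻¹ x - s⁻¹ y| ≤ e^K |x-y|`; `s⁻¹` is strictly monotone or antitone and
`s⁻¹ (x+1) = s⁻¹ x ± 1`, so `|x - y| ≤ 1` implies `|s⁻¹ x - s⁻¹ y| ≤ 1`. Apply `H2` for `s` to the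
quadruple of the preimages: its cost is at most `e^K * e^(K α) ≤ e^(2K)` times the cost. -/
def StXRI : Prop :=
  ∀ (K C α : ℝ) (s : Equiv.Perm ℝ), 0 ≤ K → 0 ≤ C → 0 < α → α ≤ 1 → Nice K s → H2 C α s →
    H2 (C * Real.exp (2 * K)) α (⇑s⁻¹)

/-- MODULE LP2 (`theorem tLP2 : StXB → StXRI → StLP2`). The generating set.
PROOF. `S = {F i} ∪ {(F i)⁻¹}` as in helper82's module LIP (Pool/Agent/Helper82/HG/M_LIP.lean, reuse its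
proof: it gives `K₁`, `Gens K₁ S` and the equality of groups). Put `α' = min α 1`. `F'`, `F''` are
continuous and periodic, so `|F'| ≥ 1/B`, `|F'| ≤ B`, `|F''| ≤ B`; `ψ = F''/F'` satisfies `|ψ| ≤ B²` and
`|ψ x - ψ y| ≤ B |F'' x - F'' y| + B³ |x - y| ≤ (B C + B³) |x-y|^α'` for `|x-y| ≤ 1`, and
`≤ 2 B² ≤ 2 B² |x-y|^α'` for `|x-y| ≥ 1`. StXB gives `H2` for `F i`, StXRI for the inverse. Take the
maximum of all constants over the finitely many `i` (`H2` is monotone in the constant). -/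
def StLP2 : Prop :=
  ∀ (n : ℕ) (F : Fin n → Equiv.Perm ℝ) (α C : ℝ), 0 < α →
    (∀ i, ContDiff ℝ 2 (⇑(F i))) →
    (∀ i x, deriv (⇑(F i)) x ≠ 0) →
    (∀ i, ∃ d : ℝ, (d = 1 ∨ d = -1) ∧ ∀ x : ℝ, F i (x + 1) = F i x + d) →
    (∀ i x y, |deriv (deriv (⇑(F i))) x - deriv (deriv (⇑(F i))) y| ≤ C * |x - y| ^ α) →
    ∃ (K : ℝ) (S : Set (Equiv.Perm ℝ)), 1 ≤ K ∧ Gens K S ∧ (∀ s ∈ S, H2 K (min α 1) (⇑s)) ∧
      Gr S = Subgroup.closure (insert (Equiv.addRight (1 : ℝ)) (Set.range F))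

/-! ## Group P: paths -/

/-- MODULE ABS (`theorem tABS : StABS`). Shortest paths: abstract lemma.
PROOF. For `x` reachable let `m x` be the least length of a path from `x₀`. By strong induction on
`n = m x`: there is a finset `𝔽` of points, all reachable, with `m < n` and `V ≤ L`, and
`V x ≤ V x₀ + ∑_𝔽 c` (so `V x ≤ V x₀ + η ≤ L`). `n = 0`: `𝔽 = ∅`. Step: a shortest path to `x` ends with `R y x`,
`m y = n - 1`; take `𝔽_y` and `V y ≤ L` from the induction hypothesis and `𝔽 = insert y 𝔽_y` (`y ∉ 𝔽_y`). -/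
def StABS : Prop :=
  ∀ (X : Type) (R : X → X → Prop) (V c : X → ℝ) (η L : ℝ) (x₀ : X), (∀ x, 0 ≤ c x) →
    (∀ x y, R x y → V x ≤ L → V y ≤ V x + c x) →
    (∀ F : Finset X, (∀ x ∈ F, Relation.ReflTransGen R x₀ x ∧ V x ≤ L) → ∑ x ∈ F, c x ≤ η) →
    V x₀ + η ≤ L → ∀ x, Relation.ReflTransGen R x₀ x → V x ≤ L

/-- MODULE PTH (`theorem tPTH : StBAS → StABS → StPTH`). Control of the cross ratio along all words.
PROOF. For a quadruple let `nrm q` be `q` translated by `-⌊q.c⌋`. `cr`, `cst`, `X`, `Y` are translation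
invariant. StABS with `X = Qd`, `R q q' := ∃ s ∈ S, q' = nrm (qact s q)`, `x₀ = nrm q₀`,
`V = log ∘ cr`, `c = K' * cst α`. Everything reachable is `qact g q₀` for some `g ∈ Gr S` (translations
are in `Gr S`) and has `0 ≤ c < 1` (`x₀` too), `ord` is preserved. The step inequality is `H2` (hypothesis
`hY` gives `Y ≤ 1`). Conversely `nrm (qact g q₀)` is reachable for all `g ∈ Gr S`, by induction
(`Subgroup.closure_induction_left`; `s⁻¹ ∈ S`): `s (x + m) = s x ± m` gives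
`nrm (qact s (nrm q)) = nrm (qact s q)`. -/
def StPTH : Prop :=
  ∀ (K K' α : ℝ) (S : Set (Equiv.Perm ℝ)), Gens K S → 0 ≤ K' → (∀ s ∈ S, H2 K' α (⇑s)) →
    ∀ (q₀ : Qd) (η L : ℝ), q₀.ord →
    (∀ g ∈ Gr S, Real.log (cr (qact g q₀)) ≤ L → (qact g q₀).Y ≤ 1) →
    (∀ F : Finset Qd, (∀ q ∈ F, (∃ g ∈ Gr S, q = qact g q₀) ∧ 0 ≤ q.c ∧ q.c < 1 ∧
      Real.log (cr q) ≤ L) → ∑ q ∈ F, K' * cst α q ≤ η) →
    Real.log (cr q₀) + η ≤ L → ∀ g ∈ Gr S, Real.log (cr (qact g q₀)) ≤ L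

/-! ## Group C: counting -/

/-- MODULE SPG (`theorem tSPG : StBAS → StLAM → StOGB → StPRB → StSPG`). Separation of gaps of
comparable length in one orbit.
PROOF. (1) `u ≠ u'`, WLOG `u.1 ≤ u'.1`: StPRB gives the quadruple `q`; `χ₁ ≤ X Y/(ℓ ℓ')`,
`ℓ, ℓ' > a/2`, `X ≤ Y`, so `Y ≥ a √χ₁/2`; `u'.1 - u.1 = Y - ℓ' ≥ a√χ₁/2 - a` and
`u'.1 - u.1 > ℓ > a/2`; the greater of the two is at least `a √χ₁/6`. (2) the gap `(u.1+1, u.2+1)` is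
another gap of the orbit, the quadruple `(u.1, u.2, u.1+1, u.2+1)` is in `Pr S v v` (StPRB) and has
cross ratio `(1-ℓ)(1+ℓ)/ℓ² ≤ 1/ℓ²`. -/
def StSPG : Prop :=
  ∀ (K : ℝ) (S : Set (Equiv.Perm ℝ)) (Λ : Set ℝ) (v : ℝ × ℝ) (χ₁ : ℝ), Gens K S → Lam S Λ →
    Gap Λ v.1 v.2 → 1 ≤ χ₁ → (∀ q ∈ Pr S v v, χ₁ ≤ cr q) →
    (∀ a : ℝ, 0 < a → ∀ u ∈ OG S v, ∀ u' ∈ OG S v, u.1 < u.2 → u'.1 < u'.2 → a / 2 < u.2 - u.1 →
      u.2 - u.1 ≤ a → a / 2 < u'.2 - u'.1 → u'.2 - u'.1 ≤ a → u ≠ u' →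
      a * √χ₁ / 6 ≤ |u.1 - u'.1|) ∧
    (∀ u ∈ OG S v, |u.2 - u.1| * √χ₁ ≤ 1)

/-- MODULE CNT (`theorem tCNT : StCNT`). Separated real numbers in an interval.
PROOF. Sort, or: the intervals `[y, y + σ)`, `y ∈ s`, are disjoint and contained in `[x, x+L+σ)`; or
induction on the cardinality removing the greatest element. -/
def StCNT : Prop :=
  ∀ (s : Finset ℝ) (x L σ : ℝ), 0 < σ → 0 ≤ L → (∀ y ∈ s, x ≤ y ∧ y ≤ x + L) →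
    (∀ y ∈ s, ∀ z ∈ s, y ≠ z → σ ≤ |y - z|) → (s.card : ℝ) ≤ 1 + L / σ

/-- MODULE CGA (`theorem tCGA : StSPG → StCNT → StCGA`). Number of gaps of an orbit of comparable
length with left end point in an interval of length `L`.
PROOF. `u ↦ u.1` is injective on `t` by StSPG; StCNT with `σ = a √χ₁/6`. -/
def StCGA : Prop :=
  ∀ (K : ℝ) (S : Set (Equiv.Perm ℝ)) (Λ : Set ℝ) (v : ℝ × ℝ) (χ₁ : ℝ), Gens K S → Lam S Λ →
    Gap Λ v.1 v.2 → 1 ≤ χ₁ → (∀ q ∈ Pr S v v, χ₁ ≤ cr q) →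
    ∀ (a x L : ℝ) (t : Finset (ℝ × ℝ)), 0 < a → 0 ≤ L →
      (∀ u ∈ t, u ∈ OG S v ∧ u.1 < u.2 ∧ a / 2 < u.2 - u.1 ∧ u.2 - u.1 ≤ a ∧
        x ≤ u.1 ∧ u.1 ≤ x + L) → (t.card : ℝ) ≤ 1 + 6 * L / (a * √χ₁)

/-- MODULE CLS (`theorem tCLS : StBAS → StLAM → StOGB → StPRB → StSPG → StCGA → StCLS`). Number of
quadruples in a class.
PROOF. Put `A = a√χ₁`, `B = b√χ₂`; if `F` is nonempty then `A, B ≤ 2` (StSPG, second part), and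
`a ≤ A`, `b ≤ B`, `a, b ≤ 2`. (i) First gap first: the set of the intervals `(min c a, max c a)` has left end points
in `[-1, 1]`: at most `1 + 12/A ≤ 14/A` of them (StCGA, `L = 2`). For each of them and each of the two
orders the second gap is determined by its left end point: increasing order: `b ∈ [a, a + X₀]`;
decreasing order: `d ∈ [a - X₀ - b', a]` (`b'` the class parameter): at most `1 + 6(X₀ + b')/B ≤ 7 + 6X₀/B`.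
So `card F ≤ 2 (14/A)(7 + 6X₀/B) ≤ 196/A + 168 X₀/(AB)`. (ii) Second gap first: its left end point is in
`[-3, 4]` (`0 ≤ c < 1`, `u, w ≤ 1`, `X ≤ 1`): at most `1 + 42/B ≤ 44/B`; the partner has left end
point in an interval of length `X₀ + a`: at most `7 + 6X₀/A`. So `card F ≤ 616/B + 528 X₀/(AB)`.
(Use `Finset.card_le_mul_card_image` or a double count; split `F` in the two orders.) -/
def StCLS : Prop :=
  ∀ (K : ℝ) (S : Set (Equiv.Perm ℝ)) (Λ : Set ℝ) (v w : ℝ × ℝ) (χ₁ χ₂ χ : ℝ),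
    Pack K S Λ v w χ₁ χ₂ χ → ∀ (a b X₀ : ℝ) (F : Finset Qd), 0 < a → 0 < b → 0 ≤ X₀ → X₀ ≤ 1 →
      (∀ q ∈ F, q ∈ Pr S v w ∧ 0 ≤ q.c ∧ q.c < 1 ∧ Cl a b q ∧ q.X ≤ X₀) →
      (F.card : ℝ) ≤ 616 / max (a * √χ₁) (b * √χ₂) + 528 * X₀ / (a * √χ₁ * (b * √χ₂))

/-- MODULE CLC (`theorem tCLC : StBAS → StLAM → StPRB → StCLS → StCLC`). Cost of a class.
PROOF. Let `F ≠ ∅`, `p = χ a b`, `A = a√χ₁`, `B = b√χ₂` (`A B ≥ p` from `sq`, `A ≥ a`, `B ≥ b`), `Xm` the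
greatest `X` on `F` (attained at `q₁`), `m = min a b`, `Y' = Xm + a + b`. For `q ∈ F`:
`X Y = cr q * u * w ≤ 4χ u w ≤ 4p ≤ 1` and `X Y ≥ χ u w ≥ p/4`, `Y = X + u + w` (StPRB). So
`Xm² ≤ 4p`, `Xm ≤ 1`, `Xm Y' ≤ 2 Xm Y(q₁) ≤ 8p`, `Y' ≥ √p/2`. `cst α q ≤ (Xm + m) Y'^α`. StCLS with
`X₀ = Xm`: `card F * (Xm + m) ≤ 616 Xm/√p + 616 m/max a b + 528 Xm²/p + 528 Xm/√p ≤
2200 Xm/√p + 616 m/max a b` (`max A B ≥ √(AB) ≥ √p`, `m ≤ min A B`, so `Xm m/(AB) ≤ Xm/max A B`;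
`Xm²/p ≤ 2Xm/√p`). Next `Xm/√p * Y'^α ≤ 8 √p Y'^(α-1) ≤ 16 p^(α/2)` (`α ≤ 1`, `Y' ≥ √p/2`), and
`Y' ≤ 2√p + 2 max a b ≤ 4 max (√p) (max a b)`, so `Y'^α ≤ 4 (p^(α/2) + (max a b)^α)` and
`(m/max)(max)^α ≤ (m/max)^(α/2) max^α = (ab)^(α/2) ≤ p^(α/2)`. Total `≤ (2200*16 + 616*8) p^(α/2)`. -/
def StCLC : Prop :=
  ∀ (K : ℝ) (S : Set (Equiv.Perm ℝ)) (Λ : Set ℝ) (v w : ℝ × ℝ) (χ₁ χ₂ χ : ℝ),
    Pack K S Λ v w χ₁ χ₂ χ → ∀ (α a b : ℝ) (F : Finset Qd), 0 < α → α ≤ 1 → 0 < a → 0 < b →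
      χ * a * b ≤ 1 / 4 →
      (∀ q ∈ F, q ∈ Pr S v w ∧ 0 ≤ q.c ∧ q.c < 1 ∧ Cl a b q ∧ cr q ≤ 4 * χ) →
      ∑ q ∈ F, cst α q ≤ 50000 * (χ * a * b) ^ (α / 2)

/-- MODULE TOT (`theorem tTOT : StBAS → StLAM → StPRB → StCLC → StTOT`). Cost of all controlled
quadruples.
PROOF. For `0 < x ≤ M` there is a unique `i : ℕ` with `M 2^(-i-1) < x ≤ M 2^(-i)`. Partition `F` by the pair
`(i, j)` belonging to `(u, M₁)` and `(w, M₂)`: StCLC with `a = M₁ 2^(-i)`, `b = M₂ 2^(-j)` gives at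
most `50000 P₀^(α/2) r^i r^j`, `r = 2^(-α/2) < 1`. Sum over a finite set of pairs
`≤ 50000 P₀^(α/2) (1-r)^(-2)` (`Finset.sum_fiberwise_of_maps_to`, geometric series). -/
def StTOT : Prop :=
  ∀ (K : ℝ) (S : Set (Equiv.Perm ℝ)) (Λ : Set ℝ) (v w : ℝ × ℝ) (χ₁ χ₂ χ : ℝ),
    Pack K S Λ v w χ₁ χ₂ χ → ∀ (α M₁ M₂ : ℝ) (F : Finset Qd), 0 < α → α ≤ 1 → 0 < M₁ → 0 < M₂ →
      χ * M₁ * M₂ ≤ 1 / 4 →
      (∀ q ∈ F, q ∈ Pr S v w ∧ 0 ≤ q.c ∧ q.c < 1 ∧ q.u ≤ M₁ ∧ q.w ≤ M₂ ∧ cr q ≤ 4 * χ) →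
      ∑ q ∈ F, cst α q ≤ 50000 * (χ * M₁ * M₂) ^ (α / 2) * ((1 - 2 ^ (-α / 2))⁻¹) ^ 2

/-! ## Group E: the end -/

/-- MODULE MIN (`theorem tMIN : StBAS → StLAM → StPRB → StMIN`). Minimality: some translate of every
quadruple is macroscopic.
PROOF. Fix a gap `(x₀, y₀)` of `Λ` (`Λ ≠ univ`, StLAM (e)) and `ℓ = y₀ - x₀`. For `q ∈ Pr S v w` let
`p = min q.a q.b < r = max q.a q.b`; `p, r ∈ Λ`; `p` is the right end point of a gap (one of the two gaps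
of `q`), so StLAM (c) gives a point of `Λ` in `(p, r)`. StLAM (d) with `x = x₀`, `U = (p, r)`: `g ∈ Gr S`
with `g x₀ ∈ (p, r)`. The gap with end points `g x₀, g y₀` does not contain `p`, `r ∈ Λ`, so
`g y₀ ∈ [p, r]`. `g⁻¹` is monotone or antitone, so
`|g⁻¹ p - g⁻¹ r| ≥ |x₀ - y₀|`, and `(qact g⁻¹ q).X = |g⁻¹ p - g⁻¹ r|`. -/
def StMIN : Prop :=
  ∀ (K : ℝ) (S : Set (Equiv.Perm ℝ)) (Λ : Set ℝ), Gens K S → Lam S Λ → ∃ ℓ : ℝ, 0 < ℓ ∧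
    ∀ v w : ℝ × ℝ, Gap Λ v.1 v.2 → Gap Λ w.1 w.2 → ∀ q ∈ Pr S v w,
      ∃ g ∈ Gr S, ℓ ≤ (qact g q).X

/-- MODULE CR1 (`theorem tCR1 : StBAS → StLAM → StOGB → StPRB → StSEP → StCR1`). The cross ratio of two
gaps of small orbits is at least one.
PROOF. Let `q ∈ Pr S v w`. Name the left one of its two gaps `(x,y)` (length `ℓ`) and the right one
`(x',y')` (length `ℓ'`), `X = x' - y`. `Tot S (x,y) Θ`, `Tot S (x',y') Θ` with `Θ = 1/(1024 K)` (StOGB,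
last part and second part). StSEP with `ρ = 4ℓ`, `ρ' = 4ℓ'`:
`64 K Θ (ℓ + 8ℓ) = 9ℓ/16 ≤ ℓ`. So `X ≥ min ℓ ℓ'`, `Y ≥ max ℓ ℓ'`, `cr q = X Y/(ℓ ℓ') ≥ 1`. -/
def StCR1 : Prop :=
  ∀ (K : ℝ) (S : Set (Equiv.Perm ℝ)) (Λ : Set ℝ) (v w : ℝ × ℝ), 1 ≤ K → Gens K S → Lam S Λ →
    Gap Λ v.1 v.2 → Gap Λ w.1 w.2 → Tot S v (1 / (1024 * K)) → Tot S w (1 / (1024 * K)) →
    ∀ q ∈ Pr S v w, 1 ≤ cr q

/-- the conclusion of the theorem -/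
def Fin_ (S : Set (Equiv.Perm ℝ)) (Λ : Set ℝ) : Prop :=
  ∃ s : Finset (ℝ × ℝ), ∀ a b : ℝ, Gap Λ a b → ∃ p ∈ s, ∃ g ∈ Gr S, ⇑g '' Ioo p.1 p.2 = Ioo a b

/-- MODULE SEL (`theorem tSEL : StBAS → StLAM → StSUM → StREP → StOGB → StSEL`). Infinitely many orbits
give two nearly maximal gaps close to each other.
PROOF. As in helper82's module MAIN: for every `N` there are `N` pairwise inequivalent gaps
(`¬ Fin_`: induction), StREP gives `Θ_i`, `t_i` with `Θ_i/4 ≤ ∑_{t_i}` lengths, and StSUM `∑ Θ_i ≤ 4`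
(the `t_i` are disjoint and their union consists of gaps that are pairwise different modulo
translation: first end points in `[0,1)`). `t_i` is nonempty (`Θ_i > 0`) and `Tot S · Θ_i` holds for
its elements, hence for all elements of the orbit (StOGB). In the `i`-th orbit choose `u_i` with `u_i.1 < u_i.2`, `0 ≤ u_i.1 < 1` and length at
least half the supremum of the lengths (a bounded set of positive numbers); `Tot S u_i Θ_i` by StOGB.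
At most `4/Θ` indices have `Θ_i > Θ`, at most `2/δ` have length `≥ δ/2` (StSUM). If
`N > 4/Θ + 4/δ + 2` more than `2/δ + 1` indices remain, so two of them have
`|u_i.1 - u_j.1| ≤ δ/2` (pigeonhole), `u_i.1 < u_j.1` say; then `u_i.2 < u_j.1` and
`u_j.2 - u_i.1 ≤ δ`. (`Tot` is monotone in `Θ`.) -/
def StSEL : Prop :=
  ∀ (K : ℝ) (S : Set (Equiv.Perm ℝ)) (Λ : Set ℝ), Gens K S → Lam S Λ → ¬ Fin_ S Λ →
    ∀ δ > 0, ∀ Θ > 0, ∃ v w : ℝ × ℝ, Gap Λ v.1 v.2 ∧ Gap Λ w.1 w.2 ∧ v.2 < w.1 ∧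
      w.2 - v.1 ≤ δ ∧ Tot S v Θ ∧ Tot S w Θ ∧
      (∀ u ∈ OG S v, |u.2 - u.1| ≤ 2 * (v.2 - v.1)) ∧ (∀ u ∈ OG S w, |u.2 - u.1| ≤ 2 * (w.2 - w.1))

/-- MODULE TYP (`theorem tTYP : StOGB → StPRB → StCR1 → StSEL → StTYP`). Choice of the pair of orbits.
PROOF. StSEL with `δ/4`, `Θ = 1/(1024 K)`: `v`, `w`. `χ_vv = sInf (cr '' Pr S v v)` etc.; the sets are
nonempty (`(v.1, v.2, v.1+1, v.2+1)`, resp. `(v.1, v.2, w.1, w.2)`, by StPRB) and bounded below by 1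
(StCR1). `M_v = 2 (v.2 - v.1) ≤ δ/2`, `M_w = 2 (w.2 - w.1)`. For `q = (v.1,v.2,w.1,w.2)`:
`χ_vw M_v M_w ≤ 4 cr q (v.2-v.1)(w.2-w.1) = 4 X Y ≤ 4 (δ/4)² = δ²/4`. If `χ_vw² ≤ χ_vv χ_ww` take
`(v, w)`. Otherwise `(χ_vv M_v²)(χ_ww M_w²) < (χ_vw M_v M_w)² ≤ (δ²/4)²`, so one of the factors is
`≤ δ²/4`: take `(v, v)` or `(w, w)` (then `sq` is an equality). The quadruple with `cr q ≤ 2χ` exists
since `χ ≥ 1 > 0` is the infimum. -/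
def StTYP : Prop :=
  ∀ (K : ℝ) (S : Set (Equiv.Perm ℝ)) (Λ : Set ℝ), 1 ≤ K → Gens K S → Lam S Λ → ¬ Fin_ S Λ →
    ∀ δ > 0, ∃ (v w : ℝ × ℝ) (χ₁ χ₂ χ M₁ M₂ : ℝ), Pack K S Λ v w χ₁ χ₂ χ ∧ 0 < M₁ ∧ 0 < M₂ ∧
      (∀ u ∈ OG S v, |u.2 - u.1| ≤ M₁) ∧ (∀ u ∈ OG S w, |u.2 - u.1| ≤ M₂) ∧ M₁ ≤ δ ∧ M₂ ≤ δ ∧
      χ * M₁ * M₂ ≤ δ ^ 2 ∧ ∃ q ∈ Pr S v w, cr q ≤ 2 * χ

/-- MODULE KEY (`theorem tKEY : StBAS → StLAM → StPRB → StPTH → StTOT → StMIN → StTYP → StKEY`). The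
theorem.
PROOF. Suppose `¬ Fin_ S Λ`. Let `ℓ` be from StMIN. Choose `δ > 0` with `δ ≤ 1/8`, `2δ < ℓ` and
`K' * (50000 * (δ²)^(α/2) * ((1 - 2^(-α/2))⁻¹)²) ≤ log 2` (possible: `(δ²)^(α/2) = δ^α → 0`). Take the data
of StTYP for `δ`, `q₀` with `cr q₀ ≤ 2χ`. StPTH with `η = log 2`, `L = log (4χ)`: if
`g ∈ Gr S` and `log cr (qact g q₀) ≤ L` then `q = qact g q₀ ∈ Pr S v w` has `cr q ≤ 4χ`,
`X² ≤ X Y = cr q u w ≤ 4χ M₁ M₂ ≤ 4δ²`, `X ≤ 2δ`, `Y = X + u + w ≤ 4δ ≤ 1`. The sum hypothesis is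
StTOT. So `log cr (qact g q₀) ≤ L` for ALL `g ∈ Gr S`, hence `X (qact g q₀) ≤ 2δ < ℓ` for all `g`, against
StMIN. -/
def StKEY : Prop :=
  ∀ (K K' α : ℝ) (S : Set (Equiv.Perm ℝ)) (Λ : Set ℝ), 1 ≤ K → 0 ≤ K' → 0 < α → α ≤ 1 →
    Gens K S → Lam S Λ → (∀ s ∈ S, H2 K' α (⇑s)) → Fin_ S Λ

end Pool.Agent.Helper59.HX
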